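import Mathlib

set_option autoImplicit false

/-!
# Definitions for the monoidal virtual surjection theorem
-/

namespace Pool.Agent.W386.MD

/-- `M` has a partial resolution `F_{j-1} → ⋯ → F_0 → M → 0` by finitely generated free
`R`-modules. -/
def FPs (R : Type) [Ring R] : ℕ → ∀ (M : Type) [AddCommGroup M] [Module R M], Prop
  | 0 => fun _ _ _ => True
  | j + 1 => fun M _ _ => ∃ (k : ℕ) (f : (Fin k → R) →ₗ[R] M),
      Function.Surjective f ∧ FPs R j (LinearMap.ker f)

/-- the augmentation of the monoid ring `ℤP` -/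
noncomputable def aug (P : Type) [Monoid P] : MonoidAlgebra ℤ P →+* ℤ :=
  ((MonoidAlgebra.lift ℤ ℤ P) 1 : MonoidAlgebra ℤ P →ₐ[ℤ] ℤ).toRingHom

/-- Type `FP_n` for a monoid (or group) `P`: the trivial `ℤP`-module `ℤ` has a partial resolution
`F_n → ⋯ → F_0 → ℤ → 0` by finitely generated free `ℤP`-modules. -/
def TypeFP (n : ℕ) (P : Type) [Monoid P] : Prop :=
  @FPs (MonoidAlgebra ℤ P) _ (n + 1) ℤ _ (Module.compHom ℤ (aug P))

section

variable {G : Type} [Group G]

/-- the value of a character as a real number -/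
def ht (χ : G →* Multiplicative ℝ) (g : G) : ℝ := (χ g).toAdd

/-- the monoid `G_χ = {g | 0 ≤ χ g}` -/
def Pos (χ : G →* Multiplicative ℝ) : Submonoid G where
  carrier := {g | 0 ≤ ht χ g}
  mul_mem' := by
    intro x y hx hy
    simp only [Set.mem_ofPred_eq, ht, map_mul, toAdd_mul] at hx hy ⊢
    exact add_nonneg hx hy
  one_mem' := by
    simp [ht]

/-- `[χ] ∈ Σⁿ(G, ℤ)`: the trivial module is of type `FP_n` over the monoid ring of `G_χ` -/
def SigmaZ (n : ℕ) (χ : G →* Multiplicative ℝ) : Prop := TypeFP n (Pos χ)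

/-- all vertices of the edge path starting at `g` with labels `w` have height at least `c` -/
def Above (χ : G →* Multiplicative ℝ) (c : ℝ) : G → List G → Prop
  | g, [] => c ≤ ht χ g
  | g, x :: w => c ≤ ht χ g ∧ Above χ c (g * x) w

/-- One elementary move between edge paths starting at `g`, with labels in `X`, all of whose
vertices have height at least `c`: a subpath of length at most `ℓ` is replaced by another path of
length at most `ℓ` with the same endpoints. -/
def Mv (χ : G →* Multiplicative ℝ) (X : Set G) (ℓ : ℕ) (c : ℝ) (g : G) (w w' : List G) : Prop :=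
  ∃ u v v' u' : List G, w = u ++ v ++ u' ∧ w' = u ++ v' ++ u' ∧ v.length ≤ ℓ ∧ v'.length ≤ ℓ ∧
    v.prod = v'.prod ∧ (∀ x ∈ w, x ∈ X) ∧ (∀ x ∈ w', x ∈ X) ∧ Above χ c g w ∧ Above χ c g w'

/-- `[χ] ∈ Σ²(G)` (homotopical): for a finite symmetric set `X` of generators and the Cayley
2-complex with 2-cells attached along the closed edge paths of bounded length, the filtration by
the subcomplexes of height at least `t` is essentially 1-connected. -/
def Sigma2 (χ : G →* Multiplicative ℝ) : Prop :=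
  ∃ (X : Set G) (ℓ : ℕ) (d : ℝ), X.Finite ∧ (∀ x ∈ X, x⁻¹ ∈ X) ∧
    (∀ g : G, 0 ≤ ht χ g → ∃ w : List G, (∀ x ∈ w, x ∈ X) ∧ w.prod = g ∧ Above χ (-d) 1 w) ∧
    ∀ w : List G, (∀ x ∈ w, x ∈ X) → w.prod = 1 → Above χ 0 1 w →
      Relation.ReflTransGen (Mv χ X ℓ (-d) 1) w []

/-- `[χ] ∈ Σⁿ(G)` for `n ≥ 2` (homotopical), through the theorem of Renz
`Σⁿ(G) = Σ²(G) ∩ Σⁿ(G, ℤ)` -/
def Sigma (n : ℕ) (χ : G →* Multiplicative ℝ) : Prop := Sigma2 χ ∧ SigmaZ n χ

end

section

variable {m : ℕ} {L : Fin m → Type} [∀ i, Group (L i)]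

/-- the projection `p_J` to the coordinates in `J` -/
def proj (J : Finset (Fin m)) : (∀ i, L i) →* (∀ j : J, L j) where
  toFun x := fun j => x j
  map_one' := rfl
  map_mul' _ _ := rfl

/-- `p_{J₀}` is injective on `S` and `p_{J₀}(S)` meets every factor `L_j`, `j ∈ J₀`,
nontrivially: `p_{J₀}(S) ≅ S` is a full subgroup of the product over `J₀` -/
def FullProj (S : Subgroup (∀ i, L i)) (J₀ : Finset (Fin m)) : Prop :=
  Set.InjOn (proj J₀) (S : Set (∀ i, L i)) ∧
    ∀ j ∈ J₀, ∃ s ∈ S, s j ≠ 1 ∧ ∀ i ∈ J₀, i ≠ j → s i = 1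

/-- the full projections of `S` virtually surject to `n`-tuples -/
def VirtSurj (n : ℕ) (S : Subgroup (∀ i, L i)) : Prop :=
  ∀ J₀ : Finset (Fin m), FullProj S J₀ → ∀ J ⊆ J₀, J.card = n → (S.map (proj J)).FiniteIndex

/-- `p_J(S_χ) = p_J(S)` for all `J` with `n` elements -/
def SameProj (n : ℕ) (S : Subgroup (∀ i, L i)) (χ : S →* Multiplicative ℝ) : Prop :=
  ∀ J : Finset (Fin m), J.card = n → ∀ s : S, ∃ t : S, 0 ≤ ht χ t ∧ ∀ j ∈ J, t.1 j = s.1 j

end

end Pool.Agent.W386.MD
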