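import Pool.Agent.W386.M.Push

set_option autoImplicit false

/-!
# Loops in finitely presented groups
-/

namespace Pool.Agent.W386.M

open Function

variable {P : Type} [Group P] {χ : P →* Multiplicative ℝ}

/-- height-free homotopy -/
def Eqv (χ : P →* Multiplicative ℝ) (S : Set P) (ℓ : ℕ) (w w' : List P) : Prop :=
  ∃ c, Htp χ S ℓ c 1 w w'

section eqv

variable {S : Set P} {ℓ : ℕ}

theorem Eqv.refl (w : List P) : Eqv χ S ℓ w w := ⟨0, Htp.refl _⟩

theorem Eqv.symm {w w' : List P} (h : Eqv χ S ℓ w w') : Eqv χ S ℓ w' w := by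
  obtain ⟨c, h⟩ := h
  exact ⟨c, h.symm⟩

theorem Eqv.trans {w w' w'' : List P} (h : Eqv χ S ℓ w w') (h' : Eqv χ S ℓ w' w'') :
    Eqv χ S ℓ w w'' := by
  obtain ⟨c, h⟩ := h
  obtain ⟨c', h'⟩ := h'
  exact ⟨min c c', (h.lower (min_le_left _ _)).trans (h'.lower (min_le_right _ _))⟩

theorem Eqv.mid {p q v v' : List P} (hp : ∀ x ∈ p, x ∈ S) (hq : ∀ x ∈ q, x ∈ S)
    (h : Eqv χ S ℓ v v') : Eqv χ S ℓ (p ++ v ++ q) (p ++ v' ++ q) := by
  obtain ⟨c, h⟩ := h
  obtain ⟨c1, h1⟩ := exists_above χ p 1
  obtain ⟨c2, h2⟩ := exists_above χ q (1 * p.prod * v.prod)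
  let d := min (min c1 c2) (c + ht χ p.prod)
  refine ⟨d, Htp.mid hp hq (h1.mono ?_) (h2.mono ?_) (h.change ?_)⟩
  · exact (min_le_left _ _).trans (min_le_left _ _)
  · exact (min_le_left _ _).trans (min_le_right _ _)
  · have : d ≤ c + ht χ p.prod := min_le_right _ _
    rw [ht_one, one_mul]
    linarith

theorem Eqv.base {w w' : List P} (h1 : ∀ x ∈ w, x ∈ S) (h2 : ∀ x ∈ w', x ∈ S)
    (h3 : w.length ≤ ℓ) (h4 : w'.length ≤ ℓ) (h5 : w.prod = w'.prod) : Eqv χ S ℓ w w' := by
  obtain ⟨c1, h6⟩ := exists_above χ w 1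
  obtain ⟨c2, h7⟩ := exists_above χ w' 1
  exact ⟨min c1 c2, Htp.base h1 h2 h3 h4 h5 (h6.mono (min_le_left _ _))
    (h7.mono (min_le_right _ _))⟩

theorem Eqv.inv (hS : ∀ s ∈ S, s⁻¹ ∈ S) {w : List P} (h : Eqv χ S ℓ w []) :
    Eqv χ S ℓ (invw w) [] := by
  obtain ⟨c, h⟩ := h
  have hp := h.prod
  have := h.inv hS
  rw [hp, List.prod_nil, mul_one] at this
  exact ⟨c, this⟩

end eqv

/-- in a finitely presented group all loops over a large generating set are null-homotopic -/
theorem fp_loops (hP : Group.IsFinitelyPresented P) : ∃ S0 : Set P, S0.Finite ∧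
    ∀ S : Set P, S.Finite → S0 ⊆ S → (∀ s ∈ S, s⁻¹ ∈ S) → ∃ ℓ0 : ℕ, ∀ ℓ, ℓ0 ≤ ℓ →
      (∀ g : P, ∃ w : List P, (∀ x ∈ w, x ∈ S) ∧ w.prod = g) ∧
      ∀ (χ : P →* Multiplicative ℝ) (w : List P), (∀ x ∈ w, x ∈ S) → w.prod = 1 →
        ∃ c, Htp χ S ℓ c 1 w [] := by
  classical
  obtain ⟨m, φ, hφ, R, hRf, hR⟩ := hP.out
  refine ⟨Set.range (fun i => φ (FreeGroup.of i)), Set.finite_range _, ?_⟩
  intro S hSf hS0 symS
  let val : Fin m × Bool → P := fun x => cond x.2 (φ (FreeGroup.of x.1)) (φ (FreeGroup.of x.1))⁻¹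
  have hval : ∀ x, val x ∈ S := by
    rintro ⟨i, b⟩
    cases b
    · exact symS _ (hS0 ⟨i, rfl⟩)
    · exact hS0 ⟨i, rfl⟩
  let img : List (Fin m × Bool) → List P := fun L => L.map val
  have himgS : ∀ L, ∀ x ∈ img L, x ∈ S := by
    intro L x hx
    obtain ⟨y, _, rfl⟩ := List.mem_map.1 hx
    exact hval y
  have himgp : ∀ L, (img L).prod = φ (FreeGroup.mk L) := by
    intro L
    induction L with
    | nil =>
      have : (FreeGroup.mk [] : FreeGroup (Fin m)) = 1 := rfl
      rw [this, map_one]; rfl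
    | cons x L ih =>
      have h1 : (FreeGroup.mk (x :: L) : FreeGroup (Fin m)) = FreeGroup.mk [x] * FreeGroup.mk L := by
        rw [FreeGroup.mul_mk]; rfl
      rw [h1, map_mul, ← ih]
      change val x * (img L).prod = _
      congr 1
      obtain ⟨i, b⟩ := x
      cases b
      · change (φ (FreeGroup.of i))⁻¹ = _
        rw [← map_inv]
        rfl
      · rfl
  have himginv : ∀ L, img (FreeGroup.invRev L) = invw (img L) := by
    intro L
    simp only [img, invw, FreeGroup.invRev, List.map_reverse, List.map_map]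
    congr 1
    apply List.map_congr_left
    rintro ⟨i, b⟩ _
    cases b <;> simp [val]
  have hq : ∀ s : P, ∃ L : List (Fin m × Bool), φ (FreeGroup.mk L) = s := by
    intro s
    obtain ⟨x, rfl⟩ := hφ s
    exact ⟨x.toWord, by rw [FreeGroup.mk_toWord]⟩
  choose q hq using hq
  have hb1 : ∃ B : ℕ, ∀ s ∈ S, (img (q s)).length ≤ B := by
    obtain ⟨B, hB⟩ := (hSf.image (fun s => (img (q s)).length)).bddAbove
    exact ⟨B, fun s hs => hB ⟨s, hs, rfl⟩⟩
  have hb2 : ∃ B : ℕ, ∀ r ∈ R, (img r.toWord).length ≤ B := by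
    obtain ⟨B, hB⟩ := (hRf.image (fun r => (img r.toWord).length)).bddAbove
    exact ⟨B, fun s hs => hB ⟨s, hs, rfl⟩⟩
  obtain ⟨B1, hB1⟩ := hb1
  obtain ⟨B2, hB2⟩ := hb2
  refine ⟨max 2 (max B1 B2), fun ℓ hℓ => ⟨fun g => ⟨img (q g), himgS _, by rw [himgp, hq]⟩, ?_⟩⟩
  intro χ
  have h2ℓ : 2 ≤ ℓ := (le_max_left _ _).trans hℓ
  have hB1ℓ : B1 ≤ ℓ := ((le_max_left _ _).trans (le_max_right _ _)).trans hℓ
  have hB2ℓ : B2 ≤ ℓ := ((le_max_right _ _).trans (le_max_right _ _)).trans hℓ
  -- free reductions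
  have hred : ∀ L L' : List (Fin m × Bool), FreeGroup.mk L = FreeGroup.mk L' →
      Eqv χ S ℓ (img L) (img L') := by
    have hstep : ∀ L L' : List (Fin m × Bool), FreeGroup.Red.Step L L' →
        Eqv χ S ℓ (img L) (img L') := by
      intro L L' h
      cases h with
      | not =>
        rename_i L1 L2 x b
        have e : Eqv χ S ℓ [val (x, b), val (x, !b)] [] := by
          refine Eqv.base ?_ (by simp) (by simpa using h2ℓ) (by simp) ?_
          · intro y hy
            simp only [List.mem_cons, List.not_mem_nil, or_false] at hy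
            rcases hy with rfl | rfl
            · exact hval _
            · exact hval _
          · cases b <;> simp [val]
        have := e.mid (himgS L1) (himgS L2)
        simpa [img] using this
    have hred1 : ∀ L L' : List (Fin m × Bool), FreeGroup.Red L L' →
        Eqv χ S ℓ (img L) (img L') := by
      intro L L' h
      induction h with
      | refl => exact Eqv.refl _
      | tail _ h2 ih => exact ih.trans (hstep _ _ h2)
    intro L L' h
    obtain ⟨L'', h1, h2⟩ := FreeGroup.Red.exact.1 h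
    exact (hred1 _ _ h1).trans (hred1 _ _ h2).symm
  let H : Subgroup (FreeGroup (Fin m)) :=
    { carrier := {x | Eqv χ S ℓ (img x.toWord) []}
      mul_mem' := by
        intro x y hx hy
        have h1 : Eqv χ S ℓ (img (x * y).toWord) (img (x.toWord ++ y.toWord)) := by
          apply hred
          rw [FreeGroup.mk_toWord, ← FreeGroup.mul_mk, FreeGroup.mk_toWord, FreeGroup.mk_toWord]
        have h2 : img (x.toWord ++ y.toWord) = img x.toWord ++ img y.toWord := by simp [img]
        rw [h2] at h1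
        have h3 := hx.mid (p := []) (q := img y.toWord) (by simp) (himgS _)
        simp only [List.nil_append] at h3
        exact (h1.trans h3).trans hy
      one_mem' := by
        change Eqv χ S ℓ (img (1 : FreeGroup (Fin m)).toWord) []
        rw [FreeGroup.toWord_one]
        exact Eqv.refl _
      inv_mem' := by
        intro x hx
        change Eqv χ S ℓ (img (x⁻¹).toWord) []
        have h1 : Eqv χ S ℓ (img (x⁻¹).toWord) (img (FreeGroup.invRev x.toWord)) := by
          apply hred
          rw [FreeGroup.mk_toWord, ← FreeGroup.inv_mk, FreeGroup.mk_toWord]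
        rw [himginv] at h1
        exact h1.trans (Eqv.inv symS hx) }
  have hHn : H.Normal := by
    refine ⟨fun x hx g => ?_⟩
    change Eqv χ S ℓ (img (g * x * g⁻¹).toWord) []
    have h1 : Eqv χ S ℓ (img (g * x * g⁻¹).toWord)
        (img (g.toWord ++ x.toWord ++ FreeGroup.invRev g.toWord)) := by
      apply hred
      rw [FreeGroup.mk_toWord, ← FreeGroup.mul_mk, ← FreeGroup.mul_mk, ← FreeGroup.inv_mk,
        FreeGroup.mk_toWord, FreeGroup.mk_toWord]
    have h2 : img (g.toWord ++ x.toWord ++ FreeGroup.invRev g.toWord) =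
        img g.toWord ++ img x.toWord ++ img (FreeGroup.invRev g.toWord) := by simp [img]
    rw [h2] at h1
    have h3 := Eqv.mid (himgS g.toWord) (himgS (FreeGroup.invRev g.toWord))
      (show Eqv χ S ℓ (img x.toWord) [] from hx)
    have h4 : Eqv χ S ℓ (img g.toWord ++ [] ++ img (FreeGroup.invRev g.toWord)) [] := by
      have h5 := hred (g.toWord ++ FreeGroup.invRev g.toWord) [] (by
        rw [← FreeGroup.mul_mk, ← FreeGroup.inv_mk, FreeGroup.mk_toWord, mul_inv_cancel]
        rfl)
      simpa [img] using h5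
    exact (h1.trans h3).trans h4
  have hRH : R ⊆ H := by
    intro r hr
    refine Eqv.base (himgS _) (by simp) ((hB2 r hr).trans hB2ℓ) (by simp) ?_
    rw [himgp, FreeGroup.mk_toWord, List.prod_nil]
    have : r ∈ φ.ker := by rw [← hR]; exact Subgroup.subset_normalClosure hr
    exact this
  have hker : φ.ker ≤ H := by
    rw [← hR]
    exact Subgroup.normalClosure_le_normal hRH
  have hloop : ∀ L, φ (FreeGroup.mk L) = 1 → Eqv χ S ℓ (img L) [] := by
    intro L hL
    have h1 : Eqv χ S ℓ (img (FreeGroup.mk L).toWord) [] := hker hL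
    exact (hred L (FreeGroup.mk L).toWord (by rw [FreeGroup.mk_toWord])).trans h1
  have hw : ∀ w : List P, (∀ x ∈ w, x ∈ S) → Eqv χ S ℓ w (img (w.flatMap q)) := by
    intro w
    induction w with
    | nil => intro _; exact Eqv.refl _
    | cons s w ih =>
      intro h
      have hs : s ∈ S := h s (by simp)
      have hw' : ∀ x ∈ w, x ∈ S := fun x hx => h x (by simp [hx])
      have e1 : Eqv χ S ℓ [s] (img (q s)) := by
        refine Eqv.base (mem_single hs) (himgS _) (by
          rw [List.length_singleton]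
          exact le_trans (by norm_num) h2ℓ) ((hB1 s hs).trans hB1ℓ) ?_
        rw [himgp, hq, List.prod_singleton]
      have e2 := e1.mid (p := []) (q := w) (by simp) hw'
      have e3 := (ih hw').mid (p := img (q s)) (q := []) (himgS _) (by simp)
      have e4 : img ((s :: w).flatMap q) = img (q s) ++ img (w.flatMap q) := by
        simp [img, List.flatMap_cons]
      rw [e4]
      simp only [List.nil_append, List.append_nil] at e2 e3
      exact e2.trans e3
  intro w hwS hwp
  have h1 := hw w hwS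
  have h2 : φ (FreeGroup.mk (w.flatMap q)) = 1 := by
    obtain ⟨c, h3⟩ := h1
    rw [← himgp, ← h3.prod, hwp]
  exact h1.trans (hloop _ h2)

end Pool.Agent.W386.M
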