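import Pool.Agent.W386.M.Transport
import Pool.Agent.W386.M.Defs

set_option autoImplicit false

/-!
# The monoidal virtual surjection theorem
-/

namespace Pool.Agent.W386.MD

open Pool.Agent.W386 (fi_comap VS HH Supp KJ hh_of_vs)
open Function

theorem fps_iff {R : Type} [Ring R] : ∀ (n : ℕ) (M : Type) [AddCommGroup M] [Module R M],
    MD.FPs R n M ↔ Pool.Agent.W386.FPs R n M
  | 0, _, _, _ => Iff.rfl
  | n + 1, M, _, _ => by
    refine exists_congr fun k => exists_congr fun f => and_congr Iff.rfl ?_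
    exact fps_iff n _

theorem typeFP_iff {P : Type} [Monoid P] (n : ℕ) :
    TypeFP n P ↔ Pool.Agent.W386.FPs (M.ZG P) (n + 1) (M.Triv P) := by
  unfold TypeFP
  rw [@fps_iff (MonoidAlgebra ℤ P) _ (n + 1) ℤ _ (Module.compHom ℤ (aug P))]
  constructor
  · intro h
    refine @M.FPs.transport (MonoidAlgebra ℤ P) (MonoidAlgebra ℤ P) _ _ (RingEquiv.refl _) (n + 1)
      ℤ _ (Module.compHom ℤ (aug P)) (M.Triv P) _ _
      (show ℤ ≃+ M.Triv P from AddEquiv.refl ℤ) ?_ h
    intro r x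
    rfl
  · intro h
    refine @M.FPs.transport (MonoidAlgebra ℤ P) (MonoidAlgebra ℤ P) _ _ (RingEquiv.refl _) (n + 1)
      (M.Triv P) _ _ ℤ _ (Module.compHom ℤ (aug P))
      (show M.Triv P ≃+ ℤ from AddEquiv.refl ℤ) ?_ h
    intro r x
    rfl

variable {G : Type} [Group G] {χ : G →* Multiplicative ℝ}

theorem above_iff {c : ℝ} (w : List G) : ∀ {g : G}, M.Above χ c g w ↔ MD.Above χ c g w := by
  induction w with
  | nil => intro g; exact Iff.rfl
  | cons x w ih => intro g; exact and_congr Iff.rfl ih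

theorem sigmaZ_of {n : ℕ} (h : M.SigZ n χ) : SigmaZ n χ := (typeFP_iff n).2 h

theorem sigma2_of (h : M.Sig2 χ) : Sigma2 χ := by
  obtain ⟨S, ℓ, d, h1, h2, h3, h4⟩ := h
  refine ⟨S, ℓ, d, h1, h2, ?_, ?_⟩
  · intro g hg
    obtain ⟨w, hw1, hw2, hw3⟩ := h3 g hg
    exact ⟨w, hw1, hw2, (above_iff w).1 hw3⟩
  · intro w hw hp ha
    have h5 := h4 w hw hp ((above_iff w).2 ha)
    refine Relation.ReflTransGen.lift id (fun a b h => ?_) _ _ h5
    obtain ⟨u, v, v', u', e1, e2, e3, e4, e5, e6, e7, e8, e9⟩ := h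
    exact ⟨u, v, v', u', e1, e2, e3, e4, e5, e6, e7, (above_iff _).1 e8, (above_iff _).1 e9⟩

variable {m : ℕ} {L : Fin m → Type} [∀ i, Group (L i)]

theorem exists_min (S : Subgroup (∀ i, L i)) (J : Finset (Fin m)) :
    (∀ s ∈ S, (∀ j ∈ J, s j = 1) → s = 1) → ∃ J₀ : Finset (Fin m),
      (∀ s ∈ S, (∀ j ∈ J₀, s j = 1) → s = 1) ∧
      ∀ j ∈ J₀, ¬ ∀ s ∈ S, (∀ i ∈ J₀.erase j, s i = 1) → s = 1 := by
  induction J using Finset.strongInduction with
  | H J ih =>
    intro hJ
    by_cases h : ∀ j ∈ J, ¬ ∀ s ∈ S, (∀ i ∈ J.erase j, s i = 1) → s = 1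
    · exact ⟨J, hJ, h⟩
    · push Not at h
      obtain ⟨j, hj, h⟩ := h
      exact ih (J.erase j) (Finset.erase_ssubset hj) h

theorem final {m n : ℕ} (hn : 2 ≤ n) (hnm : n ≤ m) (L : Fin m → Type) [∀ i, Group (L i)]
    (hfg : ∀ i, Group.FG (L i)) (hL : ∀ i, TypeFP n (L i))
    (S : Subgroup (∀ i, L i)) (hS : Group.IsFinitelyPresented S) (hK : VirtSurj n S)
    (χ : S →* Multiplicative ℝ) (hχ : χ ≠ 1) (h : SameProj n S χ) :
    Sigma n χ := by
  classical
  -- elements of the kernels with non-zero height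
  have hker : ∀ J : Finset (Fin m), J.card = n → ∃ x : S, proj J (x : ∀ i, L i) = 1 ∧ M.ht χ x ≠ 0 := by
    intro J hJ
    obtain ⟨s, hs⟩ : ∃ s : S, M.ht χ s < 0 := by
      by_contra hcon
      push Not at hcon
      apply hχ
      ext s
      have h1 := hcon s
      have h2 := hcon s⁻¹
      rw [M.ht_inv] at h2
      have h3 : M.ht χ s = 0 := by linarith
      have h4 : χ s = 1 := by
        have : (χ s).toAdd = (1 : Multiplicative ℝ).toAdd := h3
        exact this
      rw [h4]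
      rfl
    obtain ⟨k, hk0, hk'⟩ := h J hJ s
    have hk0' : 0 ≤ M.ht χ k := hk0
    have hk : proj J (k : ∀ i, L i) = proj J (s : ∀ i, L i) := funext fun j => hk' j j.2
    refine ⟨k * s⁻¹, ?_, ?_⟩
    · change proj J ((k : ∀ i, L i) * (s : ∀ i, L i)⁻¹) = 1
      rw [map_mul, map_inv, hk, mul_inv_cancel]
    · rw [M.ht_mul, M.ht_inv]
      intro h0
      linarith
  obtain ⟨J₀, hJ₀, hmin⟩ := exists_min S Finset.univ (fun s _ h1 => funext fun i => h1 i (by simp))
  have hinj : ∀ s ∈ S, proj J₀ s = 1 → s = 1 := fun s hs h1 =>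
    hJ₀ s hs fun j hj => congrFun h1 ⟨j, hj⟩
  have hinjOn : Set.InjOn (proj J₀) (S : Set (∀ i, L i)) := by
    intro x hx y hy hxy
    have h1 := hinj (x * y⁻¹) (S.mul_mem hx (S.inv_mem hy)) (by
      rw [map_mul, map_inv, hxy, mul_inv_cancel])
    exact mul_inv_eq_one.1 h1
  have hfull : ∀ j ∈ J₀, ∃ s ∈ S, s j ≠ 1 ∧ ∀ i ∈ J₀, i ≠ j → s i = 1 := by
    intro j hj
    have h1 := hmin j hj
    push Not at h1
    obtain ⟨s, hs, hs1, hs2⟩ := h1
    have hs1' : ∀ i ∈ J₀, i ≠ j → s i = 1 := fun i hi hij =>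
      hs1 i (Finset.mem_erase.2 ⟨hij, hi⟩)
    refine ⟨s, hs, ?_, hs1'⟩
    intro h2
    apply hs2
    refine hJ₀ s hs fun i hi => ?_
    by_cases hij : i = j
    · rw [hij]; exact h2
    · exact hs1' i hi hij
  have hfin := hK J₀ ⟨hinjOn, hfull⟩
  by_cases hcard : J₀.card < n
  · exfalso
    obtain ⟨J', hJJ', hJ'⟩ := Finset.exists_superset_card_eq (n := n) hcard.le (by simpa using hnm)
    obtain ⟨x, hx1, hx2⟩ := hker J' hJ'
    apply hx2
    have : (x : ∀ i, L i) = 1 := hJ₀ x x.2 fun j hj => congrFun hx1 ⟨j, hJJ' hj⟩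
    rw [show x = 1 from Subtype.ext this, M.ht_one]
  · have hcard' : n ≤ J₀.card := not_lt.1 hcard
    let p : (∀ i, L i) →* (∀ j : J₀, L j) := proj J₀
    let S' : Subgroup (∀ j : J₀, L j) := S.map p
    let f : S →* S' := p.subgroupMap S
    have hf : Bijective f := by
      refine ⟨?_, p.subgroupMap_surjective S⟩
      rw [injective_iff_map_eq_one]
      intro x hx
      apply Subtype.ext
      exact hinj x x.2 (congrArg Subtype.val hx)
    let e : S ≃* S' := MulEquiv.ofBijective f hf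
    let χ' : S' →* Multiplicative ℝ := χ.comp e.symm.toMonoidHom
    have hχ' : χ'.comp e.toMonoidHom = χ := by
      ext x
      simp [χ']
    -- superset of the right size
    have hsup : ∀ J : Finset J₀, J.card ≤ n → ∃ J₁ : Finset (Fin m), J₁ ⊆ J₀ ∧ J₁.card = n ∧
        ∀ j ∈ J, (j : Fin m) ∈ J₁ := by
      intro J hJ
      obtain ⟨J', hJJ', hJ'⟩ := Finset.exists_superset_card_eq (n := n) hJ (by simpa using hcard')
      refine ⟨J'.map (Function.Embedding.subtype _), ?_, by rw [Finset.card_map, hJ'], ?_⟩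
      · intro x hx
        obtain ⟨y, _, rfl⟩ := Finset.mem_map.1 hx
        exact y.2
      · intro j hj
        exact Finset.mem_map.2 ⟨j, hJJ' hj, rfl⟩
    have hVS : VS n Finset.univ S' := by
      intro J _ hJ
      obtain ⟨J₁, h1, h2, h3⟩ := hsup J hJ
      have h4 := hfin J₁ h1 h2
      let r : (∀ j : J₀, L j) →* (∀ j : J₁, L j) :=
        MonoidHom.pi fun j : J₁ => Pi.evalMonoidHom (fun j : J₀ => L j) ⟨j, h1 j.2⟩
      have h5 : S.map (proj J₁) = S'.map r := by
        rw [Subgroup.map_map]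
        rfl
      rw [h5] at h4
      have h6 : ((S'.map r).comap r).FiniteIndex := fi_comap r _
      rw [Subgroup.comap_map_eq] at h6
      refine Subgroup.finiteIndex_of_le (H := S' ⊔ r.ker) (sup_le_sup_left ?_ S')
      intro x hx j hj
      exact congrFun (show r x = 1 from hx) ⟨j, h3 j hj⟩
    have hHH : HH Finset.univ S' := hh_of_vs (fun i => Finset.mem_univ i) (hVS.mono hn)
    have hSupp : Supp Finset.univ S' := fun x _ i hi => absurd (Finset.mem_univ i) hi
    have hχk : ∀ J : Finset J₀, J.card ≤ n → ∃ x : S', (x : ∀ j : J₀, L j) ∈ KJ J ∧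
        M.ht χ' x ≠ 0 := by
      intro J hJ
      obtain ⟨J₁, _, h2, h3⟩ := hsup J hJ
      obtain ⟨x, hx1, hx2⟩ := hker J₁ h2
      refine ⟨e x, ?_, ?_⟩
      · intro j hj
        exact congrFun hx1 ⟨j, h3 j hj⟩
      · change M.ht χ (e.symm (e x)) ≠ 0
        rw [MulEquiv.symm_apply_apply]
        exact hx2
    have hfgJ : ∀ j : J₀, Group.FG (L j) := fun j => hfg j
    have hLJ : ∀ j : J₀, Pool.Agent.W386.FPs (Pool.Agent.W386.ZG (L j)) (n + 1)
        (Pool.Agent.W386.Triv (L j)) := fun j => (typeFP_iff n).1 (hL j)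
    have hLJ2 : ∀ j : J₀, Pool.Agent.W386.FPs (Pool.Agent.W386.ZG (L j)) 2
        (Pool.Agent.W386.Triv (L j)) := by
      intro j
      have key : ∀ k, Pool.Agent.W386.FPs (Pool.Agent.W386.ZG (L j)) (k + 2)
          (Pool.Agent.W386.Triv (L j)) → Pool.Agent.W386.FPs (Pool.Agent.W386.ZG (L j)) 2
          (Pool.Agent.W386.Triv (L j)) := by
        intro k
        induction k with
        | zero => exact fun h => h
        | succ k ih => exact fun h => ih h.mono
      obtain ⟨k, rfl⟩ := Nat.exists_eq_add_of_le' hn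
      exact key (k + 1) (hLJ j)
    have hZ := M.sigma_main hfgJ Finset.univ n S' χ' hLJ hSupp hHH hVS (fun J _ hJ => hχk J hJ)
    have h2 := M.sig2_main hfgJ hLJ2 Finset.univ S' χ' (Group.IsFinitelyPresented.equiv e)
      hSupp hHH (hVS.mono hn) (fun J _ hJ => hχk J (hJ.trans hn))
    have hZ' := hZ.transport e
    have h2' := h2.transport e
    rw [hχ'] at hZ' h2'
    exact ⟨sigma2_of h2', sigmaZ_of hZ'⟩

end Pool.Agent.W386.MD
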