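import Pool.Agent.W386.SFP

set_option autoImplicit false

/-!
# Induced modules over monoid rings
-/

namespace Pool.Agent.W386.M

open Function

/-- integral monoid ring -/
abbrev ZG (P : Type) : Type := MonoidAlgebra ℤ P

section act

variable {P : Type} [Monoid P] {A B : Type} [AddCommGroup A] [Module (ZG P) A]
  [AddCommGroup B] [Module (ZG P) B]

/-- the action of a monoid element -/
noncomputable def act (p : P) (a : A) : A := (MonoidAlgebra.of ℤ P p) • a

theorem act_one (a : A) : act (1 : P) a = a := by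
  rw [act, map_one, one_smul]

theorem act_mul (p q : P) (a : A) : act (p * q) a = act p (act q a) := by
  rw [act, map_mul, mul_smul]; rfl

theorem act_add (p : P) (a b : A) : act p (a + b) = act p a + act p b := smul_add _ _ _

theorem act_sub (p : P) (a b : A) : act p (a - b) = act p a - act p b := smul_sub _ _ _

theorem act_neg (p : P) (a : A) : act p (-a) = -act p a := smul_neg _ _

theorem act_zero (p : P) : act p (0 : A) = 0 := smul_zero _

theorem map_act (f : A →ₗ[ZG P] B) (p : P) (a : A) : f (act p a) = act p (f a) := f.map_smul _ _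

theorem act_mem (S : Submodule (ZG P) A) (p : P) {a : A} (h : a ∈ S) : act p a ∈ S :=
  S.smul_mem _ h

theorem act_coe (S : Submodule (ZG P) A) (p : P) (a : S) : ((act p a : S) : A) = act p (a : A) :=
  rfl

/-- `act` as an additive map -/
noncomputable def actHom (p : P) : A →+ A := DistribSMul.toAddMonoidHom A (MonoidAlgebra.of ℤ P p)

@[simp] theorem actHom_apply (p : P) (a : A) : actHom p a = act p a := rfl

theorem zg_induction (S : AddSubgroup (ZG P)) (h : ∀ p : P, MonoidAlgebra.of ℤ P p ∈ S)
    (r : ZG P) : r ∈ S := by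
  induction r using MonoidAlgebra.induction_on with
  | of m => exact h m
  | add x y hx hy => exact S.add_mem hx hy
  | smul z x hx =>
    exact S.zsmul_mem hx z

end act

/-- `ι : M → A` exhibits `A` as the `ℤP`-module induced from the `ℤN`-module `M`; the map
`b : P → Γ` separates the cosets. -/
structure IsInd {N P Γ : Type} [Monoid N] [Monoid P] (j : N →* P) (b : P → Γ) {M A : Type}
    [AddCommGroup M] [Module (ZG N) M] [AddCommGroup A] [Module (ZG P) A] (ι : M →+ A) :
    Prop where
  map : ∀ (n : N) (m : M), ι (act n m) = act (j n) (ι m)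
  gen : ∀ S : AddSubgroup A, (∀ (p : P) (m : M), act p (ι m) ∈ S) → ∀ a : A, a ∈ S
  grade : ∀ γ : Γ, ∃ e : A →+ A, ∀ (p : P) (m : M), (b p = γ → e (act p (ι m)) = act p (ι m)) ∧
    (b p ≠ γ → e (act p (ι m)) = 0)
  tf : ∀ (p : P) (m : M), act p (ι m) = 0 → m = 0

/-- two elements with the same image are comparable -/
def Comp {N P Γ : Type} [Monoid N] [Monoid P] (j : N →* P) (b : P → Γ) : Prop :=
  (∀ p n, b (p * j n) = b p) ∧ ∀ p q : P, b p = b q → ∃ n, p = q * j n ∨ q = p * j n

section ind

variable {N P Γ : Type} [Monoid N] [Monoid P] {j : N →* P} {b : P → Γ} {M A : Type}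
    [AddCommGroup M]
    [Module (ZG N) M] [AddCommGroup A] [Module (ZG P) A] {ι : M →+ A}

/-- the canonical additive map -/
noncomputable def Phi (ι : M →+ A) : (P →₀ M) →+ A :=
  Finsupp.liftAddHom (fun p => (actHom p).comp ι)

theorem Phi_single (p : P) (m : M) : Phi ι (Finsupp.single p m) = act p (ι m) := by
  rw [Phi, Finsupp.liftAddHom_apply_single]
  rfl

theorem IsInd.phi_surj (h : IsInd j b ι) (a : A) : ∃ x : P →₀ M, Phi ι x = a := by
  have := h.gen (Phi (P := P) ι).range (fun p m => ⟨Finsupp.single p m, Phi_single p m⟩) a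
  exact this

/-- normal form -/
theorem nf (hC : Comp j b) (x : P →₀ M) :
    ∃ (s : Finset Γ) (p : Γ → P) (m : Γ → M), (∀ γ ∈ s, b (p γ) = γ) ∧
      ∀ {X : Type} [AddCommGroup X] (H : P → M →+ X)
        (_ : ∀ p n m, H (p * j n) m = H p (act n m)),
          Finsupp.liftAddHom H x = ∑ γ ∈ s, H (p γ) (m γ) := by
  classical
  induction x using Finsupp.induction_linear with
  | zero =>
    exact ⟨∅, fun _ => 1, fun _ => 0, by simp, fun H _ => by simp⟩
  | single p m =>
    refine ⟨{b p}, fun _ => p, fun _ => m, ?_, ?_⟩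
    · intro γ hγ
      rw [Finset.mem_singleton] at hγ
      exact hγ.symm
    · intro X _ H _
      rw [Finsupp.liftAddHom_apply_single]
      simp
  | add x y hx hy =>
    obtain ⟨s, p, m, h1, h2⟩ := hx
    obtain ⟨s', p', m', h1', h2'⟩ := hy
    have key : ∀ γ, ∃ (q : P) (r : M), (γ ∈ s ∪ s' → b q = γ) ∧
        ∀ {X : Type} [AddCommGroup X] (H : P → M →+ X)
        (_ : ∀ p n m, H (p * j n) m = H p (act n m)),
        (if γ ∈ s then H (p γ) (m γ) else 0) + (if γ ∈ s' then H (p' γ) (m' γ) else 0) =
          H q r := by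
      intro γ
      by_cases hs : γ ∈ s
      · by_cases hs' : γ ∈ s'
        · obtain ⟨n, h | h⟩ := hC.2 (p γ) (p' γ) (by rw [h1 γ hs, h1' γ hs'])
          · refine ⟨p' γ, act n (m γ) + m' γ, fun _ => h1' γ hs', ?_⟩
            intro X _ H hH
            rw [if_pos hs, if_pos hs', h, hH, map_add]
          · refine ⟨p γ, m γ + act n (m' γ), fun _ => h1 γ hs, ?_⟩
            intro X _ H hH
            rw [if_pos hs, if_pos hs', h, hH, map_add]
        · refine ⟨p γ, m γ, fun _ => h1 γ hs, ?_⟩
          intro X _ H hH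
          rw [if_pos hs, if_neg hs', add_zero]
      · by_cases hs' : γ ∈ s'
        · refine ⟨p' γ, m' γ, fun _ => h1' γ hs', ?_⟩
          intro X _ H hH
          rw [if_neg hs, if_pos hs', zero_add]
        · refine ⟨1, 0, ?_, ?_⟩
          · intro h
            rcases Finset.mem_union.1 h with h | h
            · exact absurd h hs
            · exact absurd h hs'
          · intro X _ H hH
            rw [if_neg hs, if_neg hs', add_zero, map_zero]
    choose q r hq hr using key
    refine ⟨s ∪ s', q, r, fun γ hγ => hq γ hγ, ?_⟩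
    intro X _ H hH
    rw [map_add, h2 H hH, h2' H hH]
    have e1 : ∑ γ ∈ s, H (p γ) (m γ) = ∑ γ ∈ s ∪ s', if γ ∈ s then H (p γ) (m γ) else 0 := by
      rw [Finset.sum_ite_mem, Finset.union_inter_cancel_left]
    have e2 : ∑ γ ∈ s', H (p' γ) (m' γ) =
        ∑ γ ∈ s ∪ s', if γ ∈ s' then H (p' γ) (m' γ) else 0 := by
      rw [Finset.sum_ite_mem, Finset.union_inter_cancel_right]
    rw [e1, e2, ← Finset.sum_add_distrib]
    exact Finset.sum_congr rfl fun γ _ => hr γ H hH

theorem IsInd.zero_of_sum (h : IsInd j b ι) (s : Finset Γ) (p : Γ → P) (m : Γ → M)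
    (hp : ∀ γ ∈ s, b (p γ) = γ) (h0 : ∑ γ ∈ s, act (p γ) (ι (m γ)) = 0) :
    ∀ γ ∈ s, m γ = 0 := by
  classical
  intro γ hγ
  obtain ⟨e, he⟩ := h.grade γ
  apply h.tf (p γ)
  have h1 := congrArg e h0
  rw [map_zero, map_sum, Finset.sum_eq_single γ] at h1
  · rwa [(he _ _).1 (hp γ hγ)] at h1
  · intro γ' hγ' hne
    refine (he _ _).2 ?_
    rw [hp γ' hγ']
    exact hne
  · intro h
    exact absurd hγ h

theorem actιH (h : IsInd j b ι) : ∀ (p : P) (n : N) (m : M),
    ((actHom (p * j n)).comp ι) m = ((actHom p).comp ι) (act n m) := by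
  intro p n m
  simp only [AddMonoidHom.comp_apply, actHom_apply]
  rw [act_mul, ← h.map]

theorem IsInd.lift_eq_zero (h : IsInd j b ι) (hC : Comp j b) {X : Type} [AddCommGroup X]
    (H : P → M →+ X)
    (hH : ∀ p n m, H (p * j n) m = H p (act n m)) (x : P →₀ M) (hx : Phi ι x = 0) :
    Finsupp.liftAddHom H x = 0 := by
  obtain ⟨s, p, m, h1, h2⟩ := nf hC x
  have h3 : Phi ι x = ∑ γ ∈ s, act (p γ) (ι (m γ)) :=
    h2 (fun p => (actHom p).comp ι) (actιH h)
  rw [hx] at h3
  have h4 := h.zero_of_sum s p m h1 h3.symm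
  rw [h2 H hH]
  exact Finset.sum_eq_zero fun γ hγ => by rw [h4 γ hγ, map_zero]

theorem IsInd.exists_desc (h : IsInd j b ι) (hC : Comp j b) {X : Type} [AddCommGroup X]
    (H : P → M →+ X)
    (hH : ∀ p n m, H (p * j n) m = H p (act n m)) :
    ∃ D : A →+ X, ∀ p m, D (act p (ι m)) = H p m := by
  choose x hx using h.phi_surj
  have key : ∀ (y : P →₀ M), Finsupp.liftAddHom H (x (Phi ι y)) = Finsupp.liftAddHom H y := by
    intro y
    have := h.lift_eq_zero hC H hH (x (Phi ι y) - y) (by rw [map_sub, hx, sub_self])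
    rw [map_sub, sub_eq_zero] at this
    exact this
  refine ⟨AddMonoidHom.mk' (fun a => Finsupp.liftAddHom H (x a)) ?_, ?_⟩
  · intro a b
    rw [← map_add, ← key (x a + x b), map_add, hx, hx]
  · intro p m
    change Finsupp.liftAddHom H (x (act p (ι m))) = _
    rw [← Phi_single, key, Finsupp.liftAddHom_apply_single]

theorem IsInd.nfA (h : IsInd j b ι) (hC : Comp j b) (a : A) :
    ∃ (s : Finset Γ) (p : Γ → P) (m : Γ → M), (∀ γ ∈ s, b (p γ) = γ) ∧
      a = ∑ γ ∈ s, act (p γ) (ι (m γ)) := by
  obtain ⟨x, rfl⟩ := h.phi_surj a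
  obtain ⟨s, p, m, h1, h2⟩ := nf hC x
  exact ⟨s, p, m, h1, h2 (fun p => (actHom p).comp ι) (actιH h)⟩

end ind

section ker

variable {N P Γ : Type} [Monoid N] [Monoid P] {j : N →* P} {b : P → Γ} {M A C D : Type}
    [AddCommGroup M]
    [Module (ZG N) M] [AddCommGroup A] [Module (ZG P) A] {ι : M →+ A}
    [AddCommGroup C] [Module (ZG N) C] [AddCommGroup D] [Module (ZG P) D] {κ : C →+ D}

/-- the restriction of `κ` to kernels -/
def kerHom (f : C →ₗ[ZG N] M) (F : D →ₗ[ZG P] A) (κ : C →+ D) (hF : ∀ c, F (κ c) = ι (f c)) :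
    LinearMap.ker f →+ LinearMap.ker F where
  toFun c := ⟨κ c, by
    rw [LinearMap.mem_ker, hF]
    have : f (c : C) = 0 := c.2
    rw [this, map_zero]⟩
  map_zero' := by
    apply Subtype.ext
    simp
  map_add' x y := by
    apply Subtype.ext
    simp

theorem kerHom_coe (f : C →ₗ[ZG N] M) (F : D →ₗ[ZG P] A) (κ : C →+ D)
    (hF : ∀ c, F (κ c) = ι (f c)) (c : LinearMap.ker f) :
    ((kerHom f F κ hF c : LinearMap.ker F) : D) = κ c := rfl

/-- the kernel of an induced map is induced -/
theorem IsInd.ker (hC : Comp j b) (hι : IsInd j b ι) (hκ : IsInd j b κ) (f : C →ₗ[ZG N] M)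
    (F : D →ₗ[ZG P] A)
    (hF : ∀ c, F (κ c) = ι (f c)) : IsInd j b (kerHom f F κ hF) := by
  refine ⟨?_, ?_, ?_, ?_⟩
  · intro n m
    apply Subtype.ext
    rw [kerHom_coe, act_coe, hκ.map, act_coe, kerHom_coe]
  · intro S hS a
    obtain ⟨s, p, c, h1, h2⟩ := hκ.nfA hC (a : D)
    have h3 : ∀ γ ∈ s, f (c γ) = 0 := by
      refine hι.zero_of_sum s p (fun γ => f (c γ)) h1 ?_
      have h4 : F (a : D) = 0 := a.2
      rw [h2, map_sum] at h4
      rw [← h4]
      refine Finset.sum_congr rfl fun γ _ => ?_
      rw [map_act, hF]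
    have h5 : a = ∑ γ ∈ s.attach, act (p γ) (kerHom f F κ hF ⟨c γ, h3 γ γ.2⟩) := by
      apply Subtype.ext
      rw [Submodule.coe_sum, h2]
      simp only [act_coe, kerHom_coe]
      exact (Finset.sum_attach s (fun γ => act (p γ) (κ (c γ)))).symm
    rw [h5]
    exact S.sum_mem fun γ _ => hS _ _
  · intro γ
    obtain ⟨e, he⟩ := hκ.grade γ
    obtain ⟨e', he'⟩ := hι.grade γ
    have hc : ∀ d, F (e d) = e' (F d) := by
      let S : AddSubgroup D :=
        { carrier := {d | F (e d) = e' (F d)}
          add_mem' := by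
            intro x y hx hy
            simp only [Set.mem_ofPred_eq] at hx hy ⊢
            rw [map_add, map_add, map_add, map_add, hx, hy]
          zero_mem' := by simp
          neg_mem' := by
            intro x hx
            simp only [Set.mem_ofPred_eq] at hx ⊢
            rw [map_neg, map_neg, map_neg, map_neg, hx] }
      refine hκ.gen S ?_
      intro p c
      change F (e (act p (κ c))) = e' (F (act p (κ c)))
      rw [map_act, hF]
      by_cases hp : b p = γ
      · rw [(he p c).1 hp, (he' p _).1 hp, map_act, hF]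
      · rw [(he p c).2 hp, (he' p _).2 hp, map_zero]
    refine ⟨(e.comp (LinearMap.ker F).subtype.toAddMonoidHom).codRestrict
      (LinearMap.ker F).toAddSubgroup ?_, ?_⟩
    · rintro ⟨d, hd⟩
      change F (e d) = 0
      rw [hc, hd, map_zero]
    · rintro p ⟨c, hcc⟩
      refine ⟨fun hp => ?_, fun hp => ?_⟩
      · apply Subtype.ext
        exact (he p c).1 hp
      · apply Subtype.ext
        exact (he p c).2 hp
  · rintro p ⟨c, hc⟩ h0
    apply Subtype.ext
    refine hκ.tf p c ?_
    exact congrArg Subtype.val h0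

end ker

section free

variable {N P Γ : Type} [Monoid N] [Monoid P] (j : N →* P) (b : P → Γ)

/-- the map between free modules -/
noncomputable def freeHom (k : ℕ) : (Fin k → ZG N) →+ (Fin k → ZG P) where
  toFun x := fun s => MonoidAlgebra.mapDomainRingHom ℤ j (x s)
  map_zero' := by
    funext s
    simp
  map_add' x y := by
    funext s
    exact map_add (MonoidAlgebra.mapDomainRingHom ℤ j) (x s) (y s)

theorem freeHom_apply (k : ℕ) (x : Fin k → ZG N) (s : Fin k) :
    freeHom j k x s = MonoidAlgebra.mapDomainRingHom ℤ j (x s) := rfl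

theorem act_apply {k : ℕ} (p : P) (x : Fin k → ZG P) (s : Fin k) :
    (act p x) s = MonoidAlgebra.of ℤ P p * x s := rfl

theorem mapDomain_of (n : N) : MonoidAlgebra.mapDomainRingHom ℤ j (MonoidAlgebra.of ℤ N n) =
    MonoidAlgebra.of ℤ P (j n) := by
  simp [MonoidAlgebra.of_apply, MonoidAlgebra.mapDomainRingHom]

/-- the part of an element of the monoid ring lying over `γ` -/
noncomputable def filt (γ : Γ) : ZG P →+ ZG P where
  toFun x := by
    classical
    exact MonoidAlgebra.ofCoeff (x.coeff.filter (fun p => b p = γ))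
  map_zero' := by
    classical
    ext p
    simp only [MonoidAlgebra.coeff_ofCoeff, MonoidAlgebra.coeff_zero]
    rw [Finsupp.filter_apply]
    simp
  map_add' x y := by
    classical
    ext p
    by_cases h : b p = γ
    · simp [h]
    · simp [h]

theorem filt_of (γ : Γ) (p : P) (h : b p = γ) :
    filt b γ (MonoidAlgebra.of ℤ P p) = MonoidAlgebra.of ℤ P p := by
  classical
  ext q
  simp only [filt, AddMonoidHom.coe_mk, ZeroHom.coe_mk, MonoidAlgebra.of_apply,
    MonoidAlgebra.coeff_ofCoeff, MonoidAlgebra.coeff_single]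
  rw [Finsupp.filter_apply]
  split_ifs with hq
  · rfl
  · rw [Finsupp.single_eq_of_ne]
    rintro rfl
    exact hq h

theorem filt_of_ne (γ : Γ) (p : P) (h : b p ≠ γ) :
    filt b γ (MonoidAlgebra.of ℤ P p) = 0 := by
  classical
  ext q
  simp only [filt, AddMonoidHom.coe_mk, ZeroHom.coe_mk, MonoidAlgebra.of_apply,
    MonoidAlgebra.coeff_ofCoeff, MonoidAlgebra.coeff_single]
  rw [Finsupp.filter_apply, MonoidAlgebra.coeff_zero, Finsupp.zero_apply]
  split_ifs with hq
  · rw [Finsupp.single_eq_of_ne]
    rintro rfl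
    exact h hq
  · rfl

theorem isInd_free (hj : ∀ p, Injective fun n => p * j n) (hC : Comp j b) (k : ℕ) :
    IsInd j b (freeHom j k) := by
  refine ⟨?_, ?_, ?_, ?_⟩
  · intro n x
    funext s
    rw [freeHom_apply, act_apply, act_apply, map_mul, mapDomain_of, freeHom_apply]
  · intro S hS a
    classical
    rw [← Finset.univ_sum_single a]
    refine S.sum_mem fun s _ => ?_
    let T : AddSubgroup (ZG P) :=
      { carrier := {r | (Pi.single s r : Fin k → ZG P) ∈ S}
        add_mem' := by
          intro x y hx hy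
          simp only [Set.mem_ofPred_eq] at hx hy ⊢
          rw [Pi.single_add]
          exact S.add_mem hx hy
        zero_mem' := by simp
        neg_mem' := by
          intro x hx
          simp only [Set.mem_ofPred_eq] at hx ⊢
          rw [Pi.single_neg]
          exact S.neg_mem hx }
    refine zg_induction T (fun p => ?_) (a s)
    have := hS p (Pi.single s 1)
    change (Pi.single s (MonoidAlgebra.of ℤ P p) : Fin k → ZG P) ∈ S
    convert this using 1
    funext t
    rw [act_apply, freeHom_apply]
    by_cases h : t = s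
    · subst h
      simp
    · simp [h]
  · intro γ
    refine ⟨{ toFun := fun x s => filt b γ (x s), map_zero' := ?_, map_add' := ?_ }, ?_⟩
    · funext s
      simp
    · intro x y
      funext s
      simp
    · intro p x
      have key : ∀ r : ZG N, (b p = γ → filt b γ (MonoidAlgebra.of ℤ P p *
          MonoidAlgebra.mapDomainRingHom ℤ j r) = MonoidAlgebra.of ℤ P p *
          MonoidAlgebra.mapDomainRingHom ℤ j r) ∧ (b p ≠ γ → filt b γ (MonoidAlgebra.of ℤ P p *
          MonoidAlgebra.mapDomainRingHom ℤ j r) = 0) := by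
        let T : AddSubgroup (ZG N) :=
          { carrier := {r | (b p = γ → filt b γ (MonoidAlgebra.of ℤ P p *
              MonoidAlgebra.mapDomainRingHom ℤ j r) = MonoidAlgebra.of ℤ P p *
              MonoidAlgebra.mapDomainRingHom ℤ j r) ∧
              (b p ≠ γ → filt b γ (MonoidAlgebra.of ℤ P p *
              MonoidAlgebra.mapDomainRingHom ℤ j r) = 0)}
            add_mem' := by
              rintro x y ⟨hx1, hx2⟩ ⟨hy1, hy2⟩
              refine ⟨fun h => ?_, fun h => ?_⟩
              · rw [map_add, mul_add, map_add, hx1 h, hy1 h]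
              · rw [map_add, mul_add, map_add, hx2 h, hy2 h, add_zero]
            zero_mem' := by simp
            neg_mem' := by
              rintro x ⟨hx1, hx2⟩
              refine ⟨fun h => ?_, fun h => ?_⟩
              · rw [map_neg, mul_neg, map_neg, hx1 h]
              · rw [map_neg, mul_neg, map_neg, hx2 h, neg_zero] }
        intro r
        refine zg_induction T (fun n => ?_) r
        refine ⟨fun h => ?_, fun h => ?_⟩
        · rw [mapDomain_of, ← map_mul]
          exact filt_of b γ _ (by rw [hC.1, h])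
        · rw [mapDomain_of, ← map_mul]
          exact filt_of_ne b γ _ (by rw [hC.1]; exact h)
      refine ⟨fun h => ?_, fun h => ?_⟩
      · funext s
        exact (key (x s)).1 h
      · funext s
        exact (key (x s)).2 h
  · intro p x h0
    funext s
    have h1 : MonoidAlgebra.of ℤ P p * MonoidAlgebra.mapDomainRingHom ℤ j (x s) = 0 :=
      congrFun h0 s
    have h2 : ∀ r : ZG N, MonoidAlgebra.of ℤ P p * MonoidAlgebra.mapDomainRingHom ℤ j r =
        MonoidAlgebra.mapDomain (fun n => p * j n) r := by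
      let T : AddSubgroup (ZG N) :=
        { carrier := {r | MonoidAlgebra.of ℤ P p * MonoidAlgebra.mapDomainRingHom ℤ j r =
            MonoidAlgebra.mapDomain (fun n => p * j n) r}
          add_mem' := by
            intro x y hx hy
            simp only [Set.mem_ofPred_eq] at hx hy ⊢
            rw [map_add, mul_add, hx, hy, MonoidAlgebra.mapDomain_add]
          zero_mem' := by
            simp only [Set.mem_ofPred_eq]
            rw [map_zero, mul_zero, MonoidAlgebra.mapDomain_zero]
          neg_mem' := by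
            intro x hx
            simp only [Set.mem_ofPred_eq] at hx ⊢
            rw [map_neg, mul_neg, hx, eq_comm, eq_neg_iff_add_eq_zero,
              ← MonoidAlgebra.mapDomain_add, neg_add_cancel, MonoidAlgebra.mapDomain_zero] }
      intro r
      refine zg_induction T (fun n => ?_) r
      change _ = _
      rw [mapDomain_of, ← map_mul]
      simp [MonoidAlgebra.of_apply, MonoidAlgebra.mapDomain_single]
    rw [h2] at h1
    exact MonoidAlgebra.mapDomain_injective (hj p) (h1.trans (MonoidAlgebra.mapDomain_zero _).symm)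

end free

end Pool.Agent.W386.M
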