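import Pool.Agent.W386.M.Transfer
import Pool.Agent.W386.Main

set_option autoImplicit false

/-!
# The main homological step, for monoids
-/

namespace Pool.Agent.W386.M

open Function

section triv

/-- augmentation -/
noncomputable def aug (P : Type) [Monoid P] : ZG P →+* ℤ :=
  ((MonoidAlgebra.lift ℤ ℤ P) 1 : ZG P →ₐ[ℤ] ℤ).toRingHom

theorem aug_of {P : Type} [Monoid P] (p : P) : aug P (MonoidAlgebra.of ℤ P p) = 1 := by
  simp [aug]

/-- the trivial module -/
abbrev Triv (P : Type) [Monoid P] : Type := Res (aug P) ℤ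

variable {P G : Type} [Monoid P] [Monoid G]

/-- the ring homomorphism of monoid rings -/
noncomputable abbrev gr (b : P →* G) : ZG P →+* ZG G := MonoidAlgebra.mapDomainRingHom ℤ b

theorem aug_gr (b : P →* G) (r : ZG P) : aug G (gr b r) = aug P r := by
  let S : AddSubgroup (ZG P) :=
    { carrier := {r | aug G (gr b r) = aug P r}
      add_mem' := by
        intro x y hx hy
        simp only [Set.mem_ofPred_eq] at hx hy ⊢
        rw [map_add, map_add, map_add, hx, hy]
      zero_mem' := by simp
      neg_mem' := by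
        intro x hx
        simp only [Set.mem_ofPred_eq] at hx ⊢
        rw [map_neg, map_neg, map_neg, hx] }
  refine zg_induction S (fun p => ?_) r
  change aug G (gr b (MonoidAlgebra.of ℤ P p)) = aug P (MonoidAlgebra.of ℤ P p)
  rw [mapDomain_of, aug_of, aug_of]

/-- `ℤ[G]` as a module over `ℤ[P]` -/
abbrev Ext (b : P →* G) : Type := Res (gr b) (ZG G)

/-- augmentation map on `ℤ[G]` as a module over `ℤ[P]` -/
noncomputable def augE (b : P →* G) : Ext b →ₗ[ZG P] Triv P where
  toFun := fun x => aug G x
  map_add' := fun x y => map_add (aug G) x y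
  map_smul' := fun r x => by
    change aug G (gr b r * (id x : ZG G)) = aug P r * aug G (id x : ZG G)
    rw [map_mul, aug_gr]

theorem aug_single {P : Type} [Monoid P] (p : P) (z : ℤ) :
    aug P (MonoidAlgebra.single p z : ZG P) = z := by
  have h : (MonoidAlgebra.single p z : ZG P) = z • MonoidAlgebra.of ℤ P p := by
    rw [MonoidAlgebra.of_apply, MonoidAlgebra.smul_single, smul_eq_mul, mul_one]
  rw [h, map_zsmul, aug_of, smul_eq_mul, mul_one]

theorem augE_surj (b : P →* G) : Surjective (augE b) := by
  intro z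
  exact ⟨(MonoidAlgebra.single 1 (id z : ℤ) : ZG G), aug_single 1 (id z : ℤ)⟩

/-- right multiplication -/
noncomputable def rmul (b : P →* G) (w : ZG G) : Ext b →ₗ[ZG P] Ext b where
  toFun := fun x => (show ZG G from x) * w
  map_add' := fun x y => add_mul (show ZG G from x) (show ZG G from y) w
  map_smul' := fun r x => mul_assoc (gr b r) (show ZG G from x) w

/-- the operators -/
noncomputable def ops {Y : Type} (b : P →* G) (zy : Y → P) : Y → Ext b →ₗ[ZG P] Ext b :=
  fun y => rmul b (MonoidAlgebra.of ℤ G (b (zy y)))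

variable {N : Type} [Monoid N]

/-- the map from the trivial module -/
noncomputable def iotaT (N : Type) [Monoid N] (b : P →* G) : Triv N →+ Ext b where
  toFun := fun m => (show ZG G from MonoidAlgebra.single 1 (show ℤ from m))
  map_zero' := MonoidAlgebra.single_zero _
  map_add' := fun x y => MonoidAlgebra.single_add _ _ _

theorem act_triv (n : N) (m : Triv N) : act n m = m := by
  change aug N (MonoidAlgebra.of ℤ N n) * (show ℤ from m) = m
  rw [aug_of, one_mul]

theorem act_iota (b : P →* G) (p : P) (m : Triv N) :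
    act p (iotaT N b m) = (show Ext b from (MonoidAlgebra.single (b p) (show ℤ from m) : ZG G)) := by
  change gr b (MonoidAlgebra.of ℤ P p) * (MonoidAlgebra.single 1 (show ℤ from m) : ZG G) = _
  rw [mapDomain_of, MonoidAlgebra.of_apply, MonoidAlgebra.single_mul_single, mul_one, one_mul]

theorem isInd_triv (j : N →* P) (b : P →* G) (hb : Surjective b) (hjb : ∀ n, b (j n) = 1) :
    IsInd j b (iotaT N b) := by
  refine ⟨?_, ?_, ?_, ?_⟩
  · intro n m
    rw [act_triv, act_iota, hjb]
    rfl
  · intro S hS a
    let T : AddSubgroup (ZG G) := S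
    have := zg_induction T (fun g => by
      obtain ⟨p, rfl⟩ := hb g
      have := hS p (show Triv N from (1 : ℤ))
      rw [act_iota] at this
      exact this) a
    exact this
  · intro γ
    refine ⟨{ toFun := fun x => (show Ext b from
                (MonoidAlgebra.single γ ((show ZG G from x).coeff γ : ℤ) : ZG G)),
              map_zero' := ?_, map_add' := ?_ }, ?_⟩
    · exact MonoidAlgebra.single_zero _
    · intro x y
      exact MonoidAlgebra.single_add _ _ _
    · intro p m
      rw [act_iota]
      refine ⟨fun h => ?_, fun h => ?_⟩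
      · change (MonoidAlgebra.single γ ((MonoidAlgebra.single (b p) (show ℤ from m) :
          ZG G).coeff γ : ℤ) : ZG G) = MonoidAlgebra.single (b p) (show ℤ from m)
        rw [MonoidAlgebra.coeff_single, h, Finsupp.single_eq_same]
      · change (MonoidAlgebra.single γ ((MonoidAlgebra.single (b p) (show ℤ from m) :
          ZG G).coeff γ : ℤ) : ZG G) = 0
        rw [MonoidAlgebra.coeff_single, Finsupp.single_eq_of_ne (Ne.symm h)]
        exact MonoidAlgebra.single_zero _
  · intro p m h
    rw [act_iota] at h
    have h1 : (MonoidAlgebra.single (b p) (show ℤ from m) : ZG G) = 0 := h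
    have h2 := congrArg (fun x : ZG G => x.coeff (b p)) h1
    simp only [MonoidAlgebra.coeff_single, Finsupp.single_eq_same] at h2
    exact h2

theorem ops_iota {Y : Type} (b : P →* G) (zy : Y → P) (y : Y) (m : Triv N) :
    ops b zy y (iotaT N b m) = act (zy y) (iotaT N b m) := by
  rw [act_iota]
  change (MonoidAlgebra.single 1 (show ℤ from m) : ZG G) * MonoidAlgebra.of ℤ G (b (zy y)) = _
  rw [MonoidAlgebra.of_apply, MonoidAlgebra.single_mul_single, mul_one, one_mul]

theorem aug_ops {Y : Type} (b : P →* G) (zy : Y → P) (y : Y) (x : Ext b) :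
    augE b (ops b zy y x) = augE b x := by
  change aug G ((show ZG G from x) * MonoidAlgebra.of ℤ G (b (zy y))) = aug G x
  rw [map_mul, aug_of, mul_one]

theorem augE_opmap {Y : Type} [Fintype Y] (b : P →* G) (zy : Y → P) (x : Y → Ext b) :
    augE b (opmap (ops b zy) x) = 0 := by
  rw [opmap_apply, map_sum]
  refine Finset.sum_eq_zero fun y _ => ?_
  rw [map_sub, aug_ops, sub_self]

/-- the augmentation ideal is generated by the `γ_y - 1` -/
theorem ker_augE {Y : Type} [Fintype Y] (b : P →* G) (hb : Surjective b) (zy : Y → P)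
    (hgen : Submonoid.closure (Set.range (fun y => b (zy y))) = ⊤) :
    LinearMap.ker (augE b) = LinearMap.range (opmap (ops b zy)) := by
  apply le_antisymm
  · let I : AddSubgroup (ZG G) := (LinearMap.range (opmap (ops b zy))).toAddSubgroup
    have hy : ∀ y, (MonoidAlgebra.of ℤ G (b (zy y)) - 1 : ZG G) ∈ I := by
      intro y
      classical
      refine ⟨Pi.single y (id (1 : ZG G) : Ext b), ?_⟩
      rw [opmap_apply, Finset.sum_eq_single y]
      · rw [Pi.single_eq_same]
        have h : (1 : ZG G) * MonoidAlgebra.of ℤ G (b (zy y)) - 1 =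
            MonoidAlgebra.of ℤ G (b (zy y)) - 1 := by rw [one_mul]
        exact h
      · intro z _ hz
        rw [Pi.single_eq_of_ne hz, map_zero, sub_zero]
      · intro h
        exact absurd (Finset.mem_univ y) h
    have hact : ∀ (g : G) (x : ZG G), x ∈ I → MonoidAlgebra.of ℤ G g * x ∈ I := by
      intro g x hx
      obtain ⟨p, rfl⟩ := hb g
      have h1 : (gr b (MonoidAlgebra.of ℤ P p) * x : ZG G) ∈ I :=
        act_mem (LinearMap.range (opmap (ops b zy))) p hx
      rwa [mapDomain_of] at h1
    have hall : ∀ g : G, (MonoidAlgebra.of ℤ G g - 1 : ZG G) ∈ I := by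
      intro g
      have hg : g ∈ Submonoid.closure (Set.range (fun y => b (zy y))) := by rw [hgen]; trivial
      induction hg using Submonoid.closure_induction with
      | mem x hx =>
        obtain ⟨y, rfl⟩ := hx
        exact hy y
      | one =>
        rw [map_one, sub_self]
        exact I.zero_mem
      | mul x y _ _ hx hy =>
        have h1 := hact x _ hy
        have h2 := I.add_mem h1 hx
        have h3 : (MonoidAlgebra.of ℤ G (x * y) - 1 : ZG G) =
          MonoidAlgebra.of ℤ G x * (MonoidAlgebra.of ℤ G y - 1) +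
            (MonoidAlgebra.of ℤ G x - 1) := by
          rw [mul_sub, ← map_mul, mul_one]
          abel
        rw [h3]
        exact h2
    -- every element is congruent to its augmentation
    have key : ∀ x : ZG G, x - (aug G x) • (1 : ZG G) ∈ I := by
      intro x
      let S : AddSubgroup (ZG G) :=
        { carrier := {x | x - (aug G x) • (1 : ZG G) ∈ I}
          add_mem' := by
            intro x y hx hy
            simp only [Set.mem_ofPred_eq] at hx hy ⊢
            have := I.add_mem hx hy
            have h3 : x + y - (aug G (x + y)) • (1 : ZG G) =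
              (x - (aug G x) • (1 : ZG G)) + (y - (aug G y) • (1 : ZG G)) := by
              rw [map_add, add_smul]
              abel
            rw [h3]
            exact this
          zero_mem' := by
            simp only [Set.mem_ofPred_eq, map_zero, zero_smul, sub_zero]
            exact I.zero_mem
          neg_mem' := by
            intro x hx
            simp only [Set.mem_ofPred_eq] at hx ⊢
            have := I.neg_mem hx
            have h3 : -x - (aug G (-x)) • (1 : ZG G) = -(x - (aug G x) • (1 : ZG G)) := by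
              rw [map_neg, neg_smul]
              abel
            rw [h3]
            exact this }
      refine zg_induction S (fun g => ?_) x
      change MonoidAlgebra.of ℤ G g -
        (aug G (MonoidAlgebra.of ℤ G g)) • (1 : ZG G) ∈ I
      rw [aug_of, one_smul]
      exact hall g
    intro x hx
    have h1 : aug G (id x : ZG G) = 0 := hx
    have h2 := key (id x : ZG G)
    rw [h1, zero_smul, sub_zero] at h2
    exact h2
  · rintro _ ⟨x, rfl⟩
    exact augE_opmap b zy x

end triv

section main

variable {R : Type} [Ring R]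

variable {G : Type} [Monoid G]

theorem gr_id (r : ZG G) : gr (MonoidHom.id G) r = r := by
  change MonoidAlgebra.mapDomainRingHom ℤ (MonoidHom.id G) r = r
  rw [MonoidAlgebra.mapDomainRingHom_id]
  rfl

/-- `ℤ[G]` over itself -/
noncomputable def extId : ZG G ≃ₗ[ZG G] Ext (MonoidHom.id G) where
  toFun := fun x => x
  map_add' := fun x y => rfl
  map_smul' := fun r x => by
    change r * x = gr (MonoidHom.id G) r * x
    rw [gr_id]
  invFun := fun x => x
  left_inv := fun x => rfl
  right_inv := fun x => rfl

variable {P : Type} [Monoid P]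

/-- comparison of the kernels of the augmentations over the two rings -/
noncomputable def kerAugEquiv (b : P →* G) :
    Res (gr b) (LinearMap.ker (augE (MonoidHom.id G))) ≃ₗ[ZG P] LinearMap.ker (augE b) where
  toFun := fun x => ⟨(x : LinearMap.ker (augE (MonoidHom.id G))).1,
    (x : LinearMap.ker (augE (MonoidHom.id G))).2⟩
  map_add' := fun x y => rfl
  map_smul' := fun r x => by
    apply Subtype.ext
    change gr (MonoidHom.id G) (gr b r) * _ = gr b r * _
    rw [gr_id]
  invFun := fun x => (⟨x.1, x.2⟩ : LinearMap.ker (augE (MonoidHom.id G)))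
  left_inv := fun x => rfl
  right_inv := fun x => rfl

theorem opmap_eq {Y : Type} [Fintype Y] (b : P →* G) (zy : Y → P) (x : Y → ZG G) :
    (id (opmap (ops b zy) x) : ZG G) =
      ∑ y, (x y * MonoidAlgebra.of ℤ G (b (zy y)) - x y) := by
  have h := opmap_apply (ops b zy) (id x : Y → Ext b)
  exact h

theorem mem_ker_opmap {Y : Type} [Fintype Y] (b : P →* G) (zy : Y → P) (x : Y → ZG G) :
    (id x : Y → Ext b) ∈ LinearMap.ker (opmap (ops b zy)) ↔
      ∑ y, (x y * MonoidAlgebra.of ℤ G (b (zy y)) - x y) = 0 := by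
  rw [← opmap_eq]
  exact Iff.rfl

/-- comparison of the kernels of the operator maps -/
noncomputable def kerOpEquiv {Y : Type} [Fintype Y] (b : P →* G) (zy : Y → P) :
    Res (gr b) (LinearMap.ker (opmap (ops (MonoidHom.id G) (fun y => b (zy y))))) ≃ₗ[ZG P]
      LinearMap.ker (opmap (ops b zy)) where
  toFun := fun x => ⟨(x : LinearMap.ker (opmap (ops (MonoidHom.id G) (fun y => b (zy y))))).1, by
    have h := (id x : LinearMap.ker (opmap (ops (MonoidHom.id G) (fun y => b (zy y))))).2
    exact (mem_ker_opmap b zy _).2 ((mem_ker_opmap (MonoidHom.id G) (fun y => b (zy y)) _).1 h)⟩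
  map_add' := fun x y => rfl
  map_smul' := fun r x => by
    apply Subtype.ext
    funext y
    change gr (MonoidHom.id G) (gr b r) * _ = gr b r * _
    rw [gr_id]
  invFun := fun x => (⟨x.1, by
    have h := x.2
    exact (mem_ker_opmap (MonoidHom.id G) (fun y => b (zy y)) _).2
      ((mem_ker_opmap b zy _).1 h)⟩ :
      LinearMap.ker (opmap (ops (MonoidHom.id G) (fun y => b (zy y)))))
  left_inv := fun x => rfl
  right_inv := fun x => rfl

theorem fps_ker_augE (b : P →* G) {n : ℕ} (hE : FPs (ZG P) n (Ext b))
    (hG : FPs (ZG G) (n + 1) (Triv G)) : FPs (ZG P) n (LinearMap.ker (augE b)) := by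
  have h1 : FPs (ZG G) n (LinearMap.ker (augE (MonoidHom.id G))) :=
    FPs.ker_of_cover (FGF.self.equiv extId) hG _ (augE_surj _)
  exact FPs.equiv (kerAugEquiv b) (FPs.res (gr b) hE n le_rfl h1)

theorem fps_ker_op {Y : Type} [Fintype Y] (b : P →* G) (zy : Y → P)
    (hgen : Submonoid.closure (Set.range (fun y => b (zy y))) = ⊤) {n : ℕ}
    (hE : FPs (ZG P) n (Ext b))
    (hG : FPs (ZG G) (n + 2) (Triv G)) : FPs (ZG P) n (LinearMap.ker (opmap (ops b zy))) := by
  have h1 : FPs (ZG G) (n + 1) (LinearMap.ker (augE (MonoidHom.id G))) :=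
    FPs.ker_of_cover (FGF.self.equiv extId) hG _ (augE_surj _)
  have h2 := ker_augE (MonoidHom.id G) surjective_id (fun y => b (zy y)) hgen
  let F : (Y → Ext (MonoidHom.id G)) →ₗ[ZG G] LinearMap.ker (augE (MonoidHom.id G)) :=
    (opmap (ops (MonoidHom.id G) (fun y => b (zy y)))).codRestrict _ (augE_opmap _ _)
  have hF : Surjective F := by
    rintro ⟨x, hx⟩
    rw [h2] at hx
    obtain ⟨z, rfl⟩ := hx
    exact ⟨z, rfl⟩
  have h3 : FPs (ZG G) n (LinearMap.ker F) :=
    FPs.ker_of_cover (FGF.self.equiv extId).pi h1 F hF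
  have h4 : LinearMap.ker F = LinearMap.ker (opmap (ops (MonoidHom.id G) (fun y => b (zy y)))) :=
    LinearMap.ker_codRestrict _ _ _
  rw [h4] at h3
  exact FPs.equiv (kerOpEquiv b zy) (FPs.res (gr b) hE n le_rfl h3)

/-- The homological theorem for monoids. -/
theorem main_mono {N P G Γ Q : Type} [Monoid N] [Monoid P] [Monoid G] [Monoid Γ] [Monoid Q]
    (j : N →* P) (π : P →* G) (b : P →* Γ) (c : G →* Q) (hπ : Surjective π) (hb : Surjective b)
    (hc : Surjective c)
    (hj : ∀ p, Injective fun n => p * j n) (hjG : ∀ g, Injective fun n => g * π (j n))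
    (hCb : Comp j b) (hCc : Comp (π.comp j) c)
    {Y : Type} [Fintype Y] (zy : Y → P)
    (hnorm : ∀ y n, ∃ n', j n * zy y = zy y * j n')
    (Y2 : Set Y) (hY2 : ∀ y ∈ Y2, π (zy y) = 1) (hcomm : ∀ y ∈ Y2, ∀ n, zy y * j n = j n * zy y)
    (hK : ∀ K : Set P, Closed zy Y2 K → ∀ p q, π p = π q → ∃ k ∈ K, p = q * k ∨ q = p * k)
    (hgc : Submonoid.closure (Set.range (fun y => c (π (zy y)))) = ⊤) (n : ℕ)
    (hN : FPs (ZG N) (n + 1) (Triv N)) (hG : FPs (ZG G) (n + 2) (Triv G))
    (hQ : FPs (ZG Q) (n + 3) (Triv Q)) (hΓ : FPs (ZG Γ) (n + 2) (Triv Γ)) :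
    FPs (ZG P) (n + 2) (Triv P) := by
  have hbj : ∀ n, b (j n) = 1 := by
    intro n
    have := hCb.1 1 n
    rwa [one_mul, map_one] at this
  have hcj : ∀ n, c ((π.comp j) n) = 1 := by
    intro n
    have := hCc.1 1 n
    rwa [one_mul, map_one] at this
  -- the modules
  have hEb : FPs (ZG P) (n + 1) (Ext b) :=
    FPs.ind hj hCb (n + 1) (isInd_triv j b hb hbj) hN
  have hEc : FPs (ZG G) (n + 1) (Ext c) :=
    FPs.ind (j := π.comp j) hjG hCc (n + 1) (isInd_triv (π.comp j) c hc hcj) hN
  have hSG : SFP (n + 1) (opmap (ops c (fun y => π (zy y)))) := by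
    refine SFP.of_coker _ (augE c) (augE_surj c) (ker_augE c hc _ hgc) ?_ hG
    exact fps_ker_op c _ hgc hEc hQ
  have hSP : SFP (n + 1) (opmap (ops b zy)) := by
    refine transfer hπ hj hjG hCb hCc zy hnorm Y2 hY2 hcomm hK (n + 1)
      (isInd_triv j b hb hbj) (isInd_triv (π.comp j) c hc hcj) (ops b zy)
      (ops c (fun y => π (zy y))) ?_ ?_ hN hSG
    · intro y m
      exact ⟨m, ops_iota b zy y m, ops_iota c (fun y => π (zy y)) y m⟩
    · intro y hy m
      refine ⟨ops_iota b zy y m, ?_⟩
      rw [ops_iota, hY2 y hy, act_one]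
  exact SFP.quot _ (augE b) (augE_surj b) (augE_opmap b zy) hSP (fps_ker_augE b hEb hΓ)
    (FPs.pi hEb)

/-- for groups the two notions agree -/
theorem fps_group_iff {G : Type} [Group G] (n : ℕ) :
    Pool.Agent.W386.FPs (Pool.Agent.W386.ZG G) n (Pool.Agent.W386.Triv G) ↔
      Pool.Agent.W386.FPs (ZG G) n (Triv G) := Iff.rfl

end main

end Pool.Agent.W386.M
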