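import Pool.Agent.W386.M.Words

set_option autoImplicit false

/-!
# Pushing paths of a normal subgroup across other paths
-/

namespace Pool.Agent.W386.M

open Function

variable {G : Type} [Group G] {χ : G →* Multiplicative ℝ}

/-- the letters `A` generate a normal subgroup in a height-controlled way -/
structure Good (χ : G →* Multiplicative ℝ) (S : Set G) (ℓ : ℕ) (A : Set G) : Prop where
  sub : A ⊆ S
  symS : ∀ s ∈ S, s⁻¹ ∈ S
  symA : ∀ s ∈ A, s⁻¹ ∈ A
  two : 2 ≤ ℓ
  conj : ∀ a ∈ A, ∀ y ∈ S, ∃ v : List G, (∀ x ∈ v, x ∈ A) ∧ v.prod = y⁻¹ * a * y ∧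
    Above χ (min 0 (ht χ a)) 1 v ∧ v.length + 1 ≤ ℓ

variable {S A : Set G} {ℓ : ℕ}

theorem mem_single {y : G} (hy : y ∈ S) : ∀ x ∈ [y], x ∈ S := by
  intro x hx
  rw [List.mem_singleton] at hx
  rw [hx]
  exact hy

theorem mem_cons {y : G} {w : List G} (hy : y ∈ S) (hw : ∀ x ∈ w, x ∈ S) :
    ∀ x ∈ y :: w, x ∈ S := by
  intro x hx
  rcases List.mem_cons.1 hx with rfl | hx
  · exact hy
  · exact hw x hx

theorem Good.push1 (h : Good χ S ℓ A) {y : G} (hy : y ∈ S) (u : List G) :
    (∀ x ∈ u, x ∈ A) → ∃ u' : List G, (∀ x ∈ u', x ∈ A) ∧ u'.prod = y⁻¹ * u.prod * y ∧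
      (∀ c g g', ht χ g = ht χ g' → Above χ c g u → Above χ c g' u') ∧
      (∀ c g, Above χ c g u → Htp χ S ℓ (c + min 0 (ht χ y)) g (u ++ [y]) ([y] ++ u')) := by
  induction u with
  | nil =>
    intro _
    refine ⟨[], by simp, by simp, ?_, ?_⟩
    · intro c g g' hg ha
      rw [above_nil] at ha ⊢
      rwa [← hg]
    · intro c g _
      exact Htp.refl _
  | cons a u ih =>
    intro hu
    have haA : a ∈ A := hu a (by simp)
    have huA : ∀ x ∈ u, x ∈ A := fun x hx => hu x (by simp [hx])
    obtain ⟨u', hu'A, hu'p, hu'r, hu'h⟩ := ih huA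
    obtain ⟨v, hvA, hvp, hva, hvl⟩ := h.conj a haA y hy
    have hht : ht χ v.prod = ht χ a := by
      rw [hvp, ht_mul, ht_mul, ht_inv]; ring
    refine ⟨v ++ u', mem_append hvA hu'A, ?_, ?_, ?_⟩
    · rw [List.prod_append, hvp, hu'p, List.prod_cons]; group
    · intro c g g' hg ha
      rw [above_append]
      have h1 := ha.1
      have h2 := ha.2.head
      rw [ht_mul] at h2
      refine ⟨hva.change ?_, hu'r c (g * a) _ ?_ ha.2⟩
      · rw [ht_one]
        have : c - ht χ g' ≤ min 0 (ht χ a) := by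
          rw [← hg]
          exact le_min (by linarith) (by linarith)
        linarith
      · rw [ht_mul, ht_mul, hg, hht]
    · intro c g ha
      have h1 := ha.1
      have h2 := ha.2.head
      have h2' : c ≤ ht χ g + ht χ a := by rw [← ht_mul]; exact h2
      have hm1 : min 0 (ht χ y) ≤ 0 := min_le_left _ _
      have hm2 : min 0 (ht χ y) ≤ ht χ y := min_le_right _ _
      have e1 : Htp χ S ℓ (c + min 0 (ht χ y)) g ([a] ++ (u ++ [y])) ([a] ++ ([y] ++ u')) := by
        refine Htp.append_left (mem_single (h.sub haA)) ?_ ?_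
        · refine ⟨by linarith, ?_⟩
          rw [above_nil]
          linarith
        · rw [List.prod_singleton]
          exact hu'h c (g * a) ha.2
      have e2 : Htp χ S ℓ (c + min 0 (ht χ y)) g [a, y] ([y] ++ v) := by
        refine Htp.base (mem_cons (h.sub haA) (mem_single hy))
          (mem_append (mem_single hy) (fun x hx => h.sub (hvA x hx)))
          (by simpa using h.two) (by simpa [add_comm] using hvl) ?_ ?_ ?_
        · simp only [List.prod_cons, List.prod_nil, mul_one, List.prod_append, hvp]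
          group
        · refine ⟨by linarith, by rw [ht_mul]; linarith, ?_⟩
          rw [above_nil, ht_mul, ht_mul]
          linarith
        · rw [above_append]
          refine ⟨⟨by linarith, ?_⟩, ?_⟩
          · rw [above_nil, ht_mul]
            linarith
          · rw [List.prod_singleton]
            refine hva.change ?_
            rw [ht_one, ht_mul]
            have : c + min 0 (ht χ y) - (ht χ g + ht χ y) ≤ min 0 (ht χ a) :=
              le_min (by linarith) (by linarith)
            linarith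
      have e3 := e2.append_right (u := u') (fun x hx => h.sub (hu'A x hx)) (by
        have h3 := hu'r c (g * a) (g * a) rfl ha.2
        refine h3.change ?_
        simp only [List.prod_cons, List.prod_nil, mul_one]
        rw [ht_mul, ht_mul, ht_mul]
        linarith)
      have e4 : a :: u ++ [y] = [a] ++ (u ++ [y]) := by simp
      have e5 : [a] ++ ([y] ++ u') = [a, y] ++ u' := by simp
      have e6 : [y] ++ (v ++ u') = [y] ++ v ++ u' := by simp
      rw [e4, e6]
      rw [e5] at e1
      exact e1.trans e3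

theorem Good.push (h : Good χ S ℓ A) (w : List G) : ∀ u : List G, (∀ x ∈ w, x ∈ S) →
    (∀ x ∈ u, x ∈ A) → ∃ u' : List G, (∀ x ∈ u', x ∈ A) ∧ u'.prod = w.prod⁻¹ * u.prod * w.prod ∧
      (∀ c g g', ht χ g = ht χ g' → Above χ c g u → Above χ c g' u') ∧
      (∀ c μ g, Above χ c g w → Above χ (-μ) 1 u → Htp χ S ℓ (c - μ) g (u ++ w) (w ++ u')) := by
  induction w with
  | nil =>
    intro u _ hu
    refine ⟨u, hu, by simp, fun c g g' hg ha => ha.change (by rw [hg]), ?_⟩
    intro c μ g _ _
    simp only [List.append_nil, List.nil_append]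
    exact Htp.refl _
  | cons y w ih =>
    intro u hw hu
    have hy : y ∈ S := hw y (by simp)
    have hw' : ∀ x ∈ w, x ∈ S := fun x hx => hw x (by simp [hx])
    obtain ⟨u1, hu1A, hu1p, hu1r, hu1h⟩ := h.push1 hy u hu
    obtain ⟨u2, hu2A, hu2p, hu2r, hu2h⟩ := ih u1 hw' hu1A
    refine ⟨u2, hu2A, ?_, ?_, ?_⟩
    · rw [hu2p, hu1p, List.prod_cons]; group
    · intro c g g' hg ha
      exact hu2r c g g' hg (hu1r c g g rfl ha)
    · intro c μ g ha hμ
      have h0 : -μ ≤ 0 := by
        have := hμ.head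
        rwa [ht_one] at this
      have h1 := ha.1
      have h2 := ha.2.head
      rw [ht_mul] at h2
      have ea : Above χ (ht χ g - μ) g u := hμ.change (by rw [ht_one]; linarith)
      have e1 := hu1h _ _ ea
      have hle : c - μ ≤ ht χ g - μ + min 0 (ht χ y) := by
        rcases min_choice 0 (ht χ y) with h3 | h3 <;> rw [h3] <;> linarith
      have e2 := (e1.lower hle).append_right (u := w) hw' (by
        rw [List.prod_append, List.prod_singleton]
        refine ha.2.change ?_
        have h4 := hμ.last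
        rw [one_mul] at h4
        rw [ht_mul, ht_mul, ht_mul]
        linarith)
      have e3 : Htp χ S ℓ (c - μ) g ([y] ++ (u1 ++ w)) ([y] ++ (w ++ u2)) := by
        refine Htp.append_left (mem_single hy) ?_ ?_
        · refine ⟨by linarith, ?_⟩
          rw [above_nil, ht_mul]
          linarith
        · rw [List.prod_singleton]
          exact hu2h c μ (g * y) ha.2 (hu1r _ _ _ rfl hμ)
      have e4 : u ++ y :: w = u ++ [y] ++ w := by simp
      have e5 : y :: w ++ u2 = [y] ++ (w ++ u2) := by simp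
      have e6 : [y] ++ u1 ++ w = [y] ++ (u1 ++ w) := by simp
      rw [e4, e5]
      rw [e6] at e2
      exact e2.trans e3

/-- commuting a letter past a path -/
theorem comm1 (hℓ : 2 ≤ ℓ) {t : G} (ht' : t ∈ S) (u : List G) : ∀ {c : ℝ} {g : G},
    (∀ x ∈ u, x ∈ S) → (∀ x ∈ u, x * t = t * x) → Above χ c g u →
    Htp χ S ℓ (c + min 0 (ht χ t)) g (u ++ [t]) ([t] ++ u) := by
  induction u with
  | nil => intro c g _ _ _; exact Htp.refl _
  | cons a u ih =>
    intro c g hu hc ha
    have haS : a ∈ S := hu a (by simp)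
    have huS : ∀ x ∈ u, x ∈ S := fun x hx => hu x (by simp [hx])
    have h1 := ha.1
    have h2 := ha.2.head
    have hm1 : min 0 (ht χ t) ≤ 0 := min_le_left _ _
    have hm2 : min 0 (ht χ t) ≤ ht χ t := min_le_right _ _
    have e1 : Htp χ S ℓ (c + min 0 (ht χ t)) g ([a] ++ (u ++ [t])) ([a] ++ ([t] ++ u)) := by
      refine Htp.append_left (mem_single haS) ?_ ?_
      · refine ⟨by linarith, ?_⟩
        rw [above_nil]
        linarith
      · rw [List.prod_singleton]
        exact ih huS (fun x hx => hc x (by simp [hx])) ha.2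
    have e2 : Htp χ S ℓ (c + min 0 (ht χ t)) g [a, t] [t, a] := by
      refine Htp.base (mem_cons haS (mem_single ht')) (mem_cons ht' (mem_single haS))
        (by simpa using hℓ) (by simpa using hℓ) ?_ ?_ ?_
      · simpa using hc a (by simp)
      · refine ⟨by linarith, by linarith, ?_⟩
        rw [above_nil, ht_mul]
        linarith
      · refine ⟨by linarith, by rw [ht_mul]; linarith, ?_⟩
        rw [above_nil, ht_mul, ht_mul]
        rw [ht_mul] at h2
        linarith
    have e3 := e2.append_right (u := u) huS (by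
      refine ha.2.change ?_
      simp only [List.prod_cons, List.prod_nil, mul_one]
      rw [ht_mul, ht_mul, ht_mul]
      linarith)
    have e4 : a :: u ++ [t] = [a] ++ (u ++ [t]) := by simp
    have e5 : [a] ++ ([t] ++ u) = [a, t] ++ u := by simp
    have e6 : [t] ++ (a :: u) = [t, a] ++ u := by simp
    rw [e4, e6]
    rw [e5] at e1
    exact e1.trans e3

theorem mem_replicate {n : ℕ} {t : G} (h : t ∈ S) : ∀ x ∈ List.replicate n t, x ∈ S := by
  intro x hx
  rw [(List.mem_replicate.1 hx).2]
  exact h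

theorem ht_replicate (n : ℕ) (t : G) : ht χ (List.replicate n t).prod = n * ht χ t := by
  rw [List.prod_replicate, ht_pow]

theorem above_replicate (n : ℕ) {t : G} (h : 0 ≤ ht χ t) : ∀ {c : ℝ} {g : G}, c ≤ ht χ g →
    Above χ c g (List.replicate n t) := by
  induction n with
  | zero => intro c g hc; exact hc
  | succ n ih =>
    intro c g hc
    rw [List.replicate_succ]
    exact ⟨hc, ih (by rw [ht_mul]; linarith)⟩

/-- commuting a power past a path -/
theorem commPow (hℓ : 2 ≤ ℓ) {t : G} (ht' : t ∈ S) (h0 : 0 ≤ ht χ t) (n : ℕ) :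
    ∀ {c : ℝ} {g : G} {u : List G},
    (∀ x ∈ u, x ∈ S) → (∀ x ∈ u, x * t = t * x) → Above χ c g u →
    Htp χ S ℓ c g (u ++ List.replicate n t) (List.replicate n t ++ u) := by
  induction n with
  | zero => intro c g u _ _ _; simpa using Htp.refl _
  | succ n ih =>
    intro c g u hu hc ha
    rw [List.replicate_succ]
    have e1 := comm1 hℓ ht' u hu hc ha
    rw [min_eq_left h0, add_zero] at e1
    have e2 := e1.append_right (u := List.replicate n t) (mem_replicate ht') (by
      refine above_replicate n h0 ?_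
      rw [List.prod_append, List.prod_singleton, ← mul_assoc, ht_mul]
      have := ha.last
      linarith)
    have e3 : Htp χ S ℓ c g ([t] ++ (u ++ List.replicate n t))
        ([t] ++ (List.replicate n t ++ u)) := by
      refine Htp.append_left (mem_single ht') ?_ ?_
      · refine ⟨ha.head, ?_⟩
        rw [above_nil, ht_mul]
        have := ha.head
        linarith
      · rw [List.prod_singleton]
        refine ih hu hc (ha.change ?_)
        rw [ht_mul]
        linarith
    have e4 : u ++ t :: List.replicate n t = u ++ [t] ++ List.replicate n t := by simp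
    have e5 : t :: List.replicate n t ++ u = [t] ++ (List.replicate n t ++ u) := by simp
    have e6 : [t] ++ u ++ List.replicate n t = [t] ++ (u ++ List.replicate n t) := by simp
    rw [e4, e5]
    rw [e6] at e2
    exact e2.trans e3

/-- choosing a high power -/
theorem exists_high {n0 : G} (hn0 : 0 < ht χ n0) (c : ℝ) :
    ∃ k : ℕ, c ≤ ht χ (List.replicate k n0).prod := by
  obtain ⟨k, hk⟩ := Archimedean.arch c hn0
  refine ⟨k, ?_⟩
  rw [ht_replicate]
  rwa [nsmul_eq_mul] at hk

/-- raising a path: existence of a high path in the group -/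
theorem Good.high_path (h : Good χ S ℓ A) {n0 : G} (hn0 : n0 ∈ A) (hn : 0 < ht χ n0)
    {w : List G} (hw : ∀ x ∈ w, x ∈ S) (hg : 0 ≤ ht χ w.prod) :
    ∃ w' : List G, (∀ x ∈ w', x ∈ S) ∧ w'.prod = w.prod ∧ Above χ 0 1 w' := by
  obtain ⟨c, hc⟩ := exists_above χ w 1
  obtain ⟨k, hk⟩ := exists_high hn (-c)
  obtain ⟨u', hu'A, hu'p, hu'r, -⟩ := h.push w (List.replicate k n0) hw (mem_replicate hn0)
  refine ⟨List.replicate k n0 ++ w ++ invw u', ?_, ?_, ?_⟩
  · exact mem_append (mem_append (fun x hx => h.sub (mem_replicate hn0 x hx)) hw)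
      (mem_invw h.symS (fun x hx => h.sub (hu'A x hx)))
  · rw [List.prod_append, List.prod_append, invw_prod, hu'p]
    group
  · rw [above_append, above_append]
    refine ⟨⟨above_replicate k hn.le (by rw [ht_one]), ?_⟩, ?_⟩
    · refine hc.change ?_
      rw [ht_one, one_mul]
      linarith
    · have h1 : Above χ 0 1 (List.replicate k n0) := above_replicate k hn.le (by rw [ht_one])
      have h2 := hu'r 0 1 1 rfl h1
      have h3 : Above χ 0 w.prod u' := h2.change (by rw [ht_one]; linarith)
      refine h3.inv' ?_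
      rw [hu'p, List.prod_append]
      group

/-- a loop is homotopic to a loop with letters in `A` -/
theorem Good.to_A (h : Good χ S ℓ A) {n0 : G} (hn0 : n0 ∈ A) (hn : 0 < ht χ n0)
    {w : List G} (hw : ∀ x ∈ w, x ∈ S) (hp : w.prod = 1) {c : ℝ} (ha : Above χ c 1 w)
    (hfp : ∃ c', Htp χ S ℓ c' 1 w []) :
    ∃ u : List G, (∀ x ∈ u, x ∈ A) ∧ u.prod = 1 ∧ Above χ 0 1 u ∧ Htp χ S ℓ c 1 w u := by
  obtain ⟨c', hc'⟩ := hfp
  have hc0 : c ≤ 0 := by
    have := ha.head
    rwa [ht_one] at this
  obtain ⟨k, hk⟩ := exists_high hn (c - c')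
  let U := List.replicate k n0
  have hUA : ∀ x ∈ U, x ∈ A := mem_replicate hn0
  have hUS : ∀ x ∈ U, x ∈ S := fun x hx => h.sub (hUA x hx)
  have hU0 : Above χ 0 1 U := above_replicate k hn.le (by rw [ht_one])
  obtain ⟨u', hu'A, hu'p, hu'r, hu'h⟩ := h.push w U hw hUA
  rw [hp] at hu'p
  have hu'S : ∀ x ∈ u', x ∈ S := fun x hx => h.sub (hu'A x hx)
  have hu'0 : Above χ 0 1 u' := hu'r 0 1 1 rfl hU0
  have hu'p' : u'.prod = U.prod := by rw [hu'p]; group
  have hinv : Above χ 0 U.prod (invw u') := by
    refine hu'0.inv' ?_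
    rw [hu'p', mul_inv_cancel]
  -- `w ≃ w u' u'⁻¹`
  have e1 : Htp χ S ℓ c 1 w (w ++ u' ++ invw u') := by
    have := Htp.insMid (χ := χ) (S := S) (ℓ := ℓ) (c := c) (g := 1) h.symS h.two hw
      (q := []) (by simp) hu'S ha (by rw [hp, mul_one, above_nil, ht_one]; exact hc0) (by
        rw [hp, mul_one]
        exact hu'0.mono hc0)
    simpa using this
  have e2 : Htp χ S ℓ c 1 (U ++ w) (w ++ u') := by
    have := hu'h c 0 1 ha (by simpa using hU0)
    simpa using this
  have e3 := e2.symm.append_right (u := invw u') (mem_invw h.symS hu'S) (by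
    rw [one_mul, List.prod_append, hp, one_mul, hu'p']
    exact hinv.mono hc0)
  have e4 : Htp χ S ℓ c (1 * U.prod) w [] := by
    refine hc'.change ?_
    rw [ht_one, one_mul]
    linarith
  have e5 : Htp χ S ℓ c 1 (U ++ w ++ invw u') (U ++ [] ++ invw u') := by
    refine Htp.mid hUS (mem_invw h.symS hu'S) (hU0.mono hc0) ?_ e4
    rw [hp, mul_one, one_mul]
    exact hinv.mono hc0
  refine ⟨U ++ invw u', mem_append hUA (mem_invw h.symA hu'A), ?_, ?_, ?_⟩
  · rw [List.prod_append, invw_prod, hu'p', mul_inv_cancel]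
  · rw [above_append, one_mul]
    exact ⟨hU0, hinv⟩
  · have := (e1.trans e3).trans e5
    simpa using this

/-- loops with letters commuting with a letter of positive height are null-homotopic -/
theorem null_of_comm (hℓ : 2 ≤ ℓ) (symS : ∀ s ∈ S, s⁻¹ ∈ S) {t : G} (htS : t ∈ S)
    (ht0 : 0 < ht χ t) {u : List G} (hu : ∀ x ∈ u, x ∈ S) (hc : ∀ x ∈ u, x * t = t * x)
    (hp : u.prod = 1) (ha : Above χ 0 1 u) (hfp : ∃ c', Htp χ S ℓ c' 1 u []) :
    Htp χ S ℓ 0 1 u [] := by
  obtain ⟨c', hc'⟩ := hfp
  obtain ⟨k, hk⟩ := exists_high ht0 (-c')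
  let T := List.replicate k t
  have hTS : ∀ x ∈ T, x ∈ S := mem_replicate htS
  have hT0 : Above χ 0 1 T := above_replicate k ht0.le (by rw [ht_one])
  have hTi : Above χ 0 T.prod (invw T) := hT0.inv' (by rw [mul_inv_cancel])
  have e1 : Htp χ S ℓ 0 1 u (u ++ T ++ invw T) := by
    have := Htp.insMid (χ := χ) (S := S) (ℓ := ℓ) (c := 0) (g := 1) symS hℓ hu
      (q := []) (by simp) hTS ha (by rw [hp, mul_one, above_nil, ht_one]) (by
        rw [hp, mul_one]
        exact hT0)
    simpa using this
  have e2 : Htp χ S ℓ 0 1 (u ++ T) (T ++ u) := commPow hℓ htS ht0.le k hu hc ha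
  have e3 := e2.append_right (u := invw T) (mem_invw symS hTS) (by
    rw [one_mul, List.prod_append, hp, one_mul]
    exact hTi)
  have e4 : Htp χ S ℓ 0 (1 * T.prod) u [] := by
    refine hc'.change ?_
    rw [ht_one, one_mul]
    linarith
  have e5 : Htp χ S ℓ 0 1 (T ++ u ++ invw T) (T ++ [] ++ invw T) := by
    refine Htp.mid hTS (mem_invw symS hTS) hT0 ?_ e4
    rw [hp, mul_one, one_mul]
    exact hTi
  have e6 : Htp χ S ℓ 0 1 [] (T ++ invw T) := Htp.ins symS hℓ T hTS hT0
  have e7 := (e1.trans e3).trans e5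
  rw [List.append_nil] at e7
  exact e7.trans e6.symm

end Pool.Agent.W386.M
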