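import Pool.Agent.W386.M.FPW

set_option autoImplicit false

/-!
# From the homological to the geometric first Sigma invariant
-/

namespace Pool.Agent.W386.M

open Function

variable {G : Type} [Group G] {χ : G →* Multiplicative ℝ}

theorem filt_eq_self {P : Type} [Monoid P] (b : P → Prop) (y : ZG P)
    (h : ∀ q ∈ y.coeff.support, b q = True) : filt b True y = y := by
  classical
  ext q
  simp only [filt, AddMonoidHom.coe_mk, ZeroHom.coe_mk, MonoidAlgebra.coeff_ofCoeff]
  rw [Finsupp.filter_apply]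
  split_ifs with hq
  · rfl
  · by_contra h1
    exact hq (h q (Finsupp.mem_support_iff.2 fun h2 => h1 h2.symm))

theorem filt_eq_zero {P : Type} [Monoid P] (b : P → Prop) (y : ZG P)
    (h : ∀ q ∈ y.coeff.support, b q ≠ True) : filt b True y = 0 := by
  classical
  ext q
  simp only [filt, AddMonoidHom.coe_mk, ZeroHom.coe_mk, MonoidAlgebra.coeff_ofCoeff]
  rw [Finsupp.filter_apply, MonoidAlgebra.coeff_zero, Finsupp.zero_apply]
  split_ifs with hq
  · by_contra h1
    exact h q (Finsupp.mem_support_iff.2 h1) hq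
  · rfl

theorem sig1_of_sigZ (h : SigZ 1 χ) : ∃ A : Set G, A.Finite ∧ (∀ s ∈ A, s⁻¹ ∈ A) ∧
    ∀ g, 0 ≤ ht χ g → ∃ w : List G, (∀ x ∈ w, x ∈ A) ∧ w.prod = g ∧ Above χ 0 1 w := by
  classical
  obtain ⟨k, f, hf, -⟩ : Pool.Agent.W386.FPs (ZG (Pos χ)) 1
      (LinearMap.ker (augE (MonoidHom.id (Pos χ)))) :=
    FPs.ker_of_cover (FGF.self.equiv extId) h _ (augE_surj _)
  let e : Fin k → ZG (Pos χ) := fun i =>
    (id ((f (Pi.single i 1) : LinearMap.ker (augE (MonoidHom.id (Pos χ)))) :
      Ext (MonoidHom.id (Pos χ))) : ZG (Pos χ))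
  have he0 : ∀ i, aug (Pos χ) (e i) = 0 := fun i => (f (Pi.single i 1)).2
  let X : Finset (Pos χ) := Finset.univ.biUnion fun i => (e i).coeff.support
  let A : Set G := (fun z : Pos χ × Pos χ => (z.1 : G)⁻¹ * (z.2 : G)) '' ((X : Set (Pos χ)) ×ˢ X)
  have hAf : A.Finite := (X.finite_toSet.prod X.finite_toSet).image _
  have hAs : ∀ s ∈ A, s⁻¹ ∈ A := by
    rintro _ ⟨⟨x, y⟩, ⟨hx, hy⟩, rfl⟩
    exact ⟨⟨y, x⟩, ⟨hy, hx⟩, by simp⟩
  let b : Pos χ → Prop := fun g => ∃ w : List G, (∀ x ∈ w, x ∈ A) ∧ w.prod = (g : G) ∧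
    Above χ 0 1 w
  have hb : ∀ (p : Pos χ) (x y : Pos χ), x ∈ X → y ∈ X → b (p * x) → b (p * y) := by
    rintro p x y hx hy ⟨w, hw1, hw2, hw3⟩
    refine ⟨w ++ [(x : G)⁻¹ * y], mem_append hw1 (mem_single ⟨⟨x, y⟩, ⟨hx, hy⟩, rfl⟩), ?_, ?_⟩
    · rw [List.prod_append, hw2, List.prod_singleton]
      change (p : G) * x * ((x : G)⁻¹ * y) = p * y
      group
    · rw [above_append, one_mul, hw2]
      refine ⟨hw3, (p * x).2, ?_⟩
      rw [above_nil]
      have : ((p * x : Pos χ) : G) * ((x : G)⁻¹ * y) = ((p * y : Pos χ) : G) := by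
        change (p : G) * x * ((x : G)⁻¹ * y) = p * y
        group
      rw [this]
      exact (p * y).2
  have hact : ∀ (p : Pos χ) (i : Fin k),
      aug (Pos χ) (filt b True (MonoidAlgebra.of ℤ (Pos χ) p * e i)) = 0 := by
    intro p i
    have hsupp : ∀ q ∈ (MonoidAlgebra.of ℤ (Pos χ) p * e i).coeff.support,
        ∃ x ∈ (e i).coeff.support, p * x = q := by
      intro q hq
      have := MonoidAlgebra.support_coeff_single_mul_subset (e i) (1 : ℤ) p hq
      exact Finset.mem_image.1 this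
    have hX : ∀ x ∈ (e i).coeff.support, x ∈ X := fun x hx =>
      Finset.mem_biUnion.2 ⟨i, Finset.mem_univ i, hx⟩
    by_cases hex : ∃ x ∈ (e i).coeff.support, b (p * x)
    · obtain ⟨x, hx, hbx⟩ := hex
      rw [filt_eq_self, map_mul, he0, mul_zero]
      intro q hq
      obtain ⟨y, hy, rfl⟩ := hsupp q hq
      exact eq_true (hb p x y (hX x hx) (hX y hy) hbx)
    · rw [filt_eq_zero, map_zero]
      intro q hq hbq
      obtain ⟨y, hy, rfl⟩ := hsupp q hq
      exact hex ⟨y, hy, of_eq_true hbq⟩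
  have hall : ∀ y : LinearMap.ker (augE (MonoidHom.id (Pos χ))),
      aug (Pos χ) (filt b True (id (y : Ext (MonoidHom.id (Pos χ))) : ZG (Pos χ))) = 0 := by
    intro y
    obtain ⟨v, rfl⟩ := hf y
    let T : AddSubgroup (Fin k → ZG (Pos χ)) :=
      { carrier := {v | aug (Pos χ) (filt b True
          (id ((f v : LinearMap.ker (augE (MonoidHom.id (Pos χ)))) :
            Ext (MonoidHom.id (Pos χ))) : ZG (Pos χ))) = 0}
        add_mem' := by
          intro x z hx hz
          simp only [Set.mem_ofPred_eq] at hx hz ⊢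
          have h1 : (id ((f (x + z) : LinearMap.ker (augE (MonoidHom.id (Pos χ)))) :
              Ext (MonoidHom.id (Pos χ))) : ZG (Pos χ)) =
              (id ((f x : LinearMap.ker (augE (MonoidHom.id (Pos χ)))) :
              Ext (MonoidHom.id (Pos χ))) : ZG (Pos χ)) +
              (id ((f z : LinearMap.ker (augE (MonoidHom.id (Pos χ)))) :
              Ext (MonoidHom.id (Pos χ))) : ZG (Pos χ)) := by
            rw [map_add]; rfl
          rw [h1, map_add, map_add, hx, hz, add_zero]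
        zero_mem' := by
          simp only [Set.mem_ofPred_eq]
          have h1 : (id ((f 0 : LinearMap.ker (augE (MonoidHom.id (Pos χ)))) :
              Ext (MonoidHom.id (Pos χ))) : ZG (Pos χ)) = 0 := by
            rw [map_zero]; rfl
          rw [h1, map_zero, map_zero]
        neg_mem' := by
          intro x hx
          simp only [Set.mem_ofPred_eq] at hx ⊢
          have h1 : (id ((f (-x) : LinearMap.ker (augE (MonoidHom.id (Pos χ)))) :
              Ext (MonoidHom.id (Pos χ))) : ZG (Pos χ)) =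
              -(id ((f x : LinearMap.ker (augE (MonoidHom.id (Pos χ)))) :
              Ext (MonoidHom.id (Pos χ))) : ZG (Pos χ)) := by
            rw [map_neg]; rfl
          rw [h1, map_neg, map_neg, hx, neg_zero] }
    refine free_induction T ?_ v
    intro p s
    change aug (Pos χ) (filt b True (id ((f (act p (Pi.single s 1)) :
      LinearMap.ker (augE (MonoidHom.id (Pos χ)))) : Ext (MonoidHom.id (Pos χ))) :
        ZG (Pos χ))) = 0
    rw [map_act]
    have h1 : (id ((act p (f (Pi.single s 1)) : LinearMap.ker (augE (MonoidHom.id (Pos χ)))) :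
        Ext (MonoidHom.id (Pos χ))) : ZG (Pos χ)) =
        MonoidAlgebra.of ℤ (Pos χ) p * e s := by
      change gr (MonoidHom.id (Pos χ)) (MonoidAlgebra.of ℤ (Pos χ) p) * e s = _
      rw [gr_id]
    rw [h1]
    exact hact p s
  refine ⟨A, hAf, hAs, ?_⟩
  intro g hg
  by_contra hcon
  let p : Pos χ := ⟨g, hg⟩
  have hbp : b p ≠ True := fun h => hcon (of_eq_true h)
  have hb1 : b 1 = True := eq_true ⟨[], by simp, by simp, by rw [above_nil, ht_one]⟩
  have hk : augE (MonoidHom.id (Pos χ))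
      (id (MonoidAlgebra.of ℤ (Pos χ) p - MonoidAlgebra.of ℤ (Pos χ) 1 : ZG (Pos χ)) :
        Ext (MonoidHom.id (Pos χ))) = 0 := by
    change aug (Pos χ) (MonoidAlgebra.of ℤ (Pos χ) p - MonoidAlgebra.of ℤ (Pos χ) 1) = 0
    rw [map_sub, aug_of, aug_of, sub_self]
  have := hall ⟨_, hk⟩
  change aug (Pos χ) (filt b True
    (MonoidAlgebra.of ℤ (Pos χ) p - MonoidAlgebra.of ℤ (Pos χ) 1)) = 0 at this
  rw [map_sub, filt_of_ne b True p hbp, filt_of b True 1 hb1, zero_sub, map_neg, aug_of] at this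
  norm_num at this

end Pool.Agent.W386.M
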