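import Pool.Agent.W386.M.Sig1

set_option autoImplicit false

/-!
# The homotopical second Sigma invariant
-/

namespace Pool.Agent.W386.M

open Function

/-- `[χ] ∈ Σ²(G)` (homotopical): for a finite symmetric set `S` of generators and the Cayley
2-complex with 2-cells attached along the closed edge paths of bounded length, the filtration by
the subcomplexes of height at least `t` is essentially 1-connected. -/
def Sig2 {G : Type} [Group G] (χ : G →* Multiplicative ℝ) : Prop :=
  ∃ (S : Set G) (ℓ : ℕ) (d : ℝ), S.Finite ∧ (∀ s ∈ S, s⁻¹ ∈ S) ∧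
    (∀ g : G, 0 ≤ ht χ g → ∃ w : List G, (∀ x ∈ w, x ∈ S) ∧ w.prod = g ∧ Above χ (-d) 1 w) ∧
    ∀ w : List G, (∀ x ∈ w, x ∈ S) → w.prod = 1 → Above χ 0 1 w → Htp χ S ℓ (-d) 1 w []

section tools

variable {G : Type} [Group G] {χ : G →* Multiplicative ℝ}

omit [Group G] in
theorem words_finite {S : Set G} (hS : S.Finite) (n : ℕ) :
    {w : List G | (∀ x ∈ w, x ∈ S) ∧ w.length ≤ n}.Finite := by
  have := hS.to_subtype
  have h1 : {l : List S | l.length ≤ n}.Finite := List.finite_length_le S n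
  refine (h1.image (List.map Subtype.val)).subset ?_
  rintro w ⟨hw, hl⟩
  refine ⟨w.attach.map (fun x => ⟨x.1, hw x.1 x.2⟩), ?_, ?_⟩
  · simpa using hl
  · simp

theorem good_of {N : Subgroup G} (hN : N.Normal) {A : Set G} (hAf : A.Finite)
    (hAN : ∀ a ∈ A, a ∈ N) (hAs : ∀ s ∈ A, s⁻¹ ∈ A)
    (hA : ∀ n ∈ N, 0 ≤ ht χ n → ∃ w : List G, (∀ x ∈ w, x ∈ A) ∧ w.prod = n ∧ Above χ 0 1 w)
    {S : Set G} (hSf : S.Finite) (hSs : ∀ s ∈ S, s⁻¹ ∈ S) (hAS : A ⊆ S) :
    ∃ ℓ1 : ℕ, ∀ ℓ, ℓ1 ≤ ℓ → Good χ S ℓ A := by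
  have hA' : ∀ n ∈ N, ∃ w : List G, (∀ x ∈ w, x ∈ A) ∧ w.prod = n ∧
      Above χ (min 0 (ht χ n)) 1 w := by
    intro n hn
    by_cases h0 : 0 ≤ ht χ n
    · obtain ⟨w, h1, h2, h3⟩ := hA n hn h0
      exact ⟨w, h1, h2, h3.mono (min_le_left _ _)⟩
    · have h0' := not_le.1 h0
      obtain ⟨w, h1, h2, h3⟩ := hA n⁻¹ (N.inv_mem hn) (by rw [ht_inv]; linarith)
      refine ⟨invw w, mem_invw hAs h1, by rw [invw_prod, h2, inv_inv], ?_⟩
      have h4 : Above χ (ht χ n) n w := h3.change (by rw [ht_one]; linarith)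
      exact (h4.inv' (by rw [h2]; group)).mono (min_le_right _ _)
  have hconj : ∀ a ∈ A, ∀ y ∈ S, ∃ v : List G, (∀ x ∈ v, x ∈ A) ∧ v.prod = y⁻¹ * a * y ∧
      Above χ (min 0 (ht χ a)) 1 v := by
    intro a ha y _
    have h1 : y⁻¹ * a * y ∈ N := by
      have := hN.conj_mem a (hAN a ha) y⁻¹
      rwa [inv_inv] at this
    obtain ⟨v, h2, h3, h4⟩ := hA' _ h1
    refine ⟨v, h2, h3, ?_⟩
    have h5 : ht χ (y⁻¹ * a * y) = ht χ a := by rw [ht_mul, ht_mul, ht_inv]; ring
    rwa [h5] at h4
  classical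
  choose! v hv1 hv2 hv3 using hconj
  obtain ⟨B, hB⟩ := ((hAf.prod hSf).image (fun z => (v z.1 z.2).length)).bddAbove
  refine ⟨max 2 (B + 1), fun ℓ hℓ => ⟨hAS, hSs, hAs, (le_max_left _ _).trans hℓ, ?_⟩⟩
  intro a ha y hy
  refine ⟨v a y, hv1 a ha y hy, hv2 a ha y hy, hv3 a ha y hy, ?_⟩
  have : (v a y).length ≤ B := hB ⟨(a, y), ⟨ha, hy⟩, rfl⟩
  have h1 : B + 1 ≤ ℓ := (le_max_right _ _).trans hℓ
  omega

theorem exists_pos_letter {S : Set G} (hS : ∀ s ∈ S, s⁻¹ ∈ S) {w : List G}
    (hw : ∀ x ∈ w, x ∈ S) (h : ht χ w.prod ≠ 0) : ∃ s ∈ S, 0 < ht χ s := by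
  by_contra hcon
  push Not at hcon
  apply h
  have h0 : ∀ s ∈ S, ht χ s = 0 := by
    intro s hs
    have h1 := hcon s hs
    have h2 := hcon _ (hS s hs)
    rw [ht_inv] at h2
    linarith
  clear h
  induction w with
  | nil => simp [ht_one]
  | cons x w ih =>
    rw [List.prod_cons, ht_mul, h0 x (hw x (by simp)), ih (fun y hy => hw y (by simp [hy])),
      add_zero]

end tools

section LL

variable {P : Type} [Group P] {χ : P →* Multiplicative ℝ}

/-- products of conjugates `g l g⁻¹` with `l ∈ F` -/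
inductive LL (χ : P →* Multiplicative ℝ) (S F : Set P) (c : ℝ) : List P → Prop
  | nil : LL χ S F c []
  | cons (g : List P) (l : P) (w : List P) (hg : ∀ x ∈ g, x ∈ S) (ha : Above χ c 1 g)
      (hl : l ∈ F) (hw : LL χ S F c w) : LL χ S F c (g ++ [l] ++ invw g ++ w)

variable {S F A : Set P} {ℓ : ℕ} {c : ℝ}

theorem LL.mono {c' : ℝ} (hc : c' ≤ c) {w : List P} (h : LL χ S F c w) : LL χ S F c' w := by
  induction h with
  | nil => exact LL.nil
  | cons g l w hg ha hl _ ih => exact LL.cons g l w hg (ha.mono hc) hl ih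

theorem LL.append {w w' : List P} (h : LL χ S F c w) (h' : LL χ S F c w') :
    LL χ S F c (w ++ w') := by
  induction h with
  | nil => exact h'
  | cons g l w hg ha hl _ ih =>
    have := LL.cons g l (w ++ w') hg ha hl ih
    simpa using this

theorem LL.ht_zero (hF : ∀ l ∈ F, ht χ l = 0) {w : List P} (h : LL χ S F c w) :
    ht χ w.prod = 0 := by
  induction h with
  | nil => exact ht_one χ
  | cons g l w hg ha hl _ ih =>
    rw [List.prod_append, List.prod_append, List.prod_append, List.prod_singleton, invw_prod,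
      ht_mul, ht_mul, ht_mul, ht_inv, hF l hl, ih]
    ring

theorem LL.mem (hS : ∀ s ∈ S, s⁻¹ ∈ S) (hFS : F ⊆ S) {w : List P} (h : LL χ S F c w) :
    ∀ x ∈ w, x ∈ S := by
  induction h with
  | nil => simp
  | cons g l w hg ha hl _ ih =>
    exact mem_append (mem_append (mem_append hg (mem_single (hFS hl))) (mem_invw hS hg)) ih

theorem above_block (hF : ∀ l ∈ F, ht χ l = 0) {g : List P} {l : P} (hl : l ∈ F)
    (ha : Above χ c 1 g) : Above χ c 1 (g ++ [l] ++ invw g) := by
  have h1 := ha.last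
  rw [one_mul] at h1
  rw [above_append, above_append]
  refine ⟨⟨ha, ?_⟩, ?_⟩
  · rw [one_mul]
    refine ⟨h1, ?_⟩
    rw [above_nil, ht_mul, hF l hl, add_zero]
    exact h1
  · rw [one_mul, List.prod_append, List.prod_singleton]
    have h2 : Above χ c g.prod (invw g) := ha.inv' (by group)
    exact h2.change (by rw [ht_mul, hF l hl, add_zero])

theorem LL.above (hF : ∀ l ∈ F, ht χ l = 0) (hc : c ≤ 0) {w : List P} (h : LL χ S F c w) :
    Above χ c 1 w := by
  induction h with
  | nil => rw [above_nil, ht_one]; exact hc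
  | cons g l w hg ha hl _ ih =>
    rw [above_append]
    refine ⟨above_block hF hl ha, ih.change ?_⟩
    rw [one_mul, List.prod_append, List.prod_append, List.prod_singleton, invw_prod, ht_mul,
      ht_mul, ht_inv, hF l hl, ht_one]
    linarith

/-- raising a block -/
theorem block_raise (h : Good χ S ℓ A) {n0 : P} (hn0 : n0 ∈ A) (hn : 0 < ht χ n0)
    (hF : ∀ l ∈ F, ht χ l = 0) (hFS : F ⊆ S) (hFA : ∀ l ∈ F, ∀ a ∈ A, a * l = l * a)
    (hc : c ≤ 0) (k : ℕ) {g : List P} {l : P} (hg : ∀ x ∈ g, x ∈ S) (ha : Above χ c 1 g)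
    (hl : l ∈ F) : Htp χ S ℓ c 1 (g ++ [l] ++ invw g)
      (List.replicate k n0 ++ (g ++ [l] ++ invw g) ++ invw (List.replicate k n0)) := by
  let U := List.replicate k n0
  have hUA : ∀ x ∈ U, x ∈ A := mem_replicate hn0
  have hUS : ∀ x ∈ U, x ∈ S := fun x hx => h.sub (hUA x hx)
  have hU0 : Above χ 0 1 U := above_replicate k hn.le (by rw [ht_one])
  obtain ⟨u', hu'A, hu'p, hu'r, hu'h⟩ := h.push g U hg hUA
  have hu'S : ∀ x ∈ u', x ∈ S := fun x hx => h.sub (hu'A x hx)
  have hu'0 : Above χ 0 1 u' := hu'r 0 1 1 rfl hU0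
  have hgl := ha.last
  rw [one_mul] at hgl
  have hlS := mem_single (hFS hl)
  have hgi := mem_invw h.symS hg
  have hui := mem_invw h.symS hu'S
  have hl0 := hF l hl
  -- heights
  have hu'g : Above χ c g.prod u' := hu'0.change (by rw [ht_one]; linarith)
  have hgu : Above χ c 1 (g ++ u') := by
    rw [above_append, one_mul]
    exact ⟨ha, hu'g⟩
  have hgu_inv : Above χ c ((g ++ u').prod * l) (invw (g ++ u')) := by
    have h1 : Above χ c (g ++ u').prod (invw (g ++ u')) := hgu.inv' (by group)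
    exact h1.change (by rw [ht_mul, hl0, add_zero])
  have hginv : Above χ c (g.prod * l) (invw g) := by
    have h1 : Above χ c g.prod (invw g) := ha.inv' (by group)
    exact h1.change (by rw [ht_mul, hl0, add_zero])
  have huinv : Above χ c (g ++ u').prod (invw u') := by
    have h1 := hu'g.inv
    rwa [← List.prod_append] at h1
  have e0 : Htp χ S ℓ c 1 (U ++ g) (g ++ u') := by
    have := hu'h c 0 1 ha (by simpa using hU0)
    simpa using this
  -- step 1
  have e1 : Htp χ S ℓ c 1 (g ++ ([l] ++ invw g)) (g ++ u' ++ invw u' ++ ([l] ++ invw g)) := by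
    refine Htp.insMid h.symS h.two hg (mem_append hlS hgi) hu'S ha ?_ ?_
    · rw [one_mul]
      refine ⟨hgl, ?_⟩
      exact hginv
    · rw [one_mul]
      exact hu'g
  -- step 2
  have e2 : Htp χ S ℓ c 1 (g ++ u' ++ (invw u' ++ [l]) ++ invw g)
      (g ++ u' ++ ([l] ++ invw u') ++ invw g) := by
    refine Htp.mid (mem_append hg hu'S) hgi hgu ?_ ?_
    · have e : 1 * (g ++ u').prod * (invw u' ++ [l]).prod = g.prod * l := by
        rw [List.prod_append, List.prod_append, invw_prod, List.prod_singleton]; group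
      rw [e]
      exact hginv
    · rw [one_mul]
      have := comm1 (χ := χ) (ℓ := ℓ) h.two (hFS hl) (invw u') hui (by
        intro x hx
        exact hFA l hl x (mem_invw h.symA hu'A x hx)) huinv
      rwa [hl0, min_self, add_zero] at this
  -- step 3
  have e3 : Htp χ S ℓ c 1 ((g ++ u') ++ ([l] ++ invw (g ++ u')))
      ((U ++ g) ++ ([l] ++ invw (g ++ u'))) := by
    refine e0.symm.append_right (mem_append hlS (mem_invw h.symS (mem_append hg hu'S))) ?_
    rw [one_mul]
    exact ⟨by have := hgu.last; rwa [one_mul] at this, hgu_inv⟩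
  have hUg : Above χ c 1 (U ++ g) := e0.symm.above hgu
  have hpp : (U ++ g).prod = (g ++ u').prod := e0.prod
  have e4 : Htp χ S ℓ c 1 (((U ++ g) ++ [l]) ++ invw (g ++ u'))
      (((U ++ g) ++ [l]) ++ invw (U ++ g)) := by
    refine Htp.append_left (mem_append (mem_append hUS hg) hlS) ?_ ?_
    · rw [above_append, one_mul]
      have := hUg.last
      rw [one_mul] at this
      refine ⟨hUg, this, ?_⟩
      rw [above_nil, ht_mul, hl0, add_zero]
      exact this
    · have h1 := e0.symm.inv h.symS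
      refine h1.change ?_
      rw [List.prod_append, List.prod_singleton, hpp, one_mul, one_mul, ht_mul, hl0, add_zero]
  have f1 : g ++ ([l] ++ invw g) = g ++ [l] ++ invw g := by simp
  have f2 : g ++ u' ++ invw u' ++ ([l] ++ invw g) = g ++ u' ++ (invw u' ++ [l]) ++ invw g := by
    simp
  have f3 : g ++ u' ++ ([l] ++ invw u') ++ invw g = (g ++ u') ++ ([l] ++ invw (g ++ u')) := by
    simp [invw_append]
  have f4 : (U ++ g) ++ ([l] ++ invw (g ++ u')) = ((U ++ g) ++ [l]) ++ invw (g ++ u') := by simp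
  have f5 : ((U ++ g) ++ [l]) ++ invw (U ++ g) = U ++ (g ++ [l] ++ invw g) ++ invw U := by
    simp [invw_append]
  rw [f1, f2] at e1
  rw [f3] at e2
  rw [f4] at e3
  rw [f5] at e4
  exact ((e1.trans e2).trans e3).trans e4

theorem LL.raise (h : Good χ S ℓ A) {n0 : P} (hn0 : n0 ∈ A) (hn : 0 < ht χ n0)
    (hF : ∀ l ∈ F, ht χ l = 0) (hFS : F ⊆ S) (hFA : ∀ l ∈ F, ∀ a ∈ A, a * l = l * a)
    (hc : c ≤ 0) (k : ℕ) {w : List P} (hw : LL χ S F c w) : Htp χ S ℓ c 1 w
      (List.replicate k n0 ++ w ++ invw (List.replicate k n0)) := by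
  have hUA : ∀ x ∈ List.replicate k n0, x ∈ A := mem_replicate hn0
  have hUS : ∀ x ∈ List.replicate k n0, x ∈ S := fun x hx => h.sub (hUA x hx)
  have hU0 : Above χ 0 1 (List.replicate k n0) := above_replicate k hn.le (by rw [ht_one])
  have hUi := mem_invw h.symS hUS
  have hUh : 0 ≤ ht χ (List.replicate k n0).prod := by
    have := hU0.last
    rwa [one_mul] at this
  have hUia : Above χ 0 (List.replicate k n0).prod (invw (List.replicate k n0)) :=
    hU0.inv' (by group)
  induction hw with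
  | nil =>
    have := Htp.ins (χ := χ) (c := c) (g := 1) h.symS h.two _ hUS (hU0.mono hc)
    simpa using this
  | cons g l w hg ha hl hw ih =>
    have hB := block_raise h hn0 hn hF hFS hFA hc k hg ha hl
    have hBa := above_block hF hl ha
    have hBS : ∀ x ∈ g ++ [l] ++ invw g, x ∈ S :=
      mem_append (mem_append hg (mem_single (hFS hl))) (mem_invw h.symS hg)
    have hB0 : ht χ (g ++ [l] ++ invw g).prod = 0 := by
      rw [List.prod_append, List.prod_append, List.prod_singleton, invw_prod, ht_mul, ht_mul,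
        ht_inv, hF l hl]
      ring
    have hwS := hw.mem h.symS hFS
    have hwa := hw.above hF hc
    have hw0 := hw.ht_zero hF
    generalize hBdef : g ++ [l] ++ invw g = B at hB hBa hBS hB0
    generalize hUdef : List.replicate k n0 = U at *
    have e1 : Htp χ S ℓ c 1 (B ++ w) ((U ++ B ++ invw U) ++ w) := by
      refine hB.append_right hwS (hwa.change ?_)
      rw [one_mul, hB0, ht_one]
    have hB'a := hB.above hBa
    have hB'0 : ht χ (U ++ B ++ invw U).prod = 0 := by rw [← hB.prod]; exact hB0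
    have e2 : Htp χ S ℓ c 1 ((U ++ B ++ invw U) ++ w)
        ((U ++ B ++ invw U) ++ (U ++ w ++ invw U)) := by
      refine Htp.append_left (mem_append (mem_append hUS hBS) hUi) hB'a ?_
      refine ih.change ?_
      rw [one_mul, hB'0, ht_one]
    have hUB : Above χ c 1 (U ++ B) := ((above_append.1 hB'a).1)
    have hUBh : ht χ (U ++ B).prod = ht χ U.prod := by
      rw [List.prod_append, ht_mul, hB0, add_zero]
    have e3 : Htp χ S ℓ c 1 ((U ++ B) ++ (w ++ invw U))
        ((U ++ B) ++ invw U ++ invw (invw U) ++ (w ++ invw U)) := by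
      refine Htp.insMid h.symS h.two (mem_append hUS hBS) (mem_append hwS hUi) hUi hUB ?_ ?_
      · rw [one_mul, above_append]
        refine ⟨hwa.change ?_, ?_⟩
        · rw [hUBh, ht_one]
          linarith
        · refine (hUia.mono hc).change ?_
          rw [ht_mul, hUBh, hw0, add_zero]
      · rw [one_mul]
        refine (hUia.mono hc).change ?_
        rw [hUBh]
    rw [invw_invw] at e3
    have f1 : (U ++ B) ++ invw U ++ U ++ (w ++ invw U) =
        (U ++ B ++ invw U) ++ (U ++ w ++ invw U) := by simp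
    have f2 : (U ++ B) ++ (w ++ invw U) = U ++ (B ++ w) ++ invw U := by simp
    rw [f1, f2] at e3
    exact (e1.trans e2).trans e3.symm

theorem LL.null (h : Good χ S ℓ A) {n0 : P} (hn0 : n0 ∈ A) (hn : 0 < ht χ n0)
    (hF : ∀ l ∈ F, ht χ l = 0) (hFS : F ⊆ S) (hFA : ∀ l ∈ F, ∀ a ∈ A, a * l = l * a)
    (hc : c ≤ 0) {w : List P} (hw : LL χ S F c w) (hp : w.prod = 1)
    (hfp : ∃ c', Htp χ S ℓ c' 1 w []) : Htp χ S ℓ c 1 w [] := by
  obtain ⟨c', hc'⟩ := hfp
  obtain ⟨k, hk⟩ := exists_high hn (c - c')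
  have hUA : ∀ x ∈ List.replicate k n0, x ∈ A := mem_replicate hn0
  have hUS : ∀ x ∈ List.replicate k n0, x ∈ S := fun x hx => h.sub (hUA x hx)
  have hU0 : Above χ 0 1 (List.replicate k n0) := above_replicate k hn.le (by rw [ht_one])
  have hUia : Above χ 0 (List.replicate k n0).prod (invw (List.replicate k n0)) :=
    hU0.inv' (by group)
  have e1 := hw.raise h hn0 hn hF hFS hFA hc k
  have e2 : Htp χ S ℓ c 1 (List.replicate k n0 ++ w ++ invw (List.replicate k n0))
      (List.replicate k n0 ++ [] ++ invw (List.replicate k n0)) := by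
    refine Htp.mid hUS (mem_invw h.symS hUS) (hU0.mono hc) ?_ (hc'.change ?_)
    · rw [hp, mul_one, one_mul]
      exact hUia.mono hc
    · rw [ht_one, one_mul]
      linarith
  have e3 := Htp.ins (χ := χ) (c := c) (g := 1) h.symS h.two _ hUS (hU0.mono hc)
  rw [List.append_nil] at e2
  exact (e1.trans e2).trans e3.symm

end LL

section lift

variable {P T : Type} [Group P] [Group T] {χ : P →* Multiplicative ℝ}
  {χT : T →* Multiplicative ℝ} {π : P →* T}

theorem above_lift (hχ : ∀ x, ht χT (π x) = ht χ x) {z : T → P} (hz : ∀ x, π (z x) = x)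
    {c : ℝ} (w : List T) : ∀ {g : P}, Above χ c g (w.map z) ↔ Above χT c (π g) w := by
  induction w with
  | nil =>
    intro g
    rw [List.map_nil, above_nil, above_nil, hχ]
  | cons x w ih =>
    intro g
    rw [List.map_cons, above_cons, above_cons, hχ, ih, map_mul, hz]

theorem prod_lift {z : T → P} (hz : ∀ x, π (z x) = x) (w : List T) :
    π (w.map z).prod = w.prod := by
  induction w with
  | nil => simp
  | cons x w ih => simp [ih, hz]

/-- lifting homotopies from the quotient -/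
theorem lift_htp (hχ : ∀ x, ht χT (π x) = ht χ x) {z : T → P} (hz : ∀ x, π (z x) = x)
    {S F : Set P} {ST : Set T} {ℓ ℓT : ℕ} (hS : ∀ s ∈ S, s⁻¹ ∈ S) (hzS : ∀ s ∈ ST, z s ∈ S)
    (hF : ∀ l ∈ F, ht χ l = 0) (hFS : F ⊆ S) (hℓ : ℓT + 1 ≤ ℓ) (h2 : 2 ≤ ℓ)
    (hFw : ∀ v v' : List T, (∀ x ∈ v, x ∈ ST) → (∀ x ∈ v', x ∈ ST) → v.length ≤ ℓT →
      v'.length ≤ ℓT → v.prod = v'.prod → ((v'.map z).prod)⁻¹ * (v.map z).prod ∈ F)
    {c : ℝ} (hc : c ≤ 0) {w w' : List T} (h : Htp χT ST ℓT c 1 w w') :
    ∃ Q, LL χ S F c Q ∧ Htp χ S ℓ c 1 (w.map z) (Q ++ w'.map z) := by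
  have hzS' : ∀ w : List T, (∀ x ∈ w, x ∈ ST) → ∀ x ∈ w.map z, x ∈ S := by
    intro w hw x hx
    obtain ⟨y, hy, rfl⟩ := List.mem_map.1 hx
    exact hzS y (hw y hy)
  induction h with
  | refl => exact ⟨[], LL.nil, Htp.refl _⟩
  | tail _ h ih =>
    obtain ⟨Q, hQ, hQh⟩ := ih
    rename_i b w''
    obtain ⟨u, v, v', u', h1, h2', h3, h4, h5, h6, h7, h8, h9⟩ := h
    subst h1
    subst h2'
    -- the one step lemma
    have key : ∃ Q2, LL χ S F c Q2 ∧ Htp χ S ℓ c 1 ((u ++ v ++ u').map z)
        (Q2 ++ (u ++ v' ++ u').map z) := by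
      have hm : ∀ {x}, x ∈ u ++ v ++ u' ↔ (x ∈ u ∨ x ∈ v) ∨ x ∈ u' := by
        intro x; simp [or_assoc]
      have hm' : ∀ {x}, x ∈ u ++ v' ++ u' ↔ (x ∈ u ∨ x ∈ v') ∨ x ∈ u' := by
        intro x; simp [or_assoc]
      have huS := hzS' u fun x hx => h6 x (hm.2 (Or.inl (Or.inl hx)))
      have hvT : ∀ x ∈ v, x ∈ ST := fun x hx => h6 x (hm.2 (Or.inl (Or.inr hx)))
      have hv'T : ∀ x ∈ v', x ∈ ST := fun x hx => h7 x (hm'.2 (Or.inl (Or.inr hx)))
      have hvS := hzS' v hvT
      have hv'S := hzS' v' hv'T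
      have hu'S := hzS' u' fun x hx => h6 x (hm.2 (Or.inr hx))
      have ha : Above χ c 1 ((u ++ v ++ u').map z) := (above_lift hχ hz _).2 (by simpa using h8)
      have ha' : Above χ c 1 ((u ++ v' ++ u').map z) :=
        (above_lift hχ hz _).2 (by simpa using h9)
      simp only [List.map_append] at ha ha' ⊢
      generalize hl : ((v'.map z).prod)⁻¹ * (v.map z).prod = l
      have hlF : l ∈ F := by rw [← hl]; exact hFw v v' hvT hv'T h3 h4 h5
      have hl0 := hF l hlF
      rw [above_append, above_append] at ha ha'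
      obtain ⟨⟨hau, hav⟩, hau'⟩ := ha
      obtain ⟨⟨_, hav'⟩, hau''⟩ := ha'
      have hvl : (v.map z).prod = (v'.map z).prod * l := by rw [← hl]; group
      have hg : Above χ c 1 (u.map z ++ v'.map z) := above_append.2 ⟨hau, hav'⟩
      have hgS := mem_append huS hv'S
      have hgl := hg.last
      rw [one_mul] at hgl
      have e1 : Htp χ S ℓ c 1 (u.map z ++ v.map z ++ u'.map z)
          (u.map z ++ (v'.map z ++ [l]) ++ u'.map z) := by
        refine Htp.mid huS hu'S hau ?_ ?_
        · rw [List.prod_append, ← mul_assoc] at hau'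
          exact hau'
        · refine Htp.base hvS (mem_append hv'S (mem_single (hFS hlF))) ?_ ?_ ?_ hav ?_
          · rw [List.length_map]; omega
          · rw [List.length_append, List.length_map, List.length_singleton]; omega
          · rw [List.prod_append, List.prod_singleton, hvl]
          · rw [above_append]
            refine ⟨hav', ?_, ?_⟩
            · exact hav'.last
            · rw [above_nil, ht_mul, hl0, add_zero]
              exact hav'.last
      have e2 : Htp χ S ℓ c 1 ((u.map z ++ v'.map z ++ [l]) ++ u'.map z)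
          ((u.map z ++ v'.map z ++ [l]) ++ invw (u.map z ++ v'.map z) ++
            invw (invw (u.map z ++ v'.map z)) ++ u'.map z) := by
        refine Htp.insMid hS h2 (mem_append hgS (mem_single (hFS hlF))) hu'S
          (mem_invw hS hgS) ?_ ?_ ?_
        · rw [above_append]
          refine ⟨hg, ?_, ?_⟩
          · rw [one_mul]; exact hgl
          · rw [above_nil, one_mul, ht_mul, hl0, add_zero]; exact hgl
        · refine hau''.change ?_
          rw [one_mul, one_mul, List.prod_append (l₁ := u.map z ++ v'.map z),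
            List.prod_singleton, ht_mul, hl0, add_zero]
        · have h10 : Above χ c (u.map z ++ v'.map z).prod (invw (u.map z ++ v'.map z)) :=
            hg.inv' (by group)
          refine h10.change ?_
          rw [one_mul, List.prod_append (l₁ := u.map z ++ v'.map z), List.prod_singleton,
            ht_mul, hl0, add_zero]
      rw [invw_invw] at e2
      refine ⟨(u.map z ++ v'.map z) ++ [l] ++ invw (u.map z ++ v'.map z) ++ [],
        LL.cons _ l [] hgS hg hlF LL.nil, ?_⟩
      have f1 : u.map z ++ (v'.map z ++ [l]) ++ u'.map z =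
          (u.map z ++ v'.map z ++ [l]) ++ u'.map z := by simp
      have f2 : (u.map z ++ v'.map z) ++ [l] ++ invw (u.map z ++ v'.map z) ++ [] ++
          (u.map z ++ v'.map z ++ u'.map z) = (u.map z ++ v'.map z ++ [l]) ++
          invw (u.map z ++ v'.map z) ++ (u.map z ++ v'.map z) ++ u'.map z := by simp
      rw [f1] at e1
      rw [f2]
      exact e1.trans e2
    obtain ⟨Q2, hQ2, hQ2h⟩ := key
    refine ⟨Q ++ Q2, hQ.append hQ2, hQh.trans ?_⟩
    have h12 := Htp.append_left (χ := χ) (S := S) (ℓ := ℓ) (c := c) (g := 1) (hQ.mem hS hFS)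
      (hQ.above hF hc) (hQ2h.change (c' := c) (g' := 1 * Q.prod) (by
        rw [one_mul, hQ.ht_zero hF, ht_one]))
    rw [← List.append_assoc] at h12
    exact h12

/-- loops slightly below height `0` -/
theorem low_loops {ST : Set T} {ℓT : ℕ} {dT : ℝ} (hS : ∀ s ∈ ST, s⁻¹ ∈ ST) (h2 : 2 ≤ ℓT)
    (h : ∀ w : List T, (∀ x ∈ w, x ∈ ST) → w.prod = 1 → Above χT 0 1 w →
      Htp χT ST ℓT (-dT) 1 w []) {s0 : T} (hs0 : s0 ∈ ST) (hs : 0 < ht χT s0) (d1 : ℝ) :
    ∃ d2 : ℝ, 0 ≤ d2 ∧ ∀ w : List T, (∀ x ∈ w, x ∈ ST) → w.prod = 1 → Above χT (-d1) 1 w →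
      Htp χT ST ℓT (-d2) 1 w [] := by
  obtain ⟨k, hk⟩ := exists_high hs d1
  let U := List.replicate k s0
  have hUS : ∀ x ∈ U, x ∈ ST := mem_replicate hs0
  have hU0 : Above χT 0 1 U := above_replicate k hs.le (by rw [ht_one])
  have hUh : 0 ≤ ht χT U.prod := by
    have := hU0.last
    rwa [one_mul] at this
  have hUi := mem_invw hS hUS
  have hUia : Above χT 0 U.prod (invw U) := hU0.inv' (by group)
  refine ⟨|dT| + |d1| + ht χT U.prod, by positivity, ?_⟩
  intro w hw hp ha
  have hd1 := le_abs_self d1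
  have hdT := le_abs_self dT
  have ha1 := abs_nonneg d1
  have haT := abs_nonneg dT
  set D := |dT| + |d1| + ht χT U.prod with hD
  have hlow : Above χT (-D) 1 (invw U) := by
    refine hUia.change ?_
    rw [ht_one]
    linarith
  have hlowU : Above χT (-D) U.prod⁻¹ U := by
    refine hU0.change ?_
    rw [ht_one, ht_inv]
    linarith
  have haD : Above χT (-D) 1 w := ha.mono (by linarith)
  have h1 : Above χT 0 1 (U ++ w ++ invw U) := by
    rw [above_append, above_append]
    refine ⟨⟨hU0, ha.change ?_⟩, ?_⟩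
    · rw [ht_one, one_mul]
      linarith
    · rw [one_mul, List.prod_append, hp, mul_one]
      exact hUia
  have h3 := h (U ++ w ++ invw U) (mem_append (mem_append hUS hw) hUi) (by
    rw [List.prod_append, List.prod_append, hp, mul_one, invw_prod, mul_inv_cancel]) h1
  -- insert at the beginning and at the end
  have e1 : Htp χT ST ℓT (-D) 1 w (invw U ++ U ++ w) := by
    have := Htp.insMid (χ := χT) (S := ST) (ℓ := ℓT) (c := -D) (g := 1) hS h2
      (p := []) (q := w) (v := invw U) (by simp) hw hUi (by rw [above_nil, ht_one]; linarith)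
      (by rw [List.prod_nil, mul_one]; exact haD) (by rw [List.prod_nil, mul_one]; exact hlow)
    rw [invw_invw] at this
    simpa using this
  have hpre : Above χT (-D) 1 (invw U ++ U ++ w) := e1.above haD
  have e2 : Htp χT ST ℓT (-D) 1 (invw U ++ U ++ w) (invw U ++ U ++ w ++ (invw U ++ U)) := by
    have := Htp.insMid (χ := χT) (S := ST) (ℓ := ℓT) (c := -D) (g := 1) hS h2
      (p := invw U ++ U ++ w) (q := []) (v := invw U) (mem_append (mem_append hUi hUS) hw)
      (by simp) hUi hpre (by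
        rw [above_nil, one_mul, List.prod_append, List.prod_append, hp, invw_prod]
        simp only [inv_mul_cancel, mul_one, ht_one]
        linarith) (by
        rw [one_mul, List.prod_append, List.prod_append, hp, invw_prod]
        simp only [inv_mul_cancel, mul_one]
        exact hlow)
    rw [invw_invw] at this
    simpa using this
  have e3 : Htp χT ST ℓT (-D) 1 (invw U ++ (U ++ w ++ invw U) ++ U) (invw U ++ [] ++ U) := by
    refine Htp.mid hUi hUS hlow ?_ (h3.change ?_)
    · rw [one_mul, List.prod_append, List.prod_append, hp, mul_one, invw_prod, mul_inv_cancel,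
        mul_one]
      exact hlowU
    · rw [ht_one, one_mul, invw_prod, ht_inv]
      linarith
  have e4 : Htp χT ST ℓT (-D) 1 [] (invw U ++ U) := by
    have := Htp.ins (χ := χT) (c := -D) (g := 1) hS h2 (invw U) hUi hlow
    rwa [invw_invw] at this
  have f1 : invw U ++ U ++ w ++ (invw U ++ U) = invw U ++ (U ++ w ++ invw U) ++ U := by simp
  rw [f1] at e2
  rw [List.append_nil] at e3
  exact ((e1.trans e2).trans e3).trans e4.symm

/-- decomposing an `A`-path through the quotient -/
theorem dec (hχ : ∀ x, ht χT (π x) = ht χ x) {z : T → P} (hz : ∀ x, π (z x) = x)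
    {S F A : Set P} {ST : Set T} {ℓ : ℕ} (hS : ∀ s ∈ S, s⁻¹ ∈ S) (hAS : A ⊆ S)
    (hzS : ∀ s ∈ ST, z s ∈ S) (hF : ∀ l ∈ F, ht χ l = 0) (hFS : F ⊆ S) (h2 : 2 ≤ ℓ)
    (q : P → List T) (hq : ∀ a ∈ A, ∀ x ∈ q a, x ∈ ST) (hqp : ∀ a ∈ A, (q a).prod = π a)
    (hql : ∀ a ∈ A, (q a).length + 1 ≤ ℓ)
    (hqF : ∀ a ∈ A, (((q a).map z).prod)⁻¹ * a ∈ F) {d1 : ℝ} (hd : 0 ≤ d1)
    (hqd : ∀ a ∈ A, Above χT (-d1) 1 (q a)) (u : List P) :
    (∀ x ∈ u, x ∈ A) → Above χ 0 1 u → (∀ x ∈ u.flatMap q, x ∈ ST) ∧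
      (u.flatMap q).prod = π u.prod ∧ Above χT (-d1) 1 (u.flatMap q) ∧
      ∃ Q, LL χ S F (-d1) Q ∧ Htp χ S ℓ (-d1) 1 u (Q ++ (u.flatMap q).map z) := by
  have hzS' : ∀ w : List T, (∀ x ∈ w, x ∈ ST) → ∀ x ∈ w.map z, x ∈ S := by
    intro w hw x hx
    obtain ⟨y, hy, rfl⟩ := List.mem_map.1 hx
    exact hzS y (hw y hy)
  induction u using List.reverseRecOn with
  | nil =>
    intro _ _
    refine ⟨by simp, by simp, ?_, [], LL.nil, Htp.refl _⟩
    change -d1 ≤ ht χT 1
    rw [ht_one]; linarith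
  | append_singleton u a ih =>
    intro hu ha
    have haA : a ∈ A := hu a (by simp)
    have huA : ∀ x ∈ u, x ∈ A := fun x hx => hu x (by simp [hx])
    rw [above_append, one_mul] at ha
    obtain ⟨ha1, ha2⟩ := ha
    obtain ⟨h1, h3, h4, Q, hQ, hQh⟩ := ih huA ha1
    have hfl : (u ++ [a]).flatMap q = u.flatMap q ++ q a := by simp
    have hu0 : 0 ≤ ht χ u.prod := ha2.head
    rw [hfl]
    have hmem : ∀ x ∈ u.flatMap q ++ q a, x ∈ ST := by
      intro x hx
      rcases List.mem_append.1 hx with hx | hx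
      · exact h1 x hx
      · exact hq a haA x hx
    have hprod : (u.flatMap q ++ q a).prod = π (u ++ [a]).prod := by
      rw [List.prod_append, h3, hqp a haA, List.prod_append, List.prod_singleton, map_mul]
    have hqa : Above χT (-d1) (1 * (u.flatMap q).prod) (q a) := by
      refine (hqd a haA).change ?_
      rw [one_mul, h3, hχ, ht_one]
      linarith
    have hab : Above χT (-d1) 1 (u.flatMap q ++ q a) := above_append.2 ⟨h4, hqa⟩
    refine ⟨hmem, hprod, hab, ?_⟩
    set V := (u.flatMap q).map z with hV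
    set B := (q a).map z with hB
    generalize hl : B.prod⁻¹ * a = l
    have hlF : l ∈ F := by rw [← hl, hB]; exact hqF a haA
    have hl0 := hF l hlF
    have hVS : ∀ x ∈ V, x ∈ S := hzS' _ h1
    have hBS : ∀ x ∈ B, x ∈ S := hzS' _ (hq a haA)
    have hWS : ∀ x ∈ V ++ B, x ∈ S := mem_append hVS hBS
    have hQS := hQ.mem hS hFS
    have hQa := hQ.above hF (by linarith : -d1 ≤ 0)
    have hQ0 := hQ.ht_zero hF
    have hW : Above χ (-d1) 1 (V ++ B) := by
      rw [hV, hB, ← List.map_append]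
      refine (above_lift hχ hz _).2 ?_
      rw [map_one]
      exact hab
    have hW1 := (above_append.1 hW).1
    have hW2 := (above_append.1 hW).2
    have haB : a = B.prod * l := by rw [← hl]; group
    have hQV : Q.prod * V.prod = u.prod := by
      have := hQh.prod
      rw [List.prod_append] at this
      exact this.symm
    have hlast := hW.last
    rw [one_mul] at hlast
    have e1 : Htp χ S ℓ (-d1) 1 (u ++ [a]) ((Q ++ V) ++ [a]) := by
      refine hQh.append_right (mem_single (hAS haA)) ?_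
      rw [one_mul]
      exact ha2.mono (by linarith)
    have hQVa : Above χ (-d1) 1 (Q ++ V) := hQh.above (ha1.mono (by linarith))
    have hBlow : Above χ (-d1) u.prod B := by
      refine hW2.change ?_
      rw [one_mul, ← hQV, ht_mul, hQ0, zero_add]
    have e2 : Htp χ S ℓ (-d1) 1 ((Q ++ V) ++ [a]) ((Q ++ V) ++ (B ++ [l])) := by
      refine Htp.append_left (mem_append hQS hVS) hQVa ?_
      rw [one_mul, List.prod_append, hQV]
      refine Htp.base (mem_single (hAS haA)) (mem_append hBS (mem_single (hFS hlF)))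
        (by rw [List.length_singleton]; omega) ?_ ?_ (ha2.mono (by linarith)) ?_
      · rw [List.length_append, List.length_singleton, hB, List.length_map]
        exact hql a haA
      · rw [List.prod_append, List.prod_singleton, List.prod_singleton]
        exact haB
      · rw [above_append]
        refine ⟨hBlow, hBlow.last, ?_⟩
        rw [above_nil, ht_mul, hl0, add_zero]
        exact hBlow.last
    have hQW : Above χ (-d1) 1 (Q ++ (V ++ B ++ [l])) := by
      rw [above_append]
      refine ⟨hQa, ?_⟩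
      rw [above_append]
      refine ⟨hW.change (by rw [one_mul, hQ0, ht_one]), ?_, ?_⟩
      · rw [one_mul, ht_mul, hQ0, zero_add]; exact hlast
      · rw [above_nil, one_mul, ht_mul, ht_mul, hl0, add_zero, hQ0, zero_add]; exact hlast
    have hWi : Above χ (-d1) (V ++ B).prod (invw (V ++ B)) := hW.inv' (by group)
    have e3 : Htp χ S ℓ (-d1) 1 ((Q ++ (V ++ B ++ [l])) ++ [])
        ((Q ++ (V ++ B ++ [l])) ++ invw (V ++ B) ++ invw (invw (V ++ B)) ++ []) := by
      refine Htp.insMid hS h2 (mem_append hQS (mem_append hWS (mem_single (hFS hlF))))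
        (by simp) (mem_invw hS hWS) hQW ?_ ?_
      · exact hQW.last
      · refine hWi.change ?_
        rw [one_mul, List.prod_append, List.prod_append (l₁ := V ++ B), List.prod_singleton,
          ht_mul, ht_mul, hl0, add_zero, hQ0, zero_add]
    rw [invw_invw] at e3
    refine ⟨Q ++ ((V ++ B) ++ [l] ++ invw (V ++ B) ++ []),
      hQ.append (LL.cons (V ++ B) l [] hWS hW hlF LL.nil), ?_⟩
    have f1 : (Q ++ V) ++ (B ++ [l]) = (Q ++ (V ++ B ++ [l])) ++ [] := by simp
    have f2 : Q ++ ((V ++ B) ++ [l] ++ invw (V ++ B) ++ []) ++ (u.flatMap q ++ q a).map z =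
        (Q ++ (V ++ B ++ [l])) ++ invw (V ++ B) ++ (V ++ B) ++ [] := by
      rw [List.map_append, ← hV, ← hB]
      simp
    rw [f2]
    rw [f1] at e2
    exact (e1.trans e2).trans e3

end lift

end Pool.Agent.W386.M
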