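import Pool.Agent.W386.M.Sig2

set_option autoImplicit false

/-!
# The homotopical second Sigma invariant of subgroups of direct products
-/

namespace Pool.Agent.W386.M

open Function

section symcl

variable {P : Type} [Group P]

/-- symmetric closure -/
def symcl (S : Set P) : Set P := S ∪ (fun x => x⁻¹) '' S

theorem symcl_finite {S : Set P} (h : S.Finite) : (symcl S).Finite := h.union (h.image _)

theorem subset_symcl {S : Set P} : S ⊆ symcl S := Set.subset_union_left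

theorem symcl_inv {S : Set P} : ∀ s ∈ symcl S, s⁻¹ ∈ symcl S := by
  rintro s (hs | ⟨x, hx, rfl⟩)
  · exact Or.inr ⟨s, hs, rfl⟩
  · left
    simpa using hx

end symcl

theorem sig2_step {P T : Type} [Group P] [Group T] {χ : P →* Multiplicative ℝ}
    (hP : Group.IsFinitelyPresented P) (N : Subgroup P) (hN : N.Normal) (π : P →* T)
    (hπ : Surjective π) (hcomm : ∀ n ∈ N, ∀ l, π l = 1 → n * l = l * n)
    {A : Set P} (hAf : A.Finite) (hAN : ∀ a ∈ A, a ∈ N) (hAs : ∀ s ∈ A, s⁻¹ ∈ A)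
    (hA : ∀ n ∈ N, 0 ≤ ht χ n → ∃ w : List P, (∀ x ∈ w, x ∈ A) ∧ w.prod = n ∧ Above χ 0 1 w)
    (hn : ∃ n ∈ N, ht χ n ≠ 0)
    (hT : (∀ l, π l = 1 → ht χ l = 0) → ∃ χT : T →* Multiplicative ℝ,
      (∀ x, ht χT (π x) = ht χ x) ∧ Sig2 χT) : Sig2 χ := by
  classical
  obtain ⟨n0, hn0A, hn0⟩ : ∃ n0 ∈ A, 0 < ht χ n0 := by
    obtain ⟨n, hnN, hn⟩ := hn
    rcases le_total 0 (ht χ n) with h | h
    · obtain ⟨w, hw1, hw2, _⟩ := hA n hnN h
      exact exists_pos_letter hAs hw1 (by rw [hw2]; exact hn)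
    · obtain ⟨w, hw1, hw2, _⟩ := hA n⁻¹ (N.inv_mem hnN) (by rw [ht_inv]; linarith)
      exact exists_pos_letter hAs hw1 (by rw [hw2, ht_inv]; exact neg_ne_zero.2 hn)
  obtain ⟨S0, hS0f, hS0⟩ := fp_loops hP
  by_cases hL : ∀ l, π l = 1 → ht χ l = 0
  · obtain ⟨χT, hχ, ST, ℓT', dT, hSTf, hSTs, hT1, hT2'⟩ := hT hL
    obtain ⟨ℓT, hℓT2, hℓT⟩ : ∃ ℓT : ℕ, 2 ≤ ℓT ∧ ℓT' ≤ ℓT := ⟨max 2 ℓT', le_max_left _ _, le_max_right _ _⟩
    have hT2 : ∀ w : List T, (∀ x ∈ w, x ∈ ST) → w.prod = 1 → Above χT 0 1 w →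
        Htp χT ST ℓT (-dT) 1 w [] := fun w h1 h2 h3 =>
      (hT2' w h1 h2 h3).mono (fun _ h => h) hℓT le_rfl
    -- words for all elements of `T`
    have hgenT : ∀ g : T, ∃ w : List T, (∀ x ∈ w, x ∈ ST) ∧ w.prod = g := by
      intro g
      rcases le_total 0 (ht χT g) with h | h
      · obtain ⟨w, h1, h2, _⟩ := hT1 g h
        exact ⟨w, h1, h2⟩
      · obtain ⟨w, h1, h2, _⟩ := hT1 g⁻¹ (by rw [ht_inv]; linarith)
        exact ⟨invw w, mem_invw hSTs h1, by rw [invw_prod, h2, inv_inv]⟩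
    choose q0 hq0 hq0p using hgenT
    let q : P → List T := fun a => q0 (π a)
    choose z hz using hπ
    obtain ⟨s0, hs0, hs0p⟩ : ∃ s ∈ ST, 0 < ht χT s :=
      exists_pos_letter hSTs (hq0 (π n0)) (by rw [hq0p, hχ]; exact hn0.ne')
    -- a bound for the depth of the words `q a`
    obtain ⟨d1, hd1, hd1'⟩ : ∃ d1 : ℝ, 0 ≤ d1 ∧ ∀ a ∈ A, Above χT (-d1) 1 (q a) := by
      have h1 : ∀ a : P, ∃ c, Above χT c 1 (q a) := fun a => exists_above χT (q a) 1
      choose c hc using h1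
      obtain ⟨B, hB⟩ := (hAf.image c).bddBelow
      refine ⟨max 0 (-B), le_max_left _ _, fun a ha => (hc a).mono ?_⟩
      have h2 : B ≤ c a := hB ⟨a, ha, rfl⟩
      have h3 : -B ≤ max 0 (-B) := le_max_right _ _
      linarith
    obtain ⟨Bq, hBq⟩ : ∃ Bq : ℕ, ∀ a ∈ A, (q a).length ≤ Bq := by
      obtain ⟨B, hB⟩ := (hAf.image (fun a => (q a).length)).bddAbove
      exact ⟨B, fun a ha => hB ⟨a, ha, rfl⟩⟩
    obtain ⟨d2, hd2, hd2'⟩ := low_loops hSTs hℓT2 hT2 hs0 hs0p d1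
    let W : Set (List T) := {w | (∀ x ∈ w, x ∈ ST) ∧ w.length ≤ ℓT}
    have hW : W.Finite := words_finite hSTf ℓT
    let F1 : Set P := (fun v : List T × List T => ((v.2.map z).prod)⁻¹ * (v.1.map z).prod) ''
      {v | v.1 ∈ W ∧ v.2 ∈ W ∧ v.1.prod = v.2.prod}
    let F2 : Set P := (fun a => (((q a).map z).prod)⁻¹ * a) '' A
    have hF1f : F1.Finite := by
      refine Set.Finite.image _ ((hW.prod hW).subset ?_)
      rintro ⟨v, v'⟩ ⟨h1, h2, _⟩
      exact ⟨h1, h2⟩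
    have hF2f : F2.Finite := hAf.image _
    let F : Set P := F1 ∪ F2
    have hFL : ∀ l ∈ F, π l = 1 := by
      rintro l (⟨⟨v, v'⟩, ⟨_, _, h3⟩, rfl⟩ | ⟨a, ha, rfl⟩)
      · simp only
        rw [map_mul, map_inv, prod_lift hz, prod_lift hz, h3, inv_mul_cancel]
      · simp only
        rw [map_mul, map_inv, prod_lift hz]
        simp only [q]
        rw [hq0p, inv_mul_cancel]
    have hF0 : ∀ l ∈ F, ht χ l = 0 := fun l hl => hL l (hFL l hl)
    let S : Set P := symcl (S0 ∪ A ∪ z '' ST ∪ F)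
    have hSf : S.Finite := symcl_finite
      (((hS0f.union hAf).union (hSTf.image _)).union (hF1f.union hF2f))
    have hSs : ∀ s ∈ S, s⁻¹ ∈ S := symcl_inv
    have hS0S : S0 ⊆ S := fun x hx => subset_symcl (Or.inl (Or.inl (Or.inl hx)))
    have hAS : A ⊆ S := fun x hx => subset_symcl (Or.inl (Or.inl (Or.inr hx)))
    have hzS : ∀ s ∈ ST, z s ∈ S := fun x hx => subset_symcl (Or.inl (Or.inr ⟨x, hx, rfl⟩))
    have hFS : F ⊆ S := fun x hx => subset_symcl (Or.inr hx)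
    obtain ⟨ℓ1, hℓ1⟩ := good_of hN hAf hAN hAs hA hSf hSs hAS
    obtain ⟨ℓ0, hℓ0⟩ := hS0 S hSf hS0S hSs
    obtain ⟨ℓ, hg1, hg2, hg3, hg4, hg5⟩ : ∃ ℓ : ℕ, ℓ1 ≤ ℓ ∧ ℓ0 ≤ ℓ ∧ ℓT + 1 ≤ ℓ ∧ Bq + 1 ≤ ℓ ∧
        2 ≤ ℓ := ⟨ℓ1 + ℓ0 + ℓT + Bq + 2, by omega, by omega, by omega, by omega, by omega⟩
    have good := hℓ1 ℓ hg1
    obtain ⟨hgen, hloop⟩ := hℓ0 ℓ hg2
    have hFA : ∀ l ∈ F, ∀ a ∈ A, a * l = l * a := fun l hl a ha =>
      hcomm a (hAN a ha) l (hFL l hl)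
    have hd0 : 0 ≤ d1 + d2 := add_nonneg hd1 hd2
    refine ⟨S, ℓ, d1 + d2, hSf, hSs, ?_, ?_⟩
    · intro g hg
      obtain ⟨w, hw1, hw2⟩ := hgen g
      obtain ⟨w', h1, h2, h3⟩ := good.high_path hn0A hn0 hw1 (by rw [hw2]; exact hg)
      exact ⟨w', h1, h2.trans hw2, h3.mono (by linarith)⟩
    · intro w hw hp ha
      obtain ⟨u, huA, hup, hua, hwu⟩ := good.to_A hn0A hn0 hw hp ha (hloop χ w hw hp)
      obtain ⟨hv1, hv2, hv3, Q, hQ, hQh⟩ := dec hχ hz hSs hAS hzS hF0 hFS hg5 q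
        (fun a _ => hq0 (π a)) (fun a _ => hq0p (π a))
        (fun a ha => (Nat.succ_le_succ (hBq a ha)).trans hg4)
        (fun a ha => Or.inr ⟨a, ha, rfl⟩) hd1 hd1' u huA hua
      rw [hup, map_one] at hv2
      have hlow := hd2' _ hv1 hv2 hv3
      obtain ⟨Q', hQ', hQ'h⟩ := lift_htp hχ hz hSs hzS hF0 hFS hg3 hg5
        (fun v v' h1 h2 h3 h4 h5 => Or.inl ⟨(v, v'), ⟨⟨h1, h3⟩, ⟨h2, h4⟩, h5⟩, rfl⟩)
        (by linarith : -d2 ≤ 0) hlow
      rw [List.map_nil, List.append_nil] at hQ'h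
      have hle : -(d1 + d2) ≤ 0 := by linarith
      have e1 : Htp χ S ℓ (-(d1 + d2)) 1 w u := hwu.lower hle
      have e2 : Htp χ S ℓ (-(d1 + d2)) 1 u (Q ++ (u.flatMap q).map z) :=
        hQh.lower (by linarith)
      have hQd : LL χ S F (-(d1 + d2)) Q := hQ.mono (by linarith)
      have hQ'd : LL χ S F (-(d1 + d2)) Q' := hQ'.mono (by linarith)
      have e3 : Htp χ S ℓ (-(d1 + d2)) 1 (Q ++ (u.flatMap q).map z) (Q ++ Q') := by
        refine Htp.append_left (hQd.mem hSs hFS) (hQd.above hF0 hle) ?_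
        refine hQ'h.change ?_
        rw [one_mul, hQd.ht_zero hF0, ht_one]
        linarith
      have e12 := (e1.trans e2).trans e3
      have hQQ := hQd.append hQ'd
      have hpp : (Q ++ Q').prod = 1 := by rw [← e12.prod]; exact hp
      exact e12.trans (hQQ.null good hn0A hn0 hF0 hFS hFA hle hpp
        (hloop χ _ (hQQ.mem hSs hFS) hpp))
  · push Not at hL
    obtain ⟨t, ht1, ht0⟩ : ∃ t, π t = 1 ∧ 0 < ht χ t := by
      obtain ⟨l, hl1, hl2⟩ := hL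
      rcases lt_or_gt_of_ne hl2 with h | h
      · exact ⟨l⁻¹, by rw [map_inv, hl1, inv_one], by rw [ht_inv]; linarith⟩
      · exact ⟨l, hl1, h⟩
    let S : Set P := symcl (S0 ∪ A ∪ {t})
    have hSf : S.Finite := symcl_finite ((hS0f.union hAf).union (Set.finite_singleton t))
    have hSs : ∀ s ∈ S, s⁻¹ ∈ S := symcl_inv
    have hS0S : S0 ⊆ S := fun x hx => subset_symcl (Or.inl (Or.inl hx))
    have hAS : A ⊆ S := fun x hx => subset_symcl (Or.inl (Or.inr hx))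
    have htS : t ∈ S := subset_symcl (Or.inr rfl)
    obtain ⟨ℓ1, hℓ1⟩ := good_of hN hAf hAN hAs hA hSf hSs hAS
    obtain ⟨ℓ0, hℓ0⟩ := hS0 S hSf hS0S hSs
    obtain ⟨ℓ, hg1, hg2, hg5⟩ : ∃ ℓ : ℕ, ℓ1 ≤ ℓ ∧ ℓ0 ≤ ℓ ∧ 2 ≤ ℓ :=
      ⟨ℓ1 + ℓ0 + 2, by omega, by omega, by omega⟩
    have good := hℓ1 ℓ hg1
    obtain ⟨hgen, hloop⟩ := hℓ0 ℓ hg2
    refine ⟨S, ℓ, 0, hSf, hSs, ?_, ?_⟩
    · intro g hg
      obtain ⟨w, hw1, hw2⟩ := hgen g
      obtain ⟨w', h1, h2, h3⟩ := good.high_path hn0A hn0 hw1 (by rw [hw2]; exact hg)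
      exact ⟨w', h1, h2.trans hw2, h3.mono (by linarith)⟩
    · intro w hw hp ha
      obtain ⟨u, huA, hup, hua, hwu⟩ := good.to_A hn0A hn0 hw hp ha (hloop χ w hw hp)
      have huS : ∀ x ∈ u, x ∈ S := fun x hx => hAS (huA x hx)
      rw [neg_zero]
      exact hwu.trans (null_of_comm hg5 hSs htS ht0 huS
        (fun x hx => hcomm x (hAN x (huA x hx)) t ht1) hup hua (hloop χ u huS hup))

theorem above_map {G H : Type} [Group G] [Group H] (χ : H →* Multiplicative ℝ) (f : G →* H)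
    {c : ℝ} (w : List G) : ∀ {g : G}, Above (χ.comp f) c g w → Above χ c (f g) (w.map f) := by
  induction w with
  | nil => intro g h; exact h
  | cons x w ih =>
    intro g h
    refine ⟨h.1, ?_⟩
    have := ih h.2
    rwa [map_mul] at this

section main

variable {I : Type} [DecidableEq I] {Γ : I → Type} [∀ i, Group (Γ i)]

/-- The homotopical monoidal virtual surjection theorem in degree two. -/
theorem sig2_main (hfg : ∀ i, Group.FG (Γ i)) (hΓ : ∀ i, FPs (ZG (Γ i)) 2 (Triv (Γ i)))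
    (A : Finset I) : ∀ (P : Subgroup (∀ i, Γ i)) (χ : P →* Multiplicative ℝ),
    Group.IsFinitelyPresented P → Supp A P → HH A P → VS 2 A P →
    (∀ J : Finset I, J ⊆ A → J.card ≤ 2 → ∃ x : P, (x : ∀ i, Γ i) ∈ KJ J ∧ ht χ x ≠ 0) →
    Sig2 χ := by
  classical
  induction A using Finset.induction_on with
  | empty =>
    intro P χ _ hs _ _ hχ
    have := supp_empty hs
    obtain ⟨x, _, hx⟩ := hχ ∅ (Finset.Subset.refl _) (by simp)
    exact absurd (by rw [Subsingleton.elim x 1, ht_one]) hx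
  | insert a A ha ih =>
    intro P χ hP hs hH h hχ
    have haA := Finset.mem_insert_self a A
    have hχN : ∀ J : Finset I, J ⊆ A → J.card ≤ 1 → ∃ x : Npart a P,
        (x : ∀ i, Γ i) ∈ KJ J ∧ ht (χ.comp (iN a P)) x ≠ 0 := by
      intro J hJ hc
      have haJ : a ∉ J := fun h => ha (hJ h)
      obtain ⟨x, hx1, hx2⟩ := hχ (insert a J) (Finset.insert_subset_insert a hJ) (by
        rw [Finset.card_insert_of_notMem haJ]; omega)
      exact ⟨⟨x, x.2, hx1 a (Finset.mem_insert_self a J)⟩,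
        KJ_mono (Finset.subset_insert a J) hx1, hx2⟩
    have hN := sigma_main hfg A 1 (Npart a P) (χ.comp (iN a P)) hΓ hs.npart
      (hH.npart ha) (h.npart ha) hχN
    obtain ⟨A0, hA0f, hA0s, hA0⟩ := sig1_of_sigZ hN
    have hker : ∀ {x : P}, x ∈ (piA a P).ker → ∃ y : Npart a P, iN a P y = x :=
      fun hx => exists_iN hx
    have hTfp : Group.IsFinitelyPresented (P.map (kill a)) :=
      Group.IsFinitelyPresented.of_surjective (piT a P) (piT_surj a P)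
        (ifng_piT (by norm_num : 1 ≤ 2) hfg h hH haA)
    refine sig2_step (χ := χ) hP (piA a P).ker inferInstance (piT a P) (piT_surj a P)
      (fun n hn l hl => comm_AT hn hl) (hA0f.image (iN a P)) ?_ ?_ ?_ ?_ ?_
    · rintro _ ⟨x, _, rfl⟩
      exact iN_A x
    · rintro _ ⟨x, hx, rfl⟩
      exact ⟨x⁻¹, hA0s x hx, map_inv _ _⟩
    · intro n hn h0
      obtain ⟨y, rfl⟩ := hker hn
      obtain ⟨w, h1, h2, h3⟩ := hA0 y h0
      refine ⟨w.map (iN a P), ?_, ?_, ?_⟩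
      · intro x hx
        obtain ⟨t, ht1, rfl⟩ := List.mem_map.1 hx
        exact ⟨t, h1 t ht1, rfl⟩
      · rw [← h2, map_list_prod]
      · have := above_map χ (iN a P) w h3
        rwa [map_one] at this
    · obtain ⟨x, _, hx⟩ := hχN ∅ (Finset.empty_subset _) (by simp)
      exact ⟨iN a P x, iN_A x, hx⟩
    · intro hL
      obtain ⟨χT, hχT⟩ := exists_desc_char χ hL
      have hht : ∀ x, ht χT (piT a P x) = ht χ x := by
        intro x
        rw [ht, hχT]; rfl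
      refine ⟨χT, hht, ih (P.map (kill a)) χT hTfp hs.kill (hH.kill ha) (h.kill ha) ?_⟩
      intro J hJ hc
      obtain ⟨x, hx1, hx2⟩ := hχ J (hJ.trans (Finset.subset_insert a A)) hc
      refine ⟨piT a P x, ?_, by rw [hht]; exact hx2⟩
      intro i hi
      have hia : i ≠ a := fun e => ha (e ▸ hJ hi)
      change kill a (x : ∀ i, Γ i) i = 1
      rw [kill_ne hia]
      exact hx1 i hi

end main

end Pool.Agent.W386.M
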