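import Pool.Agent.W386.M.Main
import Pool.Agent.W386.VSC

set_option autoImplicit false

/-!
# Homological Sigma invariants of subgroups of direct products
-/

namespace Pool.Agent.W386.M

open Function

set_option linter.unusedSectionVars false

section height

variable {G : Type} [Group G]

/-- the height function of a character -/
def ht (χ : G →* Multiplicative ℝ) (g : G) : ℝ := (χ g).toAdd

theorem ht_mul (χ : G →* Multiplicative ℝ) (x y : G) : ht χ (x * y) = ht χ x + ht χ y := by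
  rw [ht, map_mul]; rfl

theorem ht_one (χ : G →* Multiplicative ℝ) : ht χ 1 = 0 := by
  rw [ht, map_one]; rfl

theorem ht_inv (χ : G →* Multiplicative ℝ) (x : G) : ht χ x⁻¹ = -ht χ x := by
  rw [ht, map_inv]; rfl

theorem ht_conj (χ : G →* Multiplicative ℝ) (x y : G) : ht χ (x * y * x⁻¹) = ht χ y := by
  rw [ht_mul, ht_mul, ht_inv]; ring

theorem ht_pow (χ : G →* Multiplicative ℝ) (x : G) (n : ℕ) : ht χ (x ^ n) = n * ht χ x := by
  induction n with
  | zero => simp [ht_one]
  | succ n ih => rw [pow_succ, ht_mul, ih]; push_cast; ring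

/-- the submonoid of elements of non-negative height -/
def Pos (χ : G →* Multiplicative ℝ) : Submonoid G where
  carrier := {g | 0 ≤ ht χ g}
  mul_mem' := by
    intro x y hx hy
    simp only [Set.mem_ofPred_eq] at hx hy ⊢
    rw [ht_mul]
    exact add_nonneg hx hy
  one_mem' := by
    simp only [Set.mem_ofPred_eq]
    rw [ht_one]

theorem mem_Pos {χ : G →* Multiplicative ℝ} {g : G} : g ∈ Pos χ ↔ 0 ≤ ht χ g := Iff.rfl

theorem exists_pos (χ : G →* Multiplicative ℝ) {n : G} (h : ht χ n ≠ 0) (x : G) :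
    ∃ m ∈ Subgroup.zpowers n, 0 ≤ ht χ (x * m) := by
  rcases lt_or_gt_of_ne h with h | h
  · obtain ⟨k, hk⟩ := Archimedean.arch (-ht χ x) (neg_pos.2 h)
    refine ⟨(n ^ k)⁻¹, inv_mem ((Subgroup.zpowers n).pow_mem (Subgroup.mem_zpowers n) k), ?_⟩
    rw [ht_mul, ht_inv, ht_pow]
    rw [nsmul_eq_mul] at hk
    linarith
  · obtain ⟨k, hk⟩ := Archimedean.arch (-ht χ x) h
    refine ⟨n ^ k, (Subgroup.zpowers n).pow_mem (Subgroup.mem_zpowers n) k, ?_⟩
    rw [ht_mul, ht_pow]
    rw [nsmul_eq_mul] at hk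
    linarith

/-- `[χ] ∈ Σⁿ(G, ℤ)`: the trivial module is of type `FP_n` over the monoid ring of `G_χ` -/
def SigZ (n : ℕ) (χ : G →* Multiplicative ℝ) : Prop :=
  FPs (ZG (Pos χ)) (n + 1) (Triv (Pos χ))

theorem FPs.one_triv (P : Type) [Monoid P] : FPs (ZG P) 1 (Triv P) := by
  refine ⟨1, (augE (MonoidHom.id P)) ∘ₗ extId.toLinearMap ∘ₗ
    (LinearEquiv.funUnique (Fin 1) (ZG P) (ZG P)).toLinearMap, ?_, trivial⟩
  have h1 : Surjective (LinearEquiv.funUnique (Fin 1) (ZG P) (ZG P)) := LinearEquiv.surjective _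
  have h2 : Surjective (extId (G := P)) := LinearEquiv.surjective _
  exact (augE_surj (MonoidHom.id P)).comp (h2.comp h1)

theorem gen_of {P H : Type} [Group P] [Group H] (f : P →* H) (hf : Surjective f) (T0 : Set P)
    (hT0 : Subgroup.closure T0 = ⊤) {Y : Type} (z : Y → P)
    (h : ∀ s ∈ T0, (∃ y, f (z y) = f s) ∧ ∃ y, f (z y) = f s⁻¹) :
    Submonoid.closure (Set.range (fun y => f (z y))) = ⊤ := by
  have h1 : ∀ x : P, f x ∈ Submonoid.closure (Set.range (fun y => f (z y))) := by
    intro x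
    have hx : x ∈ (Subgroup.closure T0).toSubmonoid := by rw [hT0]; trivial
    rw [Subgroup.closure_toSubmonoid] at hx
    induction hx using Submonoid.closure_induction with
    | mem x hx =>
      rcases hx with hx | hx
      · obtain ⟨y, hy⟩ := (h x hx).1
        rw [← hy]
        exact Submonoid.subset_closure ⟨y, rfl⟩
      · obtain ⟨y, hy⟩ := (h x⁻¹ hx).2
        rw [inv_inv] at hy
        rw [← hy]
        exact Submonoid.subset_closure ⟨y, rfl⟩
    | one => rw [map_one]; exact Submonoid.one_mem _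
    | mul x y _ _ hx hy => rw [map_mul]; exact Submonoid.mul_mem _ hx hy
  rw [eq_top_iff]
  rintro g -
  obtain ⟨x, rfl⟩ := hf g
  exact h1 x

end height

section step

variable {I : Type} [DecidableEq I] {Γ : I → Type} [∀ i, Group (Γ i)]
variable {a : I} {P : Subgroup (∀ i, Γ i)} (χ : P →* Multiplicative ℝ)

/-- the inclusion of the part with trivial `a`-coordinate -/
def iN (a : I) (P : Subgroup (∀ i, Γ i)) : Npart a P →* P := Subgroup.inclusion inf_le_left

theorem iN_A (x : Npart a P) : piA a P (iN a P x) = 1 := by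
  rw [piA_eq_one]; exact x.2.2

theorem iN_T_inj : Injective (fun x : Npart a P => piT a P (iN a P x)) := by
  intro x y hxy
  have h1 : iN a P (x * y⁻¹) = 1 := by
    refine pi_inj a P _ ?_ (iN_A _)
    rw [map_mul, map_mul, map_inv, map_inv]
    exact mul_inv_eq_one.2 hxy
  have h2 : x * y⁻¹ = 1 := by
    apply Subtype.ext
    exact congrArg (fun z : P => (z : ∀ i, Γ i)) h1
  exact mul_inv_eq_one.1 h2

theorem exists_iN {x : P} (h : piA a P x = 1) : ∃ y : Npart a P, iN a P y = x := by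
  rw [piA_eq_one] at h
  exact ⟨⟨x, x.2, h⟩, rfl⟩

theorem comm_AT {x l : P} (hx : piA a P x = 1) (hl : piT a P l = 1) : x * l = l * x := by
  have h1 : x * l * x⁻¹ * l⁻¹ = 1 := by
    apply pi_inj a P
    · simp only [map_mul, map_inv, hl]; simp
    · simp only [map_mul, map_inv, hx]; simp
  rw [mul_inv_eq_one] at h1
  exact mul_inv_eq_iff_eq_mul.1 h1

/-- the monoid inclusion -/
def jN (a : I) : Pos (χ.comp (iN a P)) →* Pos χ where
  toFun x := ⟨iN a P x, x.2⟩
  map_one' := rfl
  map_mul' x y := rfl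

theorem jN_coe (x : Pos (χ.comp (iN a P))) : ((jN χ a x : Pos χ) : P) = iN a P x := rfl

/-- closed sets contain the kernel -/
theorem closed_ker {Y : Type} (zy : Y → Pos χ) (Y2 : Set Y)
    (hgen : Submonoid.closure (Set.range (fun y => piA a P (zy y))) = ⊤)
    (S : Set P) (hS : Subgroup.normalClosure S = (piT a P).ker)
    (hS2 : ∀ s ∈ S, (∃ y ∈ Y2, (zy y : P) = s) ∨ (∃ y ∈ Y2, (zy y : P) = s⁻¹))
    (K : Set (Pos χ)) (hK : Closed zy Y2 K) (l : P) (hl : piT a P l = 1) (hp : l ∈ Pos χ) :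
    (⟨l, hp⟩ : Pos χ) ∈ K := by
  let KK : Set P := {l | piT a P l = 1 ∧ ∃ h : l ∈ Pos χ, (⟨l, h⟩ : Pos χ) ∈ K}
  have hone : (1 : P) ∈ KK := ⟨map_one _, (Pos χ).one_mem, hK.one⟩
  have hmul : ∀ x ∈ KK, ∀ y ∈ KK, x * y ∈ KK := by
    rintro x ⟨hx1, hx2, hx3⟩ y ⟨hy1, hy2, hy3⟩
    refine ⟨by rw [map_mul, hx1, hy1, one_mul], (Pos χ).mul_mem hx2 hy2, hK.mul _ hx3 _ hy3⟩
  have hconj : ∀ x : P, ∀ l ∈ KK, x * l * x⁻¹ ∈ KK := by
    have key : ∀ γ : P.map (Pi.evalMonoidHom Γ a), ∀ x : P, piA a P x = γ → ∀ l ∈ KK,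
        x * l * x⁻¹ ∈ KK := by
      intro γ
      have hγ : γ ∈ Submonoid.closure (Set.range (fun y => piA a P (zy y))) := by
        rw [hgen]; trivial
      induction hγ using Submonoid.closure_induction with
      | mem γ hγ =>
        obtain ⟨y, rfl⟩ := hγ
        intro x hx l hl
        have h1 : x * l * x⁻¹ = zy y * l * (zy y : P)⁻¹ := by
          have h2 : piA a P ((zy y : P)⁻¹ * x) = 1 := by
            rw [map_mul, map_inv, hx]; simp
          have h3 := comm_AT h2 hl.1
          have h4 : x = (zy y : P) * ((zy y : P)⁻¹ * x) := by group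
          rw [h4]
          calc (zy y : P) * ((zy y : P)⁻¹ * x) * l * ((zy y : P) * ((zy y : P)⁻¹ * x))⁻¹
              = (zy y : P) * (((zy y : P)⁻¹ * x) * l) * ((zy y : P)⁻¹ * x)⁻¹ * (zy y : P)⁻¹ := by
                group
            _ = (zy y : P) * (l * ((zy y : P)⁻¹ * x)) * ((zy y : P)⁻¹ * x)⁻¹ * (zy y : P)⁻¹ := by
                rw [h3]
            _ = zy y * l * (zy y : P)⁻¹ := by group
        rw [h1]
        obtain ⟨hl1, hl2, hl3⟩ := hl
        have hpos : (zy y : P) * l * (zy y : P)⁻¹ ∈ Pos χ := by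
          rw [mem_Pos, ht_conj]
          exact hl2
        refine ⟨?_, hpos, ?_⟩
        · rw [map_mul, map_mul, hl1, map_inv]; simp
        · refine hK.conj y ⟨l, hl2⟩ hl3 ⟨_, hpos⟩ ?_
          apply Subtype.ext
          change (zy y : P) * l * (zy y : P)⁻¹ * (zy y : P) = zy y * l
          group
      | one =>
        intro x hx l hl
        rw [comm_AT hx hl.1, mul_inv_cancel_right]
        exact hl
      | mul γ1 γ2 _ _ h1 h2 =>
        intro x hx l hl
        obtain ⟨x1, hx1⟩ := piA_surj a P γ1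
        have h3 := h2 (x1⁻¹ * x) (by rw [map_mul, map_inv, hx1, hx]; simp) l hl
        have h4 := h1 x1 hx1 _ h3
        have e : x1 * (x1⁻¹ * x * l * (x1⁻¹ * x)⁻¹) * x1⁻¹ = x * l * x⁻¹ := by group
        rwa [e] at h4
    exact fun x l hl => key _ x rfl l hl
  let GG : Subgroup P :=
    { carrier := {x | piT a P x = 1 ∧ ∃ k ∈ KK, x * k ∈ KK}
      mul_mem' := by
        rintro x y ⟨hx1, k, hk, hxk⟩ ⟨hy1, k', hk', hyk⟩
        refine ⟨by rw [map_mul, hx1, hy1, one_mul], k' * ((y * k')⁻¹ * k * (y * k')), ?_, ?_⟩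
        · refine hmul _ hk' _ ?_
          have := hconj (y * k')⁻¹ k hk
          rwa [inv_inv] at this
        · have e : x * y * (k' * ((y * k')⁻¹ * k * (y * k'))) = (x * k) * (y * k') := by group
          rw [e]
          exact hmul _ hxk _ hyk
      one_mem' := ⟨map_one _, 1, hone, by rw [one_mul]; exact hone⟩
      inv_mem' := by
        rintro x ⟨hx1, k, hk, hxk⟩
        refine ⟨by rw [map_inv, hx1, inv_one], x * k, hxk, ?_⟩
        rw [inv_mul_cancel_left]
        exact hk }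
  have hGn : GG.Normal := by
    refine ⟨fun x hx g => ?_⟩
    obtain ⟨hx1, k, hk, hxk⟩ := hx
    refine ⟨by rw [map_mul, map_mul, hx1, map_inv]; simp, g * k * g⁻¹, hconj g k hk, ?_⟩
    have e : g * x * g⁻¹ * (g * k * g⁻¹) = g * (x * k) * g⁻¹ := by group
    rw [e]
    exact hconj g _ hxk
  have hSG : S ⊆ GG := by
    intro s hs
    have hsk : piT a P s = 1 := by
      have : s ∈ (piT a P).ker := by rw [← hS]; exact Subgroup.subset_normalClosure hs
      exact this
    rcases hS2 s hs with ⟨y, hy, hys⟩ | ⟨y, hy, hys⟩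
    · refine ⟨hsk, 1, hone, ?_⟩
      rw [mul_one, ← hys]
      refine ⟨by rw [hys]; exact hsk, (zy y).2, hK.gens y hy⟩
    · have hk : s⁻¹ ∈ KK := by
        rw [← hys]
        exact ⟨by rw [hys, map_inv, hsk, inv_one], (zy y).2, hK.gens y hy⟩
      exact ⟨hsk, s⁻¹, hk, by rw [mul_inv_cancel]; exact hone⟩
  have hle : (piT a P).ker ≤ GG := by
    rw [← hS]
    exact Subgroup.normalClosure_le_normal hSG
  obtain ⟨_, k, hk, hlk⟩ := hle (show l ∈ (piT a P).ker from hl)
  obtain ⟨_, hk2, hk3⟩ := hk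
  obtain ⟨_, hlk2, hlk3⟩ := hlk
  exact hK.canc ⟨l, hp⟩ ⟨k, hk2⟩ hlk3 hk3

/-- The main step. -/
theorem step {A : Finset I} {k : ℕ} (ha : a ∈ A)
    (hfg : ∀ i, Group.FG (Γ i)) (hΓ : ∀ i, FPs (ZG (Γ i)) (k + 2) (Triv (Γ i)))
    (hH : HH A P) (h : VS (k + 1) A P)
    (hPfg : Group.FG P) (hχ : ∃ x : Npart a P, ht (χ.comp (iN a P)) x ≠ 0)
    (hN : FPs (ZG (Pos (χ.comp (iN a P)))) (k + 1) (Triv (Pos (χ.comp (iN a P)))))
    {G : Type} [Monoid G] (ε : G →* P.map (kill a)) (hε : Injective ε)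
    (π : Pos χ →* G) (hπ : Surjective π) (hεπ : ∀ x : Pos χ, ε (π x) = piT a P x)
    (hG : FPs (ZG G) (k + 2) (Triv G)) : FPs (ZG (Pos χ)) (k + 2) (Triv (Pos χ)) := by
  classical
  obtain ⟨n0, hn0⟩ := hχ
  have hn0' : ht χ (iN a P n0) ≠ 0 := hn0
  have hfi := fi_proj (by omega) h ha
  have hA : FPs (ZG (P.map (Pi.evalMonoidHom Γ a))) (k + 2)
      (Triv (P.map (Pi.evalMonoidHom Γ a))) := fps_finiteIndex _ _ (hΓ a)
  have hjb : (piA a P).ker = (iN a P).range := by
    ext x
    constructor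
    · intro hx
      obtain ⟨y, hy⟩ := exists_iN hx
      exact ⟨y, hy⟩
    · rintro ⟨y, rfl⟩
      exact iN_A y
  let M : Subgroup (P.map (kill a)) := ((piT a P).comp (iN a P)).range
  have hMe : M = (piA a P).ker.map (piT a P) := by
    rw [hjb, ← MonoidHom.range_comp]
  have hMn : M.Normal := by
    rw [hMe]
    exact Subgroup.Normal.map inferInstance _ (piT_surj a P)
  obtain ⟨D, c, hD, hDc⟩ := hH a ha
  have hTfg : Group.FG (P.map (kill a)) := Group.fg_of_surjective (piT_surj a P)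
  have hQfg : Group.FG (P.map (kill a) ⧸ M) :=
    Group.fg_of_surjective (QuotientGroup.mk'_surjective M)
  let D' : Subgroup P := D.comap ((Pi.evalMonoidHom Γ a).comp P.subtype)
  have hD' : D'.FiniteIndex := fi_comap _ _
  let D'' : Subgroup (P.map (kill a)) := D'.map (piT a P)
  have hD'' : D''.FiniteIndex := fi_map _ (piT_surj a P) _
  have hvn : Group.IsVirtuallyNilpotent (P.map (kill a) ⧸ M) := by
    refine vn_quot M D'' c ?_
    rw [← Subgroup.map_lowerCentralSeries]
    rintro _ ⟨x, hx, rfl⟩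
    have h1 : (x : ∀ i, Γ i) a ∈ D.lowerCentralSeries c := by
      have h2 : (x : ∀ i, Γ i) a ∈ (D'.lowerCentralSeries c).map
          ((Pi.evalMonoidHom Γ a).comp P.subtype) := ⟨x, hx, rfl⟩
      rw [Subgroup.map_lowerCentralSeries] at h2
      refine Subgroup.lowerCentralSeries_mono c ?_ h2
      rintro _ ⟨y, hy, rfl⟩
      exact hy
    have h3 := hDc _ h1
    let s : P := ⟨_, h3⟩
    have h4 : piT a P (x * s⁻¹) = piT a P x := by
      have : piT a P s = 1 := by
        rw [piT_eq_one]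
        funext i
        by_cases hi : i = a
        · subst hi; exact kill_same _ _
        · rw [kill_ne hi]
          exact Pi.mulSingle_eq_of_ne hi _
      rw [map_mul, map_inv, this, inv_one, mul_one]
    rw [hMe, ← h4]
    refine ⟨x * s⁻¹, ?_, rfl⟩
    change piA a P (x * s⁻¹) = 1
    rw [piA_eq_one]
    change (x : ∀ i, Γ i) a * ((Pi.mulSingle a ((x : ∀ i, Γ i) a) : ∀ i, Γ i) a)⁻¹ = 1
    rw [Pi.mulSingle_eq_same, mul_inv_cancel]
  have hQ : FPs (ZG (P.map (kill a) ⧸ M)) (k + 3) (Triv (P.map (kill a) ⧸ M)) :=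
    fps_of_vn hQfg hvn _
  -- correction of elements by `N`
  have hcorr : ∀ x : P, ∃ m : Npart a P, 0 ≤ ht χ (x * iN a P m) := by
    intro x
    obtain ⟨m, ⟨e, rfl⟩, hm⟩ := exists_pos χ hn0' x
    refine ⟨n0 ^ e, ?_⟩
    rw [map_zpow]
    exact hm
  choose cor hcor using hcorr
  obtain ⟨T0, hT0⟩ := hPfg.out
  obtain ⟨S, hSf, hS⟩ := ifng_piT (P := P) (by omega : 1 ≤ k + 1) hfg h hH ha
  have := hSf.fintype
  let Y : Type := (T0 ⊕ T0) ⊕ S
  let zP : Y → P := Sum.elim (Sum.elim (fun t => (t : P) * iN a P (cor t))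
    (fun t => (t : P)⁻¹ * iN a P (cor (t : P)⁻¹)))
    (fun s => if 0 ≤ ht χ (s : P) then (s : P) else (s : P)⁻¹)
  have hzP : ∀ y, zP y ∈ Pos χ := by
    rintro ((t | t) | s)
    · exact hcor _
    · exact hcor _
    · by_cases hs : 0 ≤ ht χ (s : P)
      · have : zP (Sum.inr s) = (s : P) := if_pos hs
        rw [this]
        exact hs
      · have : zP (Sum.inr s) = (s : P)⁻¹ := if_neg hs
        rw [this, mem_Pos, ht_inv]
        linarith [not_le.1 hs]
  let zy : Y → Pos χ := fun y => ⟨zP y, hzP y⟩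
  let Y2 : Set Y := Set.range Sum.inr
  have hgenA : Submonoid.closure (Set.range (fun y => piA a P (zy y))) = ⊤ := by
    refine gen_of (piA a P) (piA_surj a P) (T0 : Set P) hT0 zP ?_
    intro s hs
    refine ⟨⟨Sum.inl (Sum.inl ⟨s, hs⟩), ?_⟩, ⟨Sum.inl (Sum.inr ⟨s, hs⟩), ?_⟩⟩
    · change piA a P (s * iN a P (cor s)) = _
      rw [map_mul, iN_A, mul_one]
    · change piA a P (s⁻¹ * iN a P (cor s⁻¹)) = _
      rw [map_mul, iN_A, mul_one]
  let q : P →* P.map (kill a) ⧸ M := (QuotientGroup.mk' M).comp (piT a P)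
  have hq : Surjective q := (QuotientGroup.mk'_surjective M).comp (piT_surj a P)
  have hqN : ∀ x, q (iN a P x) = 1 := by
    intro x
    refine (QuotientGroup.eq_one_iff (N := M) (piT a P (iN a P x))).2 ⟨x, rfl⟩
  have hgenQ : Submonoid.closure (Set.range (fun y => q (zy y))) = ⊤ := by
    refine gen_of q hq (T0 : Set P) hT0 zP ?_
    intro s hs
    refine ⟨⟨Sum.inl (Sum.inl ⟨s, hs⟩), ?_⟩, ⟨Sum.inl (Sum.inr ⟨s, hs⟩), ?_⟩⟩
    · change q (s * iN a P (cor s)) = _
      rw [map_mul, hqN, mul_one]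
    · change q (s⁻¹ * iN a P (cor s⁻¹)) = _
      rw [map_mul, hqN, mul_one]
  have hS2 : ∀ s ∈ S, (∃ y ∈ Y2, (zy y : P) = s) ∨ (∃ y ∈ Y2, (zy y : P) = s⁻¹) := by
    intro s hs
    by_cases h0 : 0 ≤ ht χ s
    · exact Or.inl ⟨Sum.inr ⟨s, hs⟩, ⟨_, rfl⟩, if_pos h0⟩
    · exact Or.inr ⟨Sum.inr ⟨s, hs⟩, ⟨_, rfl⟩, if_neg h0⟩
  have hSker : ∀ s ∈ S, piT a P s = 1 := by
    intro s hs
    have : s ∈ (piT a P).ker := by rw [← hS]; exact Subgroup.subset_normalClosure hs
    exact this
  have hY2T : ∀ y ∈ Y2, piT a P (zy y) = 1 := by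
    rintro _ ⟨s, rfl⟩
    by_cases h0 : 0 ≤ ht χ (s : P)
    · have : (zy (Sum.inr s) : P) = s := if_pos h0
      rw [this]
      exact hSker s s.2
    · have : (zy (Sum.inr s) : P) = (s : P)⁻¹ := if_neg h0
      rw [this, map_inv, hSker s s.2, inv_one]
  have hconjN : ∀ (z : P) (n : Npart a P), ∃ n' : Npart a P, z⁻¹ * iN a P n * z = iN a P n' := by
    intro z n
    obtain ⟨y, hy⟩ := exists_iN (a := a) (P := P) (x := z⁻¹ * iN a P n * z) (by
      rw [map_mul, map_mul, iN_A, map_inv]; simp)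
    exact ⟨y, hy.symm⟩
  -- the monoid homomorphisms
  let b : Pos χ →* P.map (Pi.evalMonoidHom Γ a) := (piA a P).comp (Pos χ).subtype
  let cc : G →* P.map (kill a) ⧸ M := (QuotientGroup.mk' M).comp ε
  have hb : Surjective b := by
    intro g
    obtain ⟨x, rfl⟩ := piA_surj a P g
    refine ⟨⟨x * iN a P (cor x), hcor x⟩, ?_⟩
    change piA a P (x * iN a P (cor x)) = _
    rw [map_mul, iN_A, mul_one]
  have hcc : Surjective cc := by
    intro g
    obtain ⟨x, rfl⟩ := hq g
    refine ⟨π ⟨x * iN a P (cor x), hcor x⟩, ?_⟩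
    change QuotientGroup.mk' M (ε (π _)) = _
    rw [hεπ]
    change q (x * iN a P (cor x)) = _
    rw [map_mul, hqN, mul_one]
  have hjinj : ∀ p : Pos χ, Injective fun n => p * jN χ a n := by
    intro p x y hxy
    have h1 : (p : P) * iN a P x = p * iN a P y := congrArg (fun z : Pos χ => (z : P)) hxy
    have h2 := mul_left_cancel h1
    apply Subtype.ext
    exact iN_T_inj (congrArg (piT a P) h2)
  have hjG : ∀ g : G, Injective fun n => g * π (jN χ a n) := by
    intro g x y hxy
    have h1 : ε g * piT a P (iN a P x) = ε g * piT a P (iN a P y) := by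
      have := congrArg ε hxy
      simp only [map_mul, hεπ] at this
      exact this
    have h2 := mul_left_cancel h1
    apply Subtype.ext
    exact iN_T_inj h2
  have hCb : Comp (jN χ a) b := by
    refine ⟨?_, ?_⟩
    · intro p n
      change piA a P ((p : P) * iN a P n) = piA a P p
      rw [map_mul, iN_A, mul_one]
    · intro p r hpr
      have hpr' : piA a P (p : P) = piA a P (r : P) := hpr
      obtain ⟨y, hy⟩ := exists_iN (a := a) (P := P) (x := (r : P)⁻¹ * p) (by
        rw [map_mul, map_inv, hpr']; simp)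
      by_cases h0 : 0 ≤ ht χ (iN a P y)
      · refine ⟨⟨y, h0⟩, Or.inl ?_⟩
        apply Subtype.ext
        change (p : P) = r * iN a P y
        rw [hy]; group
      · have h1 : 0 ≤ ht χ (iN a P y⁻¹) := by
          rw [map_inv, ht_inv]; linarith [not_le.1 h0]
        refine ⟨⟨y⁻¹, h1⟩, Or.inr ?_⟩
        apply Subtype.ext
        change (r : P) = p * iN a P y⁻¹
        rw [map_inv, hy]; group
  have hCc : Comp (π.comp (jN χ a)) cc := by
    refine ⟨?_, ?_⟩
    · intro p n
      change QuotientGroup.mk' M (ε (p * π (jN χ a n))) = QuotientGroup.mk' M (ε p)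
      rw [map_mul, hεπ, map_mul]
      have := hqN n
      change QuotientGroup.mk' M (ε p) * q (iN a P n) = _
      rw [this, mul_one]
    · intro p r hpr
      have hpr' : (QuotientGroup.mk (ε r) : P.map (kill a) ⧸ M) = QuotientGroup.mk (ε p) :=
        hpr.symm
      rw [QuotientGroup.eq] at hpr'
      obtain ⟨y, hy⟩ := hpr'
      have hy' : piT a P (iN a P y) = (ε r)⁻¹ * ε p := hy
      by_cases h0 : 0 ≤ ht χ (iN a P y)
      · refine ⟨⟨y, h0⟩, Or.inl ?_⟩
        apply hε
        change ε p = ε (r * π (jN χ a _))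
        rw [map_mul, hεπ]
        change ε p = ε r * piT a P (iN a P y)
        rw [hy']; group
      · have h1 : 0 ≤ ht χ (iN a P y⁻¹) := by
          rw [map_inv, ht_inv]; linarith [not_le.1 h0]
        refine ⟨⟨y⁻¹, h1⟩, Or.inr ?_⟩
        apply hε
        change ε r = ε (p * π (jN χ a _))
        rw [map_mul, hεπ]
        change ε r = ε p * piT a P (iN a P y⁻¹)
        rw [map_inv, map_inv, hy']; group
  refine main_mono (jN χ a) π b cc hπ hb hcc hjinj hjG hCb hCc zy ?_ Y2 ?_ ?_ ?_ ?_ k hN hG hQ hA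
  · intro y n
    obtain ⟨n', hn'⟩ := hconjN (zy y) n
    have h0 : 0 ≤ ht χ (iN a P n') := by
      rw [← hn', ht_mul, ht_mul, ht_inv]
      have : 0 ≤ ht χ (iN a P n) := n.2
      linarith
    refine ⟨⟨n', h0⟩, ?_⟩
    apply Subtype.ext
    change iN a P n * (zy y : P) = zy y * iN a P n'
    rw [← hn']; group
  · intro y hy
    apply hε
    rw [hεπ, map_one]
    exact hY2T y hy
  · intro y hy n
    apply Subtype.ext
    exact (comm_AT (iN_A n) (hY2T y hy)).symm
  · intro K hK p r hpr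
    have hpr' : piT a P (p : P) = piT a P (r : P) := by
      rw [← hεπ, ← hεπ, hpr]
    by_cases h0 : 0 ≤ ht χ ((r : P)⁻¹ * p)
    · refine ⟨⟨_, h0⟩, closed_ker χ zy Y2 hgenA S hS hS2 K hK _ ?_ h0, Or.inl ?_⟩
      · rw [map_mul, map_inv, hpr']; simp
      · apply Subtype.ext
        change (p : P) = r * ((r : P)⁻¹ * p)
        group
    · have h1 : 0 ≤ ht χ ((p : P)⁻¹ * r) := by
        have h2 := not_le.1 h0
        rw [ht_mul, ht_inv] at h2 ⊢
        linarith
      refine ⟨⟨_, h1⟩, closed_ker χ zy Y2 hgenA S hS hS2 K hK _ ?_ h1, Or.inr ?_⟩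
      · rw [map_mul, map_inv, hpr']; simp
      · apply Subtype.ext
        change (r : P) = p * ((p : P)⁻¹ * r)
        group
  · have : (fun y => cc (π (zy y))) = fun y => q (zy y) := by
      funext y
      change QuotientGroup.mk' M (ε (π _)) = _
      rw [hεπ]
      rfl
    rw [this]
    exact hgenQ

/-- a character trivial on the kernel descends -/
theorem exists_desc_char (hL : ∀ l : P, piT a P l = 1 → ht χ l = 0) :
    ∃ χT : P.map (kill a) →* Multiplicative ℝ, ∀ x, χT (piT a P x) = χ x := by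
  choose r hr using piT_surj a P
  have key : ∀ x y : P, piT a P x = piT a P y → χ x = χ y := by
    intro x y hxy
    have h1 := hL (x * y⁻¹) (by rw [map_mul, map_inv, hxy]; simp)
    have h2 : ht χ x = ht χ y := by
      rw [ht_mul, ht_inv] at h1
      linarith
    exact h2
  refine ⟨MonoidHom.mk' (fun t => χ (r t)) ?_, ?_⟩
  · intro s t
    rw [← map_mul]
    apply key
    rw [map_mul, hr, hr, hr]
  · intro x
    exact key _ _ (hr _)

end step

section main

variable {I : Type} [DecidableEq I] {Γ : I → Type} [∀ i, Group (Γ i)]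

/-- The homological monoidal virtual surjection theorem. -/
theorem sigma_main (hfg : ∀ i, Group.FG (Γ i)) (A : Finset I) : ∀ (k : ℕ)
    (P : Subgroup (∀ i, Γ i)) (χ : P →* Multiplicative ℝ),
    (∀ i, FPs (ZG (Γ i)) (k + 1) (Triv (Γ i))) →
    Supp A P → HH A P → VS k A P →
    (∀ J : Finset I, J ⊆ A → J.card ≤ k → ∃ x : P, (x : ∀ i, Γ i) ∈ KJ J ∧ ht χ x ≠ 0) →
    SigZ k χ := by
  induction A using Finset.induction_on with
  | empty =>
    intro k P χ _ hs _ _ hχ
    have := supp_empty hs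
    obtain ⟨x, _, hx⟩ := hχ ∅ (Finset.Subset.refl _) (by simp)
    exact absurd (by rw [Subsingleton.elim x 1, ht_one]) hx
  | insert a A ha ih =>
    intro k P χ hΓ hs hH h hχ
    cases k with
    | zero => exact FPs.one_triv _
    | succ k =>
      have haA := Finset.mem_insert_self a A
      have hPfg : Group.FG P := vs_fg hfg (insert a A) P hs hH (h.mono (by omega))
      have hχN : ∀ J : Finset I, J ⊆ A → J.card ≤ k → ∃ x : Npart a P,
          (x : ∀ i, Γ i) ∈ KJ J ∧ ht (χ.comp (iN a P)) x ≠ 0 := by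
        intro J hJ hc
        have haJ : a ∉ J := fun h => ha (hJ h)
        obtain ⟨x, hx1, hx2⟩ := hχ (insert a J) (Finset.insert_subset_insert a hJ) (by
          rw [Finset.card_insert_of_notMem haJ]; omega)
        exact ⟨⟨x, x.2, hx1 a (Finset.mem_insert_self a J)⟩,
          KJ_mono (Finset.subset_insert a J) hx1, hx2⟩
      have hN := ih k (Npart a P) (χ.comp (iN a P)) (fun i => (hΓ i).mono) hs.npart
        (hH.npart ha) (h.npart ha) hχN
      have hχ0 : ∃ x : Npart a P, ht (χ.comp (iN a P)) x ≠ 0 := by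
        obtain ⟨x, _, hx⟩ := hχN ∅ (Finset.empty_subset _) (by simp)
        exact ⟨x, hx⟩
      by_cases hL : ∀ l : P, piT a P l = 1 → ht χ l = 0
      · obtain ⟨χT, hχT⟩ := exists_desc_char χ hL
        have hht : ∀ x, ht χT (piT a P x) = ht χ x := by
          intro x
          rw [ht, hχT]; rfl
        have hT := ih (k + 1) (P.map (kill a)) χT hΓ hs.kill (hH.kill ha) (h.kill ha) (by
          intro J hJ hc
          obtain ⟨x, hx1, hx2⟩ := hχ J (hJ.trans (Finset.subset_insert a A)) hc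
          refine ⟨piT a P x, ?_, by rw [hht]; exact hx2⟩
          intro i hi
          have hia : i ≠ a := fun e => ha (e ▸ hJ hi)
          change kill a (x : ∀ i, Γ i) i = 1
          rw [kill_ne hia]
          exact hx1 i hi)
        let π : Pos χ →* Pos χT :=
          { toFun := fun x => ⟨piT a P x, by rw [mem_Pos, hht]; exact x.2⟩
            map_one' := by
              apply Subtype.ext
              exact map_one _
            map_mul' := fun x y => by
              apply Subtype.ext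
              exact map_mul _ _ _ }
        refine step χ haA hfg hΓ hH h hPfg hχ0 hN (Pos χT).subtype Subtype.val_injective π ?_
          (fun x => rfl) hT
        rintro ⟨t, ht'⟩
        obtain ⟨x, rfl⟩ := piT_surj a P t
        refine ⟨⟨x, ?_⟩, rfl⟩
        rw [mem_Pos, ← hht]
        exact ht'
      · push Not at hL
        obtain ⟨l, hl1, hl2⟩ := hL
        have hT := vs_main hfg A (k + 1) (P.map (kill a)) hΓ hs.kill (hH.kill ha) (h.kill ha)
        refine step χ haA hfg hΓ hH h hPfg hχ0 hN (MonoidHom.id (P.map (kill a)))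
          (fun x y h => h) ((piT a P).comp (Pos χ).subtype) ?_ (fun x => rfl) hT
        intro t
        obtain ⟨x, rfl⟩ := piT_surj a P t
        obtain ⟨m, ⟨e, rfl⟩, hm⟩ := exists_pos χ hl2 x
        refine ⟨⟨x * l ^ e, hm⟩, ?_⟩
        change piT a P (x * l ^ e) = _
        rw [map_mul, map_zpow, hl1, one_zpow, mul_one]

end main

end Pool.Agent.W386.M
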