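import Pool.Agent.W386.M.Ind
import Pool.Agent.W386.Transfer

set_option autoImplicit false

/-!
# Transfer of finiteness, for monoids
-/

namespace Pool.Agent.W386.M

open Function

section tools

variable {P : Type} [Monoid P]

/-- the linear map with given values on the basis -/
noncomputable def lin {A : Type} [AddCommGroup A] [Module (ZG P) A] {k : ℕ} (v : Fin k → A) :
    (Fin k → ZG P) →ₗ[ZG P] A := Fintype.linearCombination (ZG P) v

theorem lin_single {A : Type} [AddCommGroup A] [Module (ZG P) A] {k : ℕ} (v : Fin k → A)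
    (s : Fin k) : lin v (Pi.single s (1 : ZG P)) = v s := by
  rw [lin, Fintype.linearCombination_apply_single, one_smul]

theorem lin_ext {A : Type} [AddCommGroup A] [Module (ZG P) A] {k : ℕ}
    {f g : (Fin k → ZG P) →ₗ[ZG P] A} (h : ∀ s, f (Pi.single s 1) = g (Pi.single s 1)) :
    f = g := by
  apply LinearMap.pi_ext'
  intro s
  apply LinearMap.ext_ring
  exact h s

theorem free_single {N : Type} [Monoid N] (j : N →* P) {k : ℕ} (s : Fin k) :
    freeHom j k (Pi.single s 1) = Pi.single s 1 := by
  funext t
  rw [freeHom_apply]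
  by_cases h : t = s
  · subst h
    simp
  · simp [h]

/-- generation of free modules over `ℤN` -/
theorem free_induction {N : Type} [Monoid N] {k : ℕ} (S : AddSubgroup (Fin k → ZG N))
    (h : ∀ (n : N) (s : Fin k), act n (Pi.single s 1 : Fin k → ZG N) ∈ S) (x : Fin k → ZG N) :
    x ∈ S := by
  classical
  rw [← Finset.univ_sum_single x]
  refine S.sum_mem fun s _ => ?_
  let T : AddSubgroup (ZG N) :=
    { carrier := {r | (Pi.single s r : Fin k → ZG N) ∈ S}
      add_mem' := by
        intro x y hx hy
        simp only [Set.mem_ofPred_eq] at hx hy ⊢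
        rw [Pi.single_add]
        exact S.add_mem hx hy
      zero_mem' := by simp
      neg_mem' := by
        intro x hx
        simp only [Set.mem_ofPred_eq] at hx ⊢
        rw [Pi.single_neg]
        exact S.neg_mem hx }
  refine zg_induction T (fun p => ?_) (x s)
  have := h p s
  change (Pi.single s (MonoidAlgebra.of ℤ N p) : Fin k → ZG N) ∈ S
  convert this using 1
  funext t
  rw [act_apply]
  by_cases h : t = s
  · subst h
    simp
  · simp [h]

end tools

section transfer

variable {N P G Γ Q : Type} [Monoid N] [Monoid P] [Monoid G]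

/-- one level of the induction: the cover and the lifted operators -/
theorem cover_step {j : N →* P} {b : P → Γ} (hj : ∀ p, Injective fun n => p * j n)
    (hC : Comp j b) {M A : Type} [AddCommGroup M]
    [Module (ZG N) M] [AddCommGroup A] [Module (ZG P) A] {ι : M →+ A} (hι : IsInd j b ι)
    {k : ℕ} (f : (Fin k → ZG N) →ₗ[ZG N] M) (hf : Surjective f) :
    ∃ F : (Fin k → ZG P) →ₗ[ZG P] A, Surjective F ∧ ∀ c, F (freeHom j k c) = ι (f c) := by
  have key : ∀ c, lin (fun s => ι (f (Pi.single s 1))) (freeHom j k c) = ι (f c) := by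
    intro c
    let S : AddSubgroup (Fin k → ZG N) :=
      { carrier := {c | lin (fun s => ι (f (Pi.single s 1))) (freeHom j k c) = ι (f c)}
        add_mem' := by
          intro x y hx hy
          simp only [Set.mem_ofPred_eq] at hx hy ⊢
          rw [map_add, map_add, map_add, map_add, hx, hy]
        zero_mem' := by simp
        neg_mem' := by
          intro x hx
          simp only [Set.mem_ofPred_eq] at hx ⊢
          rw [map_neg, map_neg, map_neg, map_neg, hx] }
    refine free_induction S ?_ c
    intro n s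
    change lin (fun s => ι (f (Pi.single s 1))) (freeHom j k (act n (Pi.single s 1))) =
      ι (f (act n (Pi.single s 1)))
    rw [(isInd_free j b hj hC k).map, map_act, free_single, lin_single, map_act, hι.map]
  refine ⟨lin (fun s => ι (f (Pi.single s 1))), ?_, key⟩
  intro a
  refine hι.gen (lin (P := P) (fun s => ι (f (Pi.single s 1)))).toAddMonoidHom.range ?_ a
  intro p m
  obtain ⟨c, rfl⟩ := hf m
  refine ⟨act p (freeHom j k c), ?_⟩
  change (lin (P := P) (fun s => ι (f (Pi.single s 1)))) (act p (freeHom j k c)) = _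
  rw [map_act, key]

/-- closed sets of elements acting trivially -/
structure Closed {Y : Type} (zy : Y → P) (Y2 : Set Y) (K : Set P) : Prop where
  one : (1 : P) ∈ K
  mul : ∀ x ∈ K, ∀ y ∈ K, x * y ∈ K
  gens : ∀ y ∈ Y2, zy y ∈ K
  conj : ∀ y, ∀ l ∈ K, ∀ u, u * zy y = zy y * l → u ∈ K
  canc : ∀ u v, u * v ∈ K → v ∈ K → u ∈ K

/-- The base of the induction. -/
theorem transfer_zero {j : N →* P} {b : P → Γ} {π : P →* G} {c : G → Q} (hπ : Surjective π)
    (hCb : Comp j b) (hCc : Comp (π.comp j) c)
    {Y : Type} [Fintype Y] (zy : Y → P)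
    (Y2 : Set Y)
    (hK : ∀ K : Set P, Closed zy Y2 K → ∀ p q, π p = π q → ∃ k ∈ K, p = q * k ∨ q = p * k)
    {M A B : Type} [AddCommGroup M] [Module (ZG N) M] [AddCommGroup A] [Module (ZG P) A]
    [AddCommGroup B] [Module (ZG G) B] {ι : M →+ A} {κ : M →+ B}
    (hι : IsInd j b ι) (hκ : IsInd (π.comp j) c κ)
    (ρ : Y → A →ₗ[ZG P] A) (θ : Y → B →ₗ[ZG G] B)
    (hop : ∀ y m, ∃ m', ρ y (ι m) = act (zy y) (ι m') ∧ θ y (κ m) = act (π (zy y)) (κ m'))
    (hop2 : ∀ y ∈ Y2, ∀ m, ρ y (ι m) = act (zy y) (ι m))
    (h : SFP 0 (opmap θ)) : SFP 0 (opmap ρ) := by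
  obtain ⟨k, g, hg, -⟩ := h
  -- lifts of the generators
  obtain ⟨ψ, hψ⟩ := hι.exists_desc hCb (fun p => (actHom (π p)).comp κ) (by
    intro p n m
    simp only [AddMonoidHom.comp_apply, actHom_apply, map_mul, act_mul]
    rw [hκ.map]
    rfl)
  have hψ' : ∀ p m, ψ (act p (ι m)) = act (π p) (κ m) := hψ
  have hψs : Surjective ψ := by
    intro b
    refine hκ.gen ψ.range ?_ b
    intro q m
    obtain ⟨p, rfl⟩ := hπ q
    exact ⟨act p (ι m), hψ' p m⟩
  choose d hd using fun s : Fin k => hψs (g (Pi.single s 1))
  refine ⟨k, lin d, ?_, trivial⟩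
  set S : Submodule (ZG P) A := LinearMap.range ((opmap ρ).coprod (lin d)) with hS
  rw [← LinearMap.range_eq_top, ← hS]
  have hρS : ∀ y a, ρ y a - a ∈ S := by
    intro y a
    classical
    refine ⟨(Pi.single y a, 0), ?_⟩
    rw [LinearMap.coprod_apply, opmap_apply, map_zero, add_zero,
      Finset.sum_eq_single y]
    · simp
    · intro z _ hz
      simp [hz]
    · simp
  have hdS : ∀ s, d s ∈ S := by
    intro s
    refine ⟨(0, Pi.single s 1), ?_⟩
    rw [LinearMap.coprod_apply, map_zero, zero_add, lin_single]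
  -- the set of the elements acting trivially
  let KS : Set P := {p | ∀ m, act p (ι m) - ι m ∈ S}
  have hKS : ∀ p, p ∈ KS ↔ ∀ m, act p (ι m) - ι m ∈ S := fun p => Iff.rfl
  have hcl : Closed zy Y2 KS := by
    refine ⟨?_, ?_, ?_, ?_, ?_⟩
    · intro m
      rw [act_one, sub_self]
      exact S.zero_mem
    · intro x hx y hy m
      have h1 := act_mem S x (hy m)
      have h2 := S.add_mem h1 (hx m)
      rw [act_sub, ← act_mul, sub_add_sub_cancel] at h2
      exact h2
    · intro y hy m
      rw [← hop2 y hy m]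
      exact hρS y (ι m)
    · intro y l hl u hu
      rw [hKS] at hl ⊢
      intro m
      obtain ⟨m', h1, -⟩ := hop y m
      set x := act u (ι m) with hx
      have e1 : ρ y x = act (zy y) (act l (ι m')) := by
        rw [hx, map_act, h1, ← act_mul, ← act_mul, hu]
      have e2 : ρ y x - x ∈ S := hρS y x
      have e3 : act (zy y) (act l (ι m')) - act (zy y) (ι m') ∈ S := by
        rw [← act_sub]
        exact act_mem S _ (hl m')
      have e4 : ρ y (ι m) - ι m ∈ S := hρS y (ι m)
      rw [e1] at e2
      rw [h1] at e4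
      have e5 := S.add_mem (S.sub_mem e3 e2) e4
      have e6 : act (zy y) (act l (ι m')) - act (zy y) (ι m') -
          (act (zy y) (act l (ι m')) - x) + (act (zy y) (ι m') - ι m) = x - ι m := by abel
      rwa [e6] at e5
    · intro u v huv hv m
      have h1 := huv m
      have h2 := act_mem S u (hv m)
      rw [act_sub, ← act_mul] at h2
      have h3 := S.sub_mem h1 h2
      rwa [sub_sub_sub_cancel_left] at h3
  -- elements with the same image
  have hsame : ∀ p q : P, π p = π q → ∀ m, S.mkQ (act p (ι m)) = S.mkQ (act q (ι m)) := by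
    intro p q hpq m
    obtain ⟨l, hl, h1 | h1⟩ := hK KS hcl p q hpq
    · rw [h1, act_mul, ← sub_eq_zero, ← map_sub, ← act_sub, Submodule.mkQ_apply,
        Submodule.Quotient.mk_eq_zero]
      exact act_mem S q (hl m)
    · rw [h1, act_mul, eq_comm, ← sub_eq_zero, ← map_sub, ← act_sub, Submodule.mkQ_apply,
        Submodule.Quotient.mk_eq_zero]
      exact act_mem S p (hl m)
  obtain ⟨lft, hlft⟩ := hπ.hasRightInverse
  -- the map from `B`
  obtain ⟨D, hD⟩ := hκ.exists_desc hCc (X := A ⧸ S)
    (fun q => (S.mkQ.toAddMonoidHom.comp (actHom (lft q))).comp ι) (by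
    intro q n m
    simp only [AddMonoidHom.comp_apply, actHom_apply, LinearMap.toAddMonoidHom_coe]
    rw [hι.map, ← act_mul]
    apply hsame
    rw [hlft, map_mul, hlft]
    rfl)
  have hD' : ∀ p m, D (act (π p) (κ m)) = S.mkQ (act p (ι m)) := by
    intro p m
    rw [hD]
    apply hsame
    exact hlft _
  have hDact : ∀ (p : P) (b : B), D (act (π p) b) = act p (D b) := by
    intro p b
    let T : AddSubgroup B :=
      { carrier := {b | D (act (π p) b) = act p (D b)}
        add_mem' := by
          intro x z hx hz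
          simp only [Set.mem_ofPred_eq] at hx hz ⊢
          rw [act_add, map_add, map_add, act_add, hx, hz]
        zero_mem' := by
          simp only [Set.mem_ofPred_eq]
          rw [act_zero, map_zero, act_zero]
        neg_mem' := by
          intro x hx
          simp only [Set.mem_ofPred_eq] at hx ⊢
          rw [act_neg, map_neg, map_neg, act_neg, hx] }
    refine hκ.gen T ?_ b
    intro q m
    obtain ⟨q, rfl⟩ := hπ q
    change D (act (π p) (act (π q) (κ m))) = act p (D (act (π q) (κ m)))
    rw [← act_mul, ← map_mul, hD', hD', act_mul, map_act]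
  have hDθ : ∀ y b, D (θ y b) = D b := by
    intro y b
    let T : AddSubgroup B :=
      { carrier := {b | D (θ y b) = D b}
        add_mem' := by
          intro x z hx hz
          simp only [Set.mem_ofPred_eq] at hx hz ⊢
          rw [map_add, map_add, map_add, hx, hz]
        zero_mem' := by simp
        neg_mem' := by
          intro x hx
          simp only [Set.mem_ofPred_eq] at hx ⊢
          rw [map_neg, map_neg, map_neg, hx] }
    refine hκ.gen T ?_ b
    intro q m
    obtain ⟨q, rfl⟩ := hπ q
    change D (θ y (act (π q) (κ m))) = D (act (π q) (κ m))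
    obtain ⟨m', h1, h2⟩ := hop y m
    have h3 : ∀ m, D (κ m) = S.mkQ (ι m) := by
      intro m
      have := hD' 1 m
      rwa [map_one, act_one, act_one] at this
    rw [map_act, h2, hDact, hDact, hDact, h3, h3, ← map_act S.mkQ (zy y), ← h1]
    congr 1
    rw [← sub_eq_zero, ← map_sub, Submodule.mkQ_apply, Submodule.Quotient.mk_eq_zero]
    exact hρS y (ι m)
  have hDψ : ∀ a, D (ψ a) = S.mkQ a := by
    intro a
    let T : AddSubgroup A :=
      { carrier := {a | D (ψ a) = S.mkQ a}
        add_mem' := by
          intro x z hx hz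
          simp only [Set.mem_ofPred_eq] at hx hz ⊢
          rw [map_add, map_add, map_add, hx, hz]
        zero_mem' := by simp
        neg_mem' := by
          intro x hx
          simp only [Set.mem_ofPred_eq] at hx ⊢
          rw [map_neg, map_neg, map_neg, hx] }
    refine hι.gen T ?_ a
    intro p m
    change D (ψ (act p (ι m))) = S.mkQ (act p (ι m))
    rw [hψ', hD']
  have hD0 : ∀ b, D b = 0 := by
    intro b
    obtain ⟨⟨x, v⟩, hxv⟩ := hg b
    rw [← hxv, LinearMap.coprod_apply, map_add]
    have h1 : D (opmap θ x) = 0 := by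
      rw [opmap_apply, map_sum]
      refine Finset.sum_eq_zero fun y _ => ?_
      rw [map_sub, hDθ, sub_self]
    have h2 : D (g v) = 0 := by
      let T : AddSubgroup (Fin k → ZG G) :=
        { carrier := {v | D (g v) = 0}
          add_mem' := by
            intro x z hx hz
            simp only [Set.mem_ofPred_eq] at hx hz ⊢
            rw [map_add, map_add, hx, hz, add_zero]
          zero_mem' := by simp
          neg_mem' := by
            intro x hx
            simp only [Set.mem_ofPred_eq] at hx ⊢
            rw [map_neg, map_neg, hx, neg_zero] }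
      refine free_induction T ?_ v
      intro q s
      obtain ⟨q, rfl⟩ := hπ q
      change D (g (act (π q) (Pi.single s 1))) = 0
      rw [map_act, hDact, ← hd, hDψ]
      have : S.mkQ (d s) = 0 := by
        rw [Submodule.mkQ_apply, Submodule.Quotient.mk_eq_zero]
        exact hdS s
      rw [this, act_zero]
    rw [h1, h2, add_zero]
  rw [eq_top_iff]
  intro a _
  have := hDψ a
  rw [hD0] at this
  exact (Submodule.Quotient.mk_eq_zero S).1 this.symm

/-- induction preserves partial resolutions -/
theorem FPs.ind {j : N →* P} {b : P → Γ} (hj : ∀ p, Injective fun n => p * j n)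
    (hC : Comp j b) (m : ℕ) : ∀ {M A : Type} [AddCommGroup M]
    [Module (ZG N) M] [AddCommGroup A] [Module (ZG P) A] {ι : M →+ A}, IsInd j b ι →
    FPs (ZG N) m M → FPs (ZG P) m A := by
  induction m with
  | zero => intros; trivial
  | succ m ih =>
    intro M A _ _ _ _ ι hι hM
    obtain ⟨k, f, hf, h⟩ := hM
    obtain ⟨F, hF, hFf⟩ := cover_step hj hC hι f hf
    exact ⟨k, F, hF, ih (hι.ker hC (isInd_free j b hj hC k) f F hFf) h⟩

/-- The transfer theorem. -/
theorem transfer {j : N →* P} {b : P → Γ} {π : P →* G} {c : G → Q} (hπ : Surjective π)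
    (hj : ∀ p, Injective fun n => p * j n) (hjG : ∀ g, Injective fun n => g * π (j n))
    (hCb : Comp j b) (hCc : Comp (π.comp j) c)
    {Y : Type} [Fintype Y] (zy : Y → P)
    (hnorm : ∀ y n, ∃ n', j n * zy y = zy y * j n')
    (Y2 : Set Y) (hY2 : ∀ y ∈ Y2, π (zy y) = 1) (hcomm : ∀ y ∈ Y2, ∀ n, zy y * j n = j n * zy y)
    (hK : ∀ K : Set P, Closed zy Y2 K → ∀ p q, π p = π q → ∃ k ∈ K, p = q * k ∨ q = p * k)
    (m : ℕ) :
    ∀ {M A B : Type} [AddCommGroup M] [Module (ZG N) M] [AddCommGroup A] [Module (ZG P) A]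
    [AddCommGroup B] [Module (ZG G) B] {ι : M →+ A} {κ : M →+ B}
    (_ : IsInd j b ι) (_ : IsInd (π.comp j) c κ)
    (ρ : Y → A →ₗ[ZG P] A) (θ : Y → B →ₗ[ZG G] B)
    (_ : ∀ y m, ∃ m', ρ y (ι m) = act (zy y) (ι m') ∧ θ y (κ m) = act (π (zy y)) (κ m'))
    (_ : ∀ y ∈ Y2, ∀ m, ρ y (ι m) = act (zy y) (ι m) ∧ θ y (κ m) = κ m)
    (_ : FPs (ZG N) m M) (_ : SFP m (opmap θ)), SFP m (opmap ρ) := by
  induction m with
  | zero =>
    intro M A B _ _ _ _ _ _ ι κ hι hκ ρ θ hop hop2 _ h
    exact transfer_zero hπ hCb hCc zy Y2 hK hι hκ ρ θ hop (fun y hy m => (hop2 y hy m).1) h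
  | succ m ih =>
    intro M A B _ _ _ _ _ _ ι κ hι hκ ρ θ hop hop2 hM h
    classical
    obtain ⟨k, f, hf, hM⟩ := hM
    obtain ⟨FA, hFA, hFAf⟩ := cover_step hj hCb hι f hf
    obtain ⟨FB, hFB, hFBf⟩ := cover_step (j := π.comp j) hjG hCc hκ f hf
    -- the values of the lifts on the basis
    have hv : ∀ (y : Y) (s : Fin k), ∃ v : Fin k → ZG N,
        ρ y (ι (f (Pi.single s 1))) = act (zy y) (ι (f v)) ∧
        θ y (κ (f (Pi.single s 1))) = act (π (zy y)) (κ (f v)) ∧
        (y ∈ Y2 → v = Pi.single s 1) := by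
      intro y s
      by_cases hy : y ∈ Y2
      · refine ⟨Pi.single s 1, (hop2 y hy _).1, ?_, fun _ => rfl⟩
        rw [(hop2 y hy _).2, hY2 y hy, act_one]
      · obtain ⟨m', h1, h2⟩ := hop y (f (Pi.single s 1))
        obtain ⟨v, rfl⟩ := hf m'
        exact ⟨v, h1, h2, fun h => absurd h hy⟩
    choose v hv1 hv2 hv3 using hv
    let ρt : Y → (Fin k → ZG P) →ₗ[ZG P] (Fin k → ZG P) := fun y =>
      lin (fun s => act (zy y) (freeHom j k (v y s)))
    let θt : Y → (Fin k → ZG G) →ₗ[ZG G] (Fin k → ZG G) := fun y =>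
      lin (fun s => act (π (zy y)) (freeHom (π.comp j) k (v y s)))
    have hρt : ∀ y s, ρt y (Pi.single s 1) = act (zy y) (freeHom j k (v y s)) :=
      fun y s => lin_single _ _
    have hθt : ∀ y s, θt y (Pi.single s 1) =
        act (π (zy y)) (freeHom (π.comp j) k (v y s)) := fun y s => lin_single _ _
    have hFe : ∀ s, FA (Pi.single s 1) = ι (f (Pi.single s 1)) := fun s => by
      rw [← hFAf, free_single]
    have hGe : ∀ s, FB (Pi.single s 1) = κ (f (Pi.single s 1)) := fun s => by
      rw [← hFBf, free_single]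
    have hcA : ∀ y x, FA (ρt y x) = ρ y (FA x) := by
      intro y x
      have : FA ∘ₗ ρt y = ρ y ∘ₗ FA := by
        apply lin_ext
        intro s
        rw [LinearMap.comp_apply, LinearMap.comp_apply, hρt, map_act, hFAf, hFe, hv1]
      exact LinearMap.congr_fun this x
    have hcB : ∀ y x, FB (θt y x) = θ y (FB x) := by
      intro y x
      have : FB ∘ₗ θt y = θ y ∘ₗ FB := by
        apply lin_ext
        intro s
        rw [LinearMap.comp_apply, LinearMap.comp_apply, hθt, map_act, hFBf, hGe, hv2]
      exact LinearMap.congr_fun this x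
    let ρ' : Y → LinearMap.ker FA →ₗ[ZG P] LinearMap.ker FA := fun y =>
      (ρt y ∘ₗ (LinearMap.ker FA).subtype).codRestrict _ (by
        rintro ⟨x, hx⟩
        rw [LinearMap.mem_ker] at hx ⊢
        change FA (ρt y x) = 0
        rw [hcA, hx, map_zero])
    let θ' : Y → LinearMap.ker FB →ₗ[ZG G] LinearMap.ker FB := fun y =>
      (θt y ∘ₗ (LinearMap.ker FB).subtype).codRestrict _ (by
        rintro ⟨x, hx⟩
        rw [LinearMap.mem_ker] at hx ⊢
        change FB (θt y x) = 0
        rw [hcB, hx, map_zero])
    have hρ' : ∀ y x, (ρ' y x : Fin k → ZG P) = ρt y x := fun y x => rfl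
    have hθ' : ∀ y x, (θ' y x : Fin k → ZG G) = θt y x := fun y x => rfl
    rw [SFP.shift_op (FGF.fin k) FA hFA ρ ρt hcA ρ' hρ']
    rw [SFP.shift_op (FGF.fin k) FB hFB θ θt hcB θ' hθ'] at h
    have hiA := isInd_free j b hj hCb k
    have hiB := isInd_free (π.comp j) c hjG hCc k
    -- the operators on the free modules
    have hopt : ∀ (y : Y) (x : Fin k → ZG N), ∃ x' : Fin k → ZG N,
        ρt y (freeHom j k x) = act (zy y) (freeHom j k x') ∧
        θt y (freeHom (π.comp j) k x) = act (π (zy y)) (freeHom (π.comp j) k x') := by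
      intro y x
      let S : AddSubgroup (Fin k → ZG N) :=
        { carrier := {x | ∃ x' : Fin k → ZG N,
            ρt y (freeHom j k x) = act (zy y) (freeHom j k x') ∧
            θt y (freeHom (π.comp j) k x) = act (π (zy y)) (freeHom (π.comp j) k x')}
          add_mem' := by
            rintro a b ⟨a', ha1, ha2⟩ ⟨b', hb1, hb2⟩
            refine ⟨a' + b', ?_, ?_⟩
            · rw [map_add, map_add, map_add, act_add, ha1, hb1]
            · rw [map_add, map_add, map_add, act_add, ha2, hb2]
          zero_mem' := ⟨0, by simp [act_zero], by simp [act_zero]⟩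
          neg_mem' := by
            rintro a ⟨a', ha1, ha2⟩
            refine ⟨-a', ?_, ?_⟩
            · rw [map_neg, map_neg, map_neg, act_neg, ha1]
            · rw [map_neg, map_neg, map_neg, act_neg, ha2] }
      refine free_induction S ?_ x
      intro n s
      obtain ⟨n', hn'⟩ := hnorm y n
      refine ⟨act n' (v y s), ?_, ?_⟩
      · rw [hiA.map, map_act, free_single, hρt, hiA.map, ← act_mul, hn', act_mul]
      · rw [hiB.map, map_act, free_single, hθt, hiB.map, MonoidHom.comp_apply,
          MonoidHom.comp_apply, ← act_mul, ← map_mul, hn', map_mul, act_mul]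
    refine ih (hι.ker hCb hiA f FA hFAf) (hκ.ker hCc hiB f FB hFBf) ρ' θ' ?_ ?_ hM h
    · rintro y ⟨c, hc⟩
      obtain ⟨c', h1, h2⟩ := hopt y c
      rw [LinearMap.mem_ker] at hc
      have hc' : f c' = 0 := by
        have h3 := hcA y (freeHom j k c)
        rw [h1, map_act, hFAf, hFAf, hc, map_zero, map_zero] at h3
        exact hι.tf _ _ h3
      refine ⟨⟨c', hc'⟩, ?_, ?_⟩
      · apply Subtype.ext
        rw [hρ', kerHom_coe, act_coe, kerHom_coe]
        exact h1
      · apply Subtype.ext
        rw [hθ', kerHom_coe, act_coe, kerHom_coe]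
        exact h2
    · rintro y hy ⟨c, hc⟩
      have h12 : ρt y (freeHom j k c) = act (zy y) (freeHom j k c) ∧
          θt y (freeHom (π.comp j) k c) = freeHom (π.comp j) k c := by
        let S : AddSubgroup (Fin k → ZG N) :=
          { carrier := {c | ρt y (freeHom j k c) = act (zy y) (freeHom j k c) ∧
              θt y (freeHom (π.comp j) k c) = freeHom (π.comp j) k c}
            add_mem' := by
              rintro a b ⟨ha1, ha2⟩ ⟨hb1, hb2⟩
              refine ⟨?_, ?_⟩
              · rw [map_add, map_add, act_add, ha1, hb1]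
              · rw [map_add, map_add, ha2, hb2]
            zero_mem' := ⟨by simp [act_zero], by simp⟩
            neg_mem' := by
              rintro a ⟨ha1, ha2⟩
              refine ⟨?_, ?_⟩
              · rw [map_neg, map_neg, act_neg, ha1]
              · rw [map_neg, map_neg, ha2] }
        refine free_induction S ?_ c
        intro n s
        refine ⟨?_, ?_⟩
        · rw [hiA.map, map_act, free_single, hρt, hv3 y s hy, free_single, ← act_mul, ← act_mul,
            hcomm y hy n]
        · rw [hiB.map, map_act, free_single, hθt, hv3 y s hy, free_single, hY2 y hy, act_one]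
      refine ⟨?_, ?_⟩
      · apply Subtype.ext
        rw [hρ', kerHom_coe, act_coe, kerHom_coe]
        exact h12.1
      · apply Subtype.ext
        rw [hθ', kerHom_coe]
        exact h12.2

end transfer

end Pool.Agent.W386.M
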