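import Pool.Agent.W386.M.Sig2Main

set_option autoImplicit false

/-!
# Invariance under isomorphisms
-/

namespace Pool.Agent.W386.M

open Function

theorem FPs.transport {R R' : Type} [Ring R] [Ring R'] (e : R ≃+* R') : ∀ (n : ℕ)
    (M : Type) [AddCommGroup M] [Module R M] (M' : Type) [AddCommGroup M'] [Module R' M']
    (f : M ≃+ M') (_ : ∀ (r : R) (x : M), f (r • x) = e r • f x),
    Pool.Agent.W386.FPs R n M → Pool.Agent.W386.FPs R' n M' := by
  intro n
  induction n with
  | zero => intros; trivial
  | succ n ih =>
    intro M _ _ M' _ _ f hf h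
    obtain ⟨k, g, hg, hker⟩ := h
    let E : (Fin k → R) ≃+ (Fin k → R') :=
      { toFun := fun v i => e (v i)
        invFun := fun v i => e.symm (v i)
        left_inv := fun v => by funext i; simp
        right_inv := fun v => by funext i; simp
        map_add' := fun v w => by funext i; simp }
    have hE : ∀ (r : R) (v : Fin k → R), E (r • v) = e r • E v := by
      intro r v
      funext i
      change e (r * v i) = e r * e (v i)
      rw [map_mul]
    have hE' : ∀ (r : R') (v : Fin k → R'), E.symm (r • v) = e.symm r • E.symm v := by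
      intro r v
      rw [AddEquiv.symm_apply_eq, hE]
      simp
    let g' : (Fin k → R') →ₗ[R'] M' :=
      { toFun := fun v => f (g (E.symm v))
        map_add' := fun v w => by rw [map_add, map_add, map_add]
        map_smul' := fun r v => by
          rw [hE', map_smul, hf]
          simp }
    have hg'E : ∀ v, g' (E v) = f (g v) := by
      intro v
      change f (g (E.symm (E v))) = _
      rw [AddEquiv.symm_apply_apply]
    refine ⟨k, g', ?_, ?_⟩
    · intro m
      obtain ⟨v, hv⟩ := hg (f.symm m)
      exact ⟨E v, by rw [hg'E, hv, AddEquiv.apply_symm_apply]⟩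
    · let F : LinearMap.ker g ≃+ LinearMap.ker g' :=
        { toFun := fun v => ⟨E v, by
            rw [LinearMap.mem_ker, hg'E, show g (v : Fin k → R) = 0 from v.2, map_zero]⟩
          invFun := fun v => ⟨E.symm v, by
            rw [LinearMap.mem_ker]
            have h1 : f (g (E.symm (v : Fin k → R'))) = 0 := v.2
            exact (map_eq_zero_iff f f.injective).1 h1⟩
          left_inv := fun v => by
            apply Subtype.ext
            exact E.symm_apply_apply _
          right_inv := fun v => by
            apply Subtype.ext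
            exact E.apply_symm_apply _
          map_add' := fun v w => by
            apply Subtype.ext
            exact map_add E _ _ }
      refine ih (LinearMap.ker g) (LinearMap.ker g') F ?_ hker
      intro r v
      apply Subtype.ext
      exact hE r v

theorem FPs.transport_monoid {P P' : Type} [Monoid P] [Monoid P'] (e : P ≃* P') (n : ℕ)
    (h : FPs (ZG P) n (Triv P)) : FPs (ZG P') n (Triv P') := by
  refine FPs.transport (MonoidAlgebra.mapDomainRingEquiv ℤ e) n (Triv P) (Triv P')
    (show Triv P ≃+ Triv P' from AddEquiv.refl ℤ) ?_ h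
  intro r x
  change aug P r * (show ℤ from x) = aug P' (MonoidAlgebra.mapDomainRingEquiv ℤ e r) *
    (show ℤ from x)
  have h1 : aug P' (MonoidAlgebra.mapDomainRingEquiv ℤ e r) = aug P r :=
    aug_gr (e : P →* P') r
  rw [h1]

variable {G H : Type} [Group G] [Group H]

theorem SigZ.transport {n : ℕ} (e : G ≃* H) (χ : H →* Multiplicative ℝ) (h : SigZ n χ) :
    SigZ n (χ.comp e.toMonoidHom) := by
  refine FPs.transport_monoid (P := Pos χ) (P' := Pos (χ.comp e.toMonoidHom)) ?_ (n + 1) h
  exact
    { toFun := fun x => ⟨e.symm x, by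
        change 0 ≤ ht χ (e (e.symm x))
        rw [MulEquiv.apply_symm_apply]
        exact x.2⟩
      invFun := fun x => ⟨e x, x.2⟩
      left_inv := fun x => by
        apply Subtype.ext
        exact e.apply_symm_apply _
      right_inv := fun x => by
        apply Subtype.ext
        exact e.symm_apply_apply _
      map_mul' := fun x y => by
        apply Subtype.ext
        exact map_mul e.symm _ _ }

theorem above_comp_iff (e : G ≃* H) (χ : H →* Multiplicative ℝ) {c : ℝ} (w : List H) :
    ∀ {g : H}, Above χ c g w → Above (χ.comp e.toMonoidHom) c (e.symm g) (w.map e.symm) := by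
  have hh : ∀ x, ht (χ.comp e.toMonoidHom) (e.symm x) = ht χ x := by
    intro x
    change ht χ (e (e.symm x)) = _
    rw [MulEquiv.apply_symm_apply]
  induction w with
  | nil =>
    intro g h
    rw [List.map_nil, above_nil, hh]
    exact h
  | cons x w ih =>
    intro g h
    rw [List.map_cons, above_cons, hh, ← map_mul]
    exact ⟨h.1, ih h.2⟩

theorem Sig2.transport (e : G ≃* H) (χ : H →* Multiplicative ℝ) (h : Sig2 χ) :
    Sig2 (χ.comp e.toMonoidHom) := by
  obtain ⟨S, ℓ, d, hSf, hSs, h1, h2⟩ := h
  have hprod : ∀ w : List H, (w.map e.symm).prod = e.symm w.prod := fun w =>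
    (map_list_prod e.symm w).symm
  have hmem : ∀ w : List H, (∀ x ∈ w, x ∈ S) → ∀ x ∈ w.map e.symm, x ∈ e.symm '' S := by
    intro w hw x hx
    obtain ⟨y, hy, rfl⟩ := List.mem_map.1 hx
    exact ⟨y, hw y hy, rfl⟩
  have hback : ∀ w : List G, (∀ x ∈ w, x ∈ e.symm '' S) → ∃ v : List H, (∀ x ∈ v, x ∈ S) ∧
      v.map e.symm = w := by
    intro w hw
    refine ⟨w.map e, ?_, ?_⟩
    · intro x hx
      obtain ⟨y, hy, rfl⟩ := List.mem_map.1 hx
      obtain ⟨z, hz, hzy⟩ := hw y hy
      rw [← hzy, MulEquiv.apply_symm_apply]
      exact hz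
    · rw [List.map_map]
      convert List.map_id w
      funext x
      simp
  have habove : ∀ (c : ℝ) (w : List H), Above (χ.comp e.toMonoidHom) c 1 (w.map e.symm) →
      Above χ c 1 w := by
    intro c w hw
    have := above_map χ e.toMonoidHom (w.map e.symm) hw
    rw [map_one, List.map_map] at this
    convert this
    symm
    convert List.map_id w
    funext x
    simp
  refine ⟨e.symm '' S, ℓ, d, hSf.image _, ?_, ?_, ?_⟩
  · rintro _ ⟨x, hx, rfl⟩
    exact ⟨x⁻¹, hSs x hx, map_inv _ _⟩
  · intro g hg
    obtain ⟨w, hw1, hw2, hw3⟩ := h1 (e g) hg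
    refine ⟨w.map e.symm, hmem w hw1, by rw [hprod, hw2]; simp, ?_⟩
    have := above_comp_iff e χ w hw3
    rwa [map_one] at this
  · intro w hw hp ha
    obtain ⟨v, hv, rfl⟩ := hback w hw
    have hvp : v.prod = 1 := by
      rw [hprod] at hp
      exact (map_eq_one_iff e.symm e.symm.injective).1 hp
    have h3 := h2 v hv hvp (habove _ _ ha)
    refine Relation.ReflTransGen.lift (fun w => w.map e.symm) (fun a b h => ?_) _ _ h3
    obtain ⟨u, v, v', u', rfl, rfl, h3, h4, h5, h6, h7, h8, h9⟩ := h
    refine ⟨u.map e.symm, v.map e.symm, v'.map e.symm, u'.map e.symm, by simp, by simp,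
      by simpa using h3, by simpa using h4, by rw [hprod, hprod, h5], hmem _ h6, hmem _ h7, ?_, ?_⟩
    · have := above_comp_iff e χ _ h8
      rwa [map_one] at this
    · have := above_comp_iff e χ _ h9
      rwa [map_one] at this

end Pool.Agent.W386.M
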