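import Pool.Agent.W386.M.Sigma

set_option autoImplicit false

/-!
# Edge paths above a given height and their homotopies
-/

namespace Pool.Agent.W386.M

open Function

variable {G : Type} [Group G] (χ : G →* Multiplicative ℝ)

/-- all vertices of the edge path starting at `g` with labels `w` have height at least `c` -/
def Above (c : ℝ) : G → List G → Prop
  | g, [] => c ≤ ht χ g
  | g, x :: w => c ≤ ht χ g ∧ Above c (g * x) w

/-- One elementary move between edge paths starting at `g`, with labels in `S`, all of whose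
vertices have height at least `c`: a subpath of length at most `ℓ` is replaced by another path of
length at most `ℓ` with the same endpoints. -/
def Mv (S : Set G) (ℓ : ℕ) (c : ℝ) (g : G) (w w' : List G) : Prop :=
  ∃ u v v' u' : List G, w = u ++ v ++ u' ∧ w' = u ++ v' ++ u' ∧ v.length ≤ ℓ ∧ v'.length ≤ ℓ ∧
    v.prod = v'.prod ∧ (∀ x ∈ w, x ∈ S) ∧ (∀ x ∈ w', x ∈ S) ∧ Above χ c g w ∧ Above χ c g w'

/-- homotopy of edge paths above height `c`: a finite sequence of elementary moves -/
def Htp (S : Set G) (ℓ : ℕ) (c : ℝ) (g : G) : List G → List G → Prop :=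
  Relation.ReflTransGen (Mv χ S ℓ c g)

variable {χ}

theorem above_nil {c : ℝ} {g : G} : Above χ c g [] ↔ c ≤ ht χ g := Iff.rfl

theorem above_cons {c : ℝ} {g x : G} {w : List G} :
    Above χ c g (x :: w) ↔ c ≤ ht χ g ∧ Above χ c (g * x) w := Iff.rfl

theorem Above.head {c : ℝ} {g : G} {w : List G} (h : Above χ c g w) : c ≤ ht χ g := by
  cases w with
  | nil => exact h
  | cons x w => exact h.1

theorem above_append {c : ℝ} {u v : List G} : ∀ {g : G},
    Above χ c g (u ++ v) ↔ Above χ c g u ∧ Above χ c (g * u.prod) v := by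
  induction u with
  | nil =>
    intro g
    simp only [List.nil_append, List.prod_nil, mul_one, above_nil]
    exact ⟨fun h => ⟨h.head, h⟩, fun h => h.2⟩
  | cons x u ih =>
    intro g
    rw [List.cons_append, above_cons, above_cons, ih, List.prod_cons, mul_assoc, and_assoc]

theorem Above.last {c : ℝ} {g : G} {w : List G} (h : Above χ c g w) : c ≤ ht χ (g * w.prod) := by
  have := (above_append (χ := χ) (c := c) (g := g) (u := w) (v := [])).1 (by simpa using h)
  exact this.2

theorem Above.change {c c' : ℝ} {w : List G} : ∀ {g g' : G}, Above χ c g w →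
    c' - ht χ g' ≤ c - ht χ g → Above χ c' g' w := by
  induction w with
  | nil =>
    intro g g' h hc
    rw [above_nil] at h ⊢
    linarith
  | cons x w ih =>
    intro g g' h hc
    refine ⟨by have := h.1; linarith, ih h.2 ?_⟩
    rw [ht_mul, ht_mul]
    linarith

theorem Above.mono {c c' : ℝ} {w : List G} {g : G} (h : Above χ c g w) (hc : c' ≤ c) :
    Above χ c' g w := h.change (by linarith)

theorem exists_above (χ : G →* Multiplicative ℝ) (w : List G) : ∀ g : G, ∃ c, Above χ c g w := by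
  induction w with
  | nil => exact fun g => ⟨ht χ g, le_rfl⟩
  | cons x w ih =>
    intro g
    obtain ⟨c, hc⟩ := ih (g * x)
    exact ⟨min (ht χ g) c, min_le_left _ _, hc.mono (min_le_right _ _)⟩

/-- the inverse path -/
def invw (w : List G) : List G := (w.map (·⁻¹)).reverse

theorem invw_nil : invw ([] : List G) = [] := rfl

theorem invw_cons (x : G) (w : List G) : invw (x :: w) = invw w ++ [x⁻¹] := by
  simp [invw]

theorem invw_append (u v : List G) : invw (u ++ v) = invw v ++ invw u := by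
  simp [invw]

theorem invw_invw (u : List G) : invw (invw u) = u := by
  simp [invw, List.map_reverse]

theorem invw_prod (w : List G) : (invw w).prod = w.prod⁻¹ := by
  rw [invw, List.prod_inv_reverse]

theorem invw_length (w : List G) : (invw w).length = w.length := by
  simp [invw]

theorem mem_invw {S : Set G} (hS : ∀ s ∈ S, s⁻¹ ∈ S) {w : List G} (h : ∀ x ∈ w, x ∈ S) :
    ∀ x ∈ invw w, x ∈ S := by
  intro x hx
  simp only [invw, List.mem_reverse, List.mem_map] at hx
  obtain ⟨y, hy, rfl⟩ := hx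
  exact hS _ (h y hy)

theorem Above.inv {c : ℝ} {w : List G} : ∀ {g : G}, Above χ c g w →
    Above χ c (g * w.prod) (invw w) := by
  induction w with
  | nil => intro g h; simpa [invw] using h
  | cons x w ih =>
    intro g h
    rw [invw_cons, above_append, List.prod_cons, ← mul_assoc]
    refine ⟨ih h.2, ?_⟩
    rw [invw_prod, mul_inv_cancel_right, above_cons, above_nil, mul_inv_cancel_right]
    exact ⟨h.2.head, h.1⟩

theorem Above.inv' {c : ℝ} {w : List G} {g : G} (h : Above χ c g w) {g' : G}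
    (hg : g' * w.prod⁻¹ = g) : Above χ c g' (invw w) := by
  have := h.inv
  rwa [← hg, inv_mul_cancel_right] at this

section htp

variable {S : Set G} {ℓ : ℕ} {c : ℝ} {g : G} {w w' w'' : List G}

theorem Mv.symm (h : Mv χ S ℓ c g w w') : Mv χ S ℓ c g w' w := by
  obtain ⟨u, v, v', u', h1, h2, h3, h4, h5, h6, h7, h8, h9⟩ := h
  exact ⟨u, v', v, u', h2, h1, h4, h3, h5.symm, h7, h6, h9, h8⟩

theorem Htp.refl (w : List G) : Htp χ S ℓ c g w w := Relation.ReflTransGen.refl

theorem Htp.trans (h : Htp χ S ℓ c g w w') (h' : Htp χ S ℓ c g w' w'') :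
    Htp χ S ℓ c g w w'' := Relation.ReflTransGen.trans h h'

theorem Htp.symm (h : Htp χ S ℓ c g w w') : Htp χ S ℓ c g w' w := by
  induction h with
  | refl => exact Htp.refl _
  | tail _ h2 ih => exact Relation.ReflTransGen.head h2.symm ih

theorem Mv.prod (h : Mv χ S ℓ c g w w') : w.prod = w'.prod := by
  obtain ⟨u, v, v', u', rfl, rfl, _, _, h5, _⟩ := h
  simp [h5]

theorem Htp.prod (h : Htp χ S ℓ c g w w') : w.prod = w'.prod := by
  induction h with
  | refl => rfl
  | tail _ h2 ih => rw [ih, h2.prod]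

theorem Htp.mem (h : Htp χ S ℓ c g w w') (hw : ∀ x ∈ w, x ∈ S) : ∀ x ∈ w', x ∈ S := by
  induction h with
  | refl => exact hw
  | tail _ h2 _ =>
    obtain ⟨u, v, v', u', _, _, _, _, _, _, h7, _⟩ := h2
    exact h7

theorem Htp.above (h : Htp χ S ℓ c g w w') (hw : Above χ c g w) : Above χ c g w' := by
  induction h with
  | refl => exact hw
  | tail _ h2 _ =>
    obtain ⟨u, v, v', u', _, _, _, _, _, _, _, _, h9⟩ := h2
    exact h9

theorem Mv.mono {S' : Set G} {ℓ' : ℕ} {c' : ℝ} (hS : S ⊆ S') (hℓ : ℓ ≤ ℓ') (hc : c' ≤ c)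
    (h : Mv χ S ℓ c g w w') : Mv χ S' ℓ' c' g w w' := by
  obtain ⟨u, v, v', u', h1, h2, h3, h4, h5, h6, h7, h8, h9⟩ := h
  exact ⟨u, v, v', u', h1, h2, h3.trans hℓ, h4.trans hℓ, h5, fun x hx => hS (h6 x hx),
    fun x hx => hS (h7 x hx), h8.mono hc, h9.mono hc⟩

theorem Htp.mono {S' : Set G} {ℓ' : ℕ} {c' : ℝ} (hS : S ⊆ S') (hℓ : ℓ ≤ ℓ') (hc : c' ≤ c)
    (h : Htp χ S ℓ c g w w') : Htp χ S' ℓ' c' g w w' := by
  have key : ∀ a b, Mv χ S ℓ c g a b → Mv χ S' ℓ' c' g a b := fun _ _ h => h.mono hS hℓ hc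
  exact Relation.ReflTransGen.lift id key _ _ h

theorem Htp.lower {c' : ℝ} (h : Htp χ S ℓ c g w w') (hc : c' ≤ c) : Htp χ S ℓ c' g w w' :=
  h.mono (fun _ h => h) le_rfl hc

theorem Htp.change {c' : ℝ} {g' : G} (h : Htp χ S ℓ c g w w')
    (hc : c' - ht χ g' ≤ c - ht χ g) : Htp χ S ℓ c' g' w w' := by
  refine Relation.ReflTransGen.lift id (fun a b h => ?_) _ _ h
  obtain ⟨u, v, v', u', h1, h2, h3, h4, h5, h6, h7, h8, h9⟩ := h
  exact ⟨u, v, v', u', h1, h2, h3, h4, h5, h6, h7, h8.change hc, h9.change hc⟩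

theorem Htp.append_left {u : List G} (hu : ∀ x ∈ u, x ∈ S) (hua : Above χ c g u)
    (h : Htp χ S ℓ c (g * u.prod) w w') : Htp χ S ℓ c g (u ++ w) (u ++ w') := by
  refine Relation.ReflTransGen.lift (fun w => u ++ w) (fun a b h => ?_) _ _ h
  obtain ⟨p, v, v', q, rfl, rfl, h3, h4, h5, h6, h7, h8, h9⟩ := h
  refine ⟨u ++ p, v, v', q, by simp, by simp, h3, h4, h5, ?_, ?_, ?_, ?_⟩
  · intro x hx
    rcases List.mem_append.1 hx with hx | hx
    · exact hu x hx
    · exact h6 x hx
  · intro x hx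
    rcases List.mem_append.1 hx with hx | hx
    · exact hu x hx
    · exact h7 x hx
  · exact above_append.2 ⟨hua, h8⟩
  · exact above_append.2 ⟨hua, h9⟩

theorem Htp.append_right {u : List G} (hu : ∀ x ∈ u, x ∈ S) (hua : Above χ c (g * w.prod) u)
    (h : Htp χ S ℓ c g w w') : Htp χ S ℓ c g (w ++ u) (w' ++ u) := by
  induction h with
  | refl => exact Htp.refl _
  | tail h1 h2 ih =>
    rename_i b c'
    refine Relation.ReflTransGen.tail ih ?_
    have hp : w.prod = b.prod := Htp.prod h1
    obtain ⟨p, v, v', q, h1, h2, h3, h4, h5, h6, h7, h8, h9⟩ := h2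
    refine ⟨p, v, v', q ++ u, by simp [h1], by simp [h2], h3, h4, h5, ?_, ?_, ?_, ?_⟩
    · intro x hx
      rcases List.mem_append.1 hx with hx | hx
      · exact h6 x hx
      · exact hu x hx
    · intro x hx
      rcases List.mem_append.1 hx with hx | hx
      · exact h7 x hx
      · exact hu x hx
    · rw [above_append, ← hp]
      exact ⟨h8, hua⟩
    · rw [above_append]
      refine ⟨h9, ?_⟩
      have : c'.prod = b.prod := by rw [h1, h2]; simp [h5]
      rw [this, ← hp]
      exact hua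

theorem Htp.base (h1 : ∀ x ∈ w, x ∈ S) (h2 : ∀ x ∈ w', x ∈ S) (h3 : w.length ≤ ℓ)
    (h4 : w'.length ≤ ℓ) (h5 : w.prod = w'.prod) (h6 : Above χ c g w) (h7 : Above χ c g w') :
    Htp χ S ℓ c g w w' :=
  Relation.ReflTransGen.single
    ⟨[], w, w', [], by simp, by simp, h3, h4, h5, h1, h2, h6, h7⟩

theorem Htp.inv (hS : ∀ s ∈ S, s⁻¹ ∈ S) (h : Htp χ S ℓ c g w w') :
    Htp χ S ℓ c (g * w.prod) (invw w) (invw w') := by
  induction h with
  | refl => exact Htp.refl _
  | tail h1 h2 ih =>
    rename_i b c'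
    refine Relation.ReflTransGen.tail ih ?_
    have hp : w.prod = b.prod := Htp.prod h1
    have hp' := h2.prod
    obtain ⟨p, v, v', q, h1, h2, h3, h4, h5, h6, h7, h8, h9⟩ := h2
    refine ⟨invw q, invw v, invw v', invw p, ?_, ?_, by rwa [invw_length], by rwa [invw_length],
      by rw [invw_prod, invw_prod, h5], mem_invw hS h6, mem_invw hS h7, ?_, ?_⟩
    · rw [h1]; simp [invw_append]
    · rw [h2]; simp [invw_append]
    · rw [hp]; exact h8.inv
    · rw [hp, hp']; exact h9.inv

/-- inserting a path followed by its inverse -/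
theorem Htp.ins (hS : ∀ s ∈ S, s⁻¹ ∈ S) (hℓ : 2 ≤ ℓ) (v : List G) : ∀ {g : G},
    (∀ x ∈ v, x ∈ S) → Above χ c g v → Htp χ S ℓ c g [] (v ++ invw v) := by
  induction v with
  | nil => intro g _ _; exact Htp.refl _
  | cons x v ih =>
    intro g hv ha
    have hx : x ∈ S := hv x (by simp)
    have hv' : ∀ y ∈ v, y ∈ S := fun y hy => hv y (by simp [hy])
    have h1 : Htp χ S ℓ c g [] [x, x⁻¹] := by
      refine Htp.base (by simp) ?_ (by simp) (by simpa using hℓ) (by simp) ha.1 ?_
      · intro y hy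
        simp only [List.mem_cons, List.not_mem_nil, or_false] at hy
        rcases hy with rfl | rfl
        · exact hx
        · exact hS _ hx
      · refine ⟨ha.1, ha.2.head, ?_⟩
        rw [above_nil, mul_inv_cancel_right]
        exact ha.1
    refine h1.trans ?_
    have h2 : Htp χ S ℓ c (g * x) ([] ++ [x⁻¹]) ((v ++ invw v) ++ [x⁻¹]) := by
      refine (ih hv' ha.2).append_right ?_ ?_
      · intro y hy
        simp only [List.mem_cons, List.not_mem_nil, or_false] at hy
        subst hy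
        exact hS _ hx
      · rw [List.prod_nil, mul_one, above_cons, above_nil, mul_inv_cancel_right]
        exact ⟨ha.2.head, ha.1⟩
    have h3 : Htp χ S ℓ c g ([x] ++ ([] ++ [x⁻¹])) ([x] ++ ((v ++ invw v) ++ [x⁻¹])) := by
      refine Htp.append_left ?_ ?_ ?_
      · intro y hy
        simp only [List.mem_cons, List.not_mem_nil, or_false] at hy
        subst hy
        exact hx
      · exact ⟨ha.1, ha.2.head⟩
      · rw [List.prod_singleton]
        exact h2
    simpa [invw_cons] using h3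

theorem mem_append {u v : List G} (hu : ∀ x ∈ u, x ∈ S) (hv : ∀ x ∈ v, x ∈ S) :
    ∀ x ∈ u ++ v, x ∈ S := by
  intro x hx
  rcases List.mem_append.1 hx with hx | hx
  · exact hu x hx
  · exact hv x hx

/-- inserting `v v⁻¹` in the middle of a path -/
theorem Htp.insMid (hS : ∀ s ∈ S, s⁻¹ ∈ S) (hℓ : 2 ≤ ℓ) {p q v : List G}
    (hp : ∀ x ∈ p, x ∈ S) (hq : ∀ x ∈ q, x ∈ S) (hv : ∀ x ∈ v, x ∈ S)
    (hpa : Above χ c g p) (hqa : Above χ c (g * p.prod) q) (hva : Above χ c (g * p.prod) v) :
    Htp χ S ℓ c g (p ++ q) (p ++ v ++ invw v ++ q) := by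
  have h1 : Htp χ S ℓ c (g * p.prod) ([] ++ q) ((v ++ invw v) ++ q) := by
    refine (Htp.ins hS hℓ v hv hva).append_right hq ?_
    rw [List.prod_nil, mul_one]
    exact hqa
  have h2 := Htp.append_left hp hpa h1
  simpa using h2

/-- replacing a middle part -/
theorem Htp.mid {p q v v' : List G} (hp : ∀ x ∈ p, x ∈ S) (hq : ∀ x ∈ q, x ∈ S)
    (hpa : Above χ c g p) (hqa : Above χ c (g * p.prod * v.prod) q)
    (h : Htp χ S ℓ c (g * p.prod) v v') :
    Htp χ S ℓ c g (p ++ v ++ q) (p ++ v' ++ q) := by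
  have h1 := h.append_right hq hqa
  have h2 := Htp.append_left hp hpa h1
  simpa using h2

end htp

end Pool.Agent.W386.M
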